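import Pool.Agent.H41.UN.Defs

/-!
# Row Avo: avoiding finitely many maximal ideals with a value of `ω`

For each `𝔮 ∈ S` some value `ω a_𝔮 b_𝔮` is not in `𝔮` (otherwise `h.full` fails: the span would be contained in `𝔮`). Chinese remainder
theorem: `e_𝔮 ∈ R` with `e_𝔮 ≡ 1 mod 𝔮`, `e_𝔮 ∈ 𝔮'` for `𝔮' ≠ 𝔮` in `S`. Take `a = ∑ e_𝔮 a_𝔮`, `b = ∑ e_𝔮 b_𝔮`: modulo `𝔮`,
`ω a b ≡ e_𝔮^2 ω a_𝔮 b_𝔮 ≡ ω a_𝔮 b_𝔮`. (Induction on the finite set is an alternative.)

`exists_crt`: for a finite set `T` of maximal ideals and a subset (predicate) `p` there is `e` with `e ≡ 1 mod q` if `p q` and `e ∈ q` otherwise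
(`Ideal.quotientInfRingEquivPiQuotient` / `Ideal.exists_forall_sub_mem_ideal`).
-/

set_option autoImplicit false

namespace STCI.UN

universe u v

theorem exists_crt {R : Type u} [CommRing R] (T : Finset (Ideal R)) (hT : ∀ q ∈ T, q.IsMaximal)
    (p : Ideal R → Prop) : ∃ e : R, ∀ q ∈ T, (p q → e - 1 ∈ q) ∧ (¬ p q → e ∈ q) := by
  classical
  have hco : Pairwise (Function.onFun IsCoprime fun q : {q // q ∈ T} => (q.1 : Ideal R)) := by
    intro q q' hqq
    have h1 := hT q.1 q.2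
    have h2 := hT q'.1 q'.2
    exact Ideal.isCoprime_of_isMaximal fun h => hqq (Subtype.ext h)
  obtain ⟨e, he⟩ := Ideal.exists_forall_sub_mem_ideal hco
    (fun q : {q // q ∈ T} => if p q.1 then (1 : R) else 0)
  refine ⟨e, fun q hq => ⟨fun hp => ?_, fun hp => ?_⟩⟩
  · have := he ⟨q, hq⟩
    rwa [if_pos hp] at this
  · have := he ⟨q, hq⟩
    rwa [if_neg hp, sub_zero] at this

theorem Avo_one {R : Type u} [CommRing R] {M : Type v} [AddCommGroup M] [Module R M]
    (ω : M →ₗ[R] M →ₗ[R] R) (q : Ideal R) (a b a' b' : M) (e f : R) (he : e - 1 ∈ q) (hf : f ∈ q)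
    (h : ω a b ∉ q) : ω (e • a + f • a') (e • b + f • b') ∉ q := by
  intro hc
  apply h
  have h1 : ω (e • a + f • a') (e • b + f • b') - ω a b ∈ q := by
    have h2 : ω (e • a + f • a') (e • b + f • b') - ω a b =
        (e - 1) * ((e + 1) * ω a b) + f * (e * ω a b' + e * ω a' b + f * ω a' b') := by
      simp only [map_add, map_smul, LinearMap.add_apply, LinearMap.smul_apply, smul_eq_mul]
      ring
    rw [h2]
    exact q.add_mem (q.mul_mem_right _ he) (q.mul_mem_right _ hf)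
  have h3 := q.sub_mem hc h1
  rwa [sub_sub_cancel] at h3

theorem exists_avoid {R : Type u} [CommRing R] {M : Type v} [AddCommGroup M] [Module R M]
    (ω : M →ₗ[R] M →ₗ[R] R) (h : RankTwo ω) (S : Finset (Ideal R))
    (hS : ∀ q ∈ S, q.IsMaximal) : ∃ a b : M, ∀ q ∈ S, ω a b ∉ q := by
  classical
  induction S using Finset.induction_on with
  | empty => exact ⟨0, 0, fun q hq => absurd hq (Finset.notMem_empty q)⟩
  | insert q S hq ih =>
    obtain ⟨a, b, hab⟩ := ih fun q' hq' => hS q' (Finset.mem_insert_of_mem hq')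
    have hqm := hS q (Finset.mem_insert_self q S)
    obtain ⟨a', b', hab'⟩ : ∃ a' b', ω a' b' ∉ q := by
      by_contra hcon
      push Not at hcon
      apply hqm.ne_top
      rw [eq_top_iff, ← h.full, Ideal.span_le]
      rintro _ ⟨p, rfl⟩
      exact hcon p.1 p.2
    obtain ⟨e, he⟩ := exists_crt (insert q S) hS (fun q' => q' = q)
    obtain ⟨f, hf⟩ := exists_crt (insert q S) hS (fun q' => q' ≠ q)
    refine ⟨f • a + e • a', f • b + e • b', ?_⟩
    intro q' hq'
    rcases Finset.mem_insert.1 hq' with rfl | h1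
    · rw [add_comm (f • a), add_comm (f • b)]
      exact Avo_one ω q' a' b' a b e f ((he q' hq').1 rfl) ((hf q' hq').2 (fun hc => hc rfl)) hab'
    · have hne : q' ≠ q := fun hc => hq (hc ▸ h1)
      exact Avo_one ω q' a b a' b' f e ((hf q' hq').1 hne) ((he q' hq').2 hne) (hab q' h1)

end STCI.UN
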