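import Pool.Agent.H41.UN.Defs

/-!
# Row Dim: primes of `k[x, y, z]`

If `P` is not principal, then `P ≠ 0` contains a nonzero element, hence (prime factorization, `R` is a UFD, `P` prime) an irreducible = prime
element `π`, and `⊥ < (π) < P`. If `R/P` were not of dimension `≤ 1` there would be primes `P < Q < Q'` (a nonzero nonmaximal prime of `R/P`
pulled back, and a maximal ideal above it). The chain `⊥ < (π) < P < Q < Q'` has length `4 > 3 = ringKrullDim R`
(`MvPolynomial.ringKrullDim_of_isNoetherianRing`, `ringKrullDim_eq_zero_of_field`; `Order.krullDim`, `LTSeries`).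
-/

set_option autoImplicit false

namespace STCI.UN

universe u

theorem dim_chain {R : Type u} [CommRing R] (h3 : ringKrullDim R ≤ 3)
    (a b c d e : PrimeSpectrum R) (hab : a < b) (hbc : b < c) (hcd : c < d) (hde : d < e) :
    False := by
  let l : LTSeries (PrimeSpectrum R) :=
    ((((RelSeries.singleton _ a).snoc b hab).snoc c (by simpa using hbc)).snoc d
      (by simpa using hcd)).snoc e (by simpa using hde)
  have h2 : ((l.length : ℕ) : WithBot ℕ∞) ≤ ringKrullDim R := Order.LTSeries.length_le_krullDim l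
  have h4 : l.length = 4 := rfl
  rw [h4] at h2
  have h5 := h2.trans h3
  exact absurd h5 (by decide)

theorem principal_or_dimLEOne (k : Type u) [Field k] (P : Ideal (MvPolynomial (Fin 3) k))
    [P.IsPrime] :
    (∃ π, P = Ideal.span {π}) ∨ Ring.DimensionLEOne (MvPolynomial (Fin 3) k ⧸ P) := by
  have h3 : ringKrullDim (MvPolynomial (Fin 3) k) ≤ 3 := by
    rw [MvPolynomial.ringKrullDim_of_isNoetherianRing, ringKrullDim_eq_zero_of_field]
    simp
  by_cases hP : ∃ π, P = Ideal.span {π}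
  · exact Or.inl hP
  right
  have hbot : P ≠ ⊥ := fun h => hP ⟨0, by rw [h, Ideal.span_singleton_eq_bot.2 rfl]⟩
  obtain ⟨π, hπP, hπ⟩ := Ideal.IsPrime.exists_mem_prime_of_ne_bot ‹P.IsPrime› hbot
  refine ⟨fun {p} hp hpp => ?_⟩
  by_contra hmax
  obtain ⟨m, hm, hpm⟩ := Ideal.exists_le_maximal p hpp.ne_top
  have hlt : p < m := lt_of_le_of_ne hpm fun h => hmax (h ▸ hm)
  have hπp : (Ideal.span {π}).IsPrime := (Ideal.span_singleton_prime hπ.ne_zero).2 hπ
  have hsurj : Function.Surjective (Ideal.Quotient.mk P) := Ideal.Quotient.mk_surjective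
  have hQ : (p.comap (Ideal.Quotient.mk P)).IsPrime := Ideal.comap_isPrime _ _
  have hQ' : (m.comap (Ideal.Quotient.mk P)).IsPrime :=
    have := hm.isPrime
    Ideal.comap_isPrime _ _
  have h12 : (⊥ : Ideal (MvPolynomial (Fin 3) k)) < Ideal.span {π} :=
    bot_lt_iff_ne_bot.2 fun h => hπ.ne_zero (Ideal.span_singleton_eq_bot.1 h)
  have h23 : Ideal.span {π} < P :=
    lt_of_le_of_ne ((Ideal.span_singleton_le_iff_mem _).2 hπP) fun h => hP ⟨π, h.symm⟩
  have hPle : ∀ q : Ideal (MvPolynomial (Fin 3) k ⧸ P), P ≤ q.comap (Ideal.Quotient.mk P) :=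
    fun q x hx => by
      rw [Ideal.mem_comap, Ideal.Quotient.eq_zero_iff_mem.2 hx]
      exact q.zero_mem
  have h34 : P < p.comap (Ideal.Quotient.mk P) := by
    refine lt_of_le_of_ne (hPle p) fun h => hp ?_
    rw [eq_bot_iff]
    intro y hy
    obtain ⟨x, rfl⟩ := hsurj y
    have hx : x ∈ p.comap (Ideal.Quotient.mk P) := hy
    rw [← h] at hx
    exact Ideal.Quotient.eq_zero_iff_mem.2 hx
  have h45 : p.comap (Ideal.Quotient.mk P) < m.comap (Ideal.Quotient.mk P) := by
    refine lt_of_le_of_ne (Ideal.comap_mono hlt.le) fun h => hlt.ne ?_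
    exact Ideal.comap_injective_of_surjective _ hsurj h
  exact dim_chain h3 ⟨⊥, Ideal.isPrime_bot⟩ ⟨_, hπp⟩ ⟨P, ‹P.IsPrime›⟩ ⟨_, hQ⟩ ⟨_, hQ'⟩
    h12 h23 h34 h45

end STCI.UN
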