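import Pool.Agent.H41.UN.Uni

/-!
# A closed and open part of a complete intersection

If `e (1 - e)` vanishes on `V(f, g)`, then the part `V(f, g, e)` of `V(f, g)` is again the zero set of two elements (`QS R`).
-/

set_option autoImplicit false

namespace STCI.UN

universe u

theorem twoEq_of_disjoint {R : Type u} [CommRing R] [IsDomain R] (hR : QS.{u, u} R)
    (f g e : R) (h : e * (1 - e) ∈ (Ideal.span {f, g} : Ideal R).radical) :
    TwoEq ((Ideal.span {f, g} : Ideal R) ⊔ Ideal.span {e}).radical := by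
  have hJrad : (((Ideal.span {f, g} : Ideal R) ⊔ Ideal.span {e}).radical).IsRadical :=
    Ideal.radical_isRadical _
  have hle : ∀ q : Ideal R, q.IsPrime →
      (((Ideal.span {f, g} : Ideal R) ⊔ Ideal.span {e}).radical ≤ q ↔
        ((f ∈ q ∧ g ∈ q) ∧ e ∈ q)) := by
    intro q hq
    rw [hq.radical_le_iff, sup_le_iff, span_pair_le_iff, Ideal.span_singleton_le_iff_mem]
  have hX : ∀ q : Ideal R, q.IsPrime → f ∈ q → g ∈ q → e * (1 - e) ∈ q := fun q hq h1 h2 =>
    (mem_radical_iff_prime _ _).1 h q hq (span_pair_le_iff.2 ⟨h1, h2⟩)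
  have hone : ∀ q : Ideal R, q.IsPrime → (1 : R) ∉ q := fun q hq =>
    (Ideal.ne_top_iff_one q).1 hq.ne_top
  by_cases he0 : e = 0
  · refine ⟨f, g, radical_eq_of_prime hJrad fun q hq => ?_⟩
    rw [span_pair_le_iff, hle q hq]
    exact ⟨fun h1 => ⟨h1, he0 ▸ q.zero_mem⟩, fun h1 => h1.1⟩
  by_cases he1 : e = 1
  · refine ⟨1, 1, radical_eq_of_prime hJrad fun q hq => ?_⟩
    rw [span_pair_le_iff, hle q hq]
    exact ⟨fun h1 => absurd h1.1 (hone q hq), fun h1 => absurd (he1 ▸ h1.2) (hone q hq)⟩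
  obtain ⟨m, hm⟩ := h
  obtain ⟨x, y, hxy⟩ := Ideal.mem_span_pair.1 hm
  obtain ⟨d, hd⟩ : ∃ d, d = 1 - e := ⟨_, rfl⟩
  have h1d : 1 - d = e := by rw [hd]; ring
  have hd0 : d ≠ 0 := by rw [hd]; exact sub_ne_zero.2 (Ne.symm he1)
  have hd1 : 1 - d ≠ 0 := by rw [h1d]; exact he0
  obtain ⟨c, hc⟩ : ∃ c, c = d * (1 - d) := ⟨_, rfl⟩
  have hce : c = e * (1 - e) := by rw [hc, h1d, hd]; ring
  have hc0 : c ≠ 0 := by rw [hc]; exact mul_ne_zero hd0 hd1
  rw [← hce] at hxy
  let K := FractionRing R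
  have hinj : Function.Injective (algebraMap R K) := IsFractionRing.injective R K
  set aK := algebraMap R K with haK
  have hcK : aK c ^ m ≠ 0 := pow_ne_zero _ ((map_ne_zero_iff _ hinj).2 hc0)
  have hxyK : aK x * aK f + aK y * aK g = aK c ^ m := by
    rw [← map_mul, ← map_mul, ← map_add, hxy, map_pow]
  obtain ⟨w, hw⟩ : ∃ w : K, aK c ^ m * w = 1 := ⟨(aK c ^ m)⁻¹, mul_inv_cancel₀ hcK⟩
  obtain ⟨β, γ, hβ, hγ, hβγ, hβin, hγin⟩ := split (K := K) hR d hd0 hd1
    !![aK f, -(aK y * w); aK g, aK x * w]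
    (by
      rw [Matrix.det_fin_two_of]
      linear_combination w * hxyK + hw) (by
      rw [← hc]
      have h2 : ∀ z : R, InL c (aK z * w) := fun z => ⟨m, z, by
        rw [← haK]
        linear_combination (-(aK z)) * hw⟩
      intro i j
      fin_cases i <;> fin_cases j
      · exact InL.of c f
      · exact (h2 y).neg
      · exact InL.of c g
      · exact h2 x)
  rw [Matrix.det_fin_two] at hβ hγ
  have k00 : aK f = β 0 0 * γ 0 0 + β 0 1 * γ 1 0 := by
    have := congrFun (congrFun hβγ 0) 0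
    simpa [Matrix.mul_apply, Fin.sum_univ_two] using this
  have k10 : aK g = β 1 0 * γ 0 0 + β 1 1 * γ 1 0 := by
    have := congrFun (congrFun hβγ 1) 0
    simpa [Matrix.mul_apply, Fin.sum_univ_two] using this
  have g1 : γ 0 0 = β 1 1 * aK f - β 0 1 * aK g := by
    rw [k00, k10]
    linear_combination (-γ 0 0) * hβ
  have g2 : γ 1 0 = -β 1 0 * aK f + β 0 0 * aK g := by
    rw [k00, k10]
    linear_combination (-γ 1 0) * hβ
  obtain ⟨A, hA⟩ : ∃ A : R, aK A = γ 0 0 := by
    apply InL.both (d := d)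
    · rw [g1]
      exact ((hβin 1 1).mul (InL.of _ _)).sub ((hβin 0 1).mul (InL.of _ _))
    · exact hγin 0 0
  obtain ⟨B, hB⟩ : ∃ B : R, aK B = γ 1 0 := by
    apply InL.both (d := d)
    · rw [g2]
      exact ((hβin 1 0).neg.mul (InL.of _ _)).add ((hβin 0 0).mul (InL.of _ _))
    · exact hγin 1 0
  refine ⟨A, B, radical_eq_of_prime hJrad fun q hq => ?_⟩
  rw [span_pair_le_iff, hle q hq]
  by_cases hdq : d ∈ q
  · have heq : e ∉ q := by
      intro h1
      have : (1 : R) = d + e := by rw [hd]; ring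
      exact hone q hq (this ▸ Ideal.add_mem _ hdq h1)
    constructor
    · rintro ⟨h1, h2⟩
      exfalso
      refine hone q hq (mem_of_comb hinj (1 - d) q (by rw [h1d]; exact heq) h1 h2 (hγin 1 1)
        (hγin 0 1).neg ?_)
      rw [← haK, hA, hB, map_one]
      linear_combination (-1 : K) * hγ
    · rintro ⟨_, h1⟩
      exact absurd h1 heq
  · constructor
    · rintro ⟨h1, h2⟩
      have hf : f ∈ q := by
        refine mem_of_comb hinj d q hdq h1 h2 (hβin 0 0) (hβin 0 1) ?_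
        rw [← haK, hA, hB]
        exact k00
      have hg : g ∈ q := by
        refine mem_of_comb hinj d q hdq h1 h2 (hβin 1 0) (hβin 1 1) ?_
        rw [← haK, hA, hB]
        exact k10
      refine ⟨⟨hf, hg⟩, ?_⟩
      exact (hq.mem_or_mem (hX q hq hf hg)).resolve_right fun h3 => hdq (by rw [hd]; exact h3)
    · rintro ⟨⟨hf, hg⟩, _⟩
      constructor
      · refine mem_of_comb hinj d q hdq hf hg (hβin 1 1) (hβin 0 1).neg ?_
        rw [← haK, hA, g1]
        ring
      · refine mem_of_comb hinj d q hdq hf hg (hβin 1 0).neg (hβin 0 0) ?_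
        rw [← haK, hB, g2]

end STCI.UN
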