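import Pool.Agent.H41.UN.Defs

/-!
# The separating function, general case
-/

set_option autoImplicit false

namespace STCI.UN

universe u

variable {R : Type u} [CommRing R]

theorem maximal_of_lt {P Q : Ideal R} (hQ : Q.IsPrime)
    (hP : Ring.DimensionLEOne (R ⧸ P)) (h : P < Q) : Q.IsMaximal := by
  have hsurj : Function.Surjective (Ideal.Quotient.mk P) := Ideal.Quotient.mk_surjective
  have hker : RingHom.ker (Ideal.Quotient.mk P) ≤ Q := by
    rw [Ideal.mk_ker]
    exact h.le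
  have h1 : (Q.map (Ideal.Quotient.mk P)).IsPrime := Ideal.map_isPrime_of_surjective hsurj hker
  have h2 : Q.map (Ideal.Quotient.mk P) ≠ ⊥ := by
    intro h3
    rw [Ideal.map_eq_bot_iff_le_ker, Ideal.mk_ker] at h3
    exact absurd h3 (not_le_of_gt h)
  have h4 : (Q.map (Ideal.Quotient.mk P)).IsMaximal := hP.maximalOfPrime h2 h1
  have h5 : (Q.map (Ideal.Quotient.mk P)).comap (Ideal.Quotient.mk P) = Q := by
    rw [Ideal.comap_map_of_surjective _ hsurj]
    have : Ideal.comap (Ideal.Quotient.mk P) ⊥ ≤ Q := hker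
    exact sup_eq_left.2 this
  rw [← h5]
  exact Ideal.comap_isMaximal_of_surjective _ hsurj

theorem exists_coset_avoid (T : Finset (Ideal R)) (hT : ∀ P ∈ T, P.IsPrime)
    (hinc : ∀ P ∈ T, ∀ Q ∈ T, P ≤ Q → P = Q) (f g : R)
    (h : ∀ P ∈ T, ¬ (f ∈ P ∧ g ∈ P)) : ∃ l : R, ∀ P ∈ T, g + l * f ∉ P := by
  classical
  have h1 : ¬ (((T.filter fun P => g ∉ P).inf id : Ideal R) : Set R) ⊆
      ⋃ P ∈ ((T.filter fun P => g ∈ P : Finset (Ideal R)) : Set (Ideal R)), ((id P : Ideal R) : Set R) := by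
    rw [Ideal.subset_union_prime (f := (id : Ideal R → Ideal R)) ⊥ ⊥
      (fun P hP _ _ => hT P (Finset.mem_filter.1 hP).1)]
    rintro ⟨P, hP, hle⟩
    rw [Finset.mem_filter] at hP
    obtain ⟨Q, hQ, hQP⟩ := (Ideal.IsPrime.inf_le' (hT P hP.1)).1 hle
    rw [Finset.mem_filter] at hQ
    have := hinc Q hQ.1 P hP.1 hQP
    exact hQ.2 (this ▸ hP.2)
  obtain ⟨l, hl, hl'⟩ := Set.not_subset.1 h1
  refine ⟨l, fun P hP hmem => ?_⟩
  by_cases hg : g ∈ P
  · have h2 : l * f ∈ P := by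
      have : l * f = (g + l * f) - g := by ring
      rw [this]
      exact Ideal.sub_mem _ hmem hg
    rcases (hT P hP).mem_or_mem h2 with h3 | h3
    · exact hl' (Set.mem_iUnion₂.2 ⟨P, Finset.mem_coe.2 (Finset.mem_filter.2 ⟨hP, hg⟩), h3⟩)
    · exact h P hP ⟨h3, hg⟩
  · have h2 : l ∈ P := by
      have h3 : (T.filter fun P => g ∉ P).inf id ≤ id P :=
        Finset.inf_le (Finset.mem_filter.2 ⟨hP, hg⟩)
      exact h3 hl
    apply hg
    have : g = (g + l * f) - l * f := by ring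
    rw [this]
    exact Ideal.sub_mem _ hmem (Ideal.mul_mem_right _ _ h2)

theorem exists_data_gen [IsNoetherianRing R] (J : Ideal R)
    (hJ : ∀ P ∈ J.minimalPrimes, Ring.DimensionLEOne (R ⧸ P)) (f g : R) :
    ∃ (f' g' d ρ : R) (D : ℕ), Ideal.span {f', g'} = Ideal.span {f, g} ∧
      d - 1 ∈ (Ideal.span {f, g} : Ideal R) ∧ d * f' ^ (D + 1) + g' * ρ ∈ J := by
  classical
  have hfin : J.minimalPrimes.Finite := Ideal.finite_minimalPrimes_of_isNoetherianRing _ J
  obtain ⟨l, hl⟩ := exists_coset_avoid (hfin.toFinset.filter fun P => ¬ (f ∈ P ∧ g ∈ P))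
    (fun P hP => by
      rw [Finset.mem_filter, Set.Finite.mem_toFinset] at hP
      exact hP.1.1.1) (fun P hP Q hQ hPQ => by
      rw [Finset.mem_filter, Set.Finite.mem_toFinset] at hP hQ
      exact le_antisymm hPQ (hQ.1.2 hP.1.1 hPQ)) f g
    (fun P hP => (Finset.mem_filter.1 hP).2)
  set g' := g + l * f with hg'
  set b : Ideal R := J ⊔ Ideal.span {g'} with hb
  have hbfin : b.minimalPrimes.Finite := Ideal.finite_minimalPrimes_of_isNoetherianRing _ b
  set T := hbfin.toFinset.filter fun Q => f ∉ Q with hT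
  have hTmax : ∀ Q ∈ T, Q.IsMaximal := by
    intro Q hQ
    rw [hT, Finset.mem_filter, Set.Finite.mem_toFinset] at hQ
    have hQp := hQ.1.1.1
    have hle : b ≤ Q := hQ.1.1.2
    obtain ⟨P, hP, hPQ⟩ := Ideal.exists_minimalPrimes_le (le_sup_left.trans hle : J ≤ Q)
    refine maximal_of_lt hQp (hJ P hP) (lt_of_le_of_ne hPQ fun hPQ' => ?_)
    have h1 : g' ∈ P := by
      rw [hPQ']
      exact hle (Ideal.mem_sup_right (Ideal.mem_span_singleton_self _))
    have h2 : f ∈ P ∧ g ∈ P := by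
      by_contra h3
      exact hl P (Finset.mem_filter.2 ⟨(Set.Finite.mem_toFinset _).2 hP, h3⟩) h1
    exact hQ.2 (hPQ' ▸ h2.1)
  have htop : T.inf id ⊔ Ideal.span {f, g} = ⊤ := by
    by_contra hne
    obtain ⟨m, hm, hle⟩ := Ideal.exists_le_maximal _ hne
    obtain ⟨Q, hQ, hQm⟩ := (Ideal.IsPrime.inf_le' hm.isPrime).1 (le_sup_left.trans hle)
    have h1 : Q = m := (hTmax Q hQ).eq_of_le hm.ne_top hQm
    have h2 : f ∈ m := hle (Ideal.mem_sup_right (mem_pair_left f g))
    rw [hT, Finset.mem_filter] at hQ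
    exact hQ.2 (h1 ▸ h2)
  obtain ⟨d', hd', e, he, hde⟩ := Submodule.mem_sup.1
    ((Ideal.eq_top_iff_one _).1 htop)
  have hrad : f * d' ∈ b.radical := by
    rw [← Ideal.sInf_minimalPrimes, Submodule.mem_sInf]
    intro Q hQ
    by_cases hf : f ∈ Q
    · exact Ideal.mul_mem_right _ _ hf
    · have h1 : T.inf id ≤ id Q :=
        Finset.inf_le (Finset.mem_filter.2 ⟨(Set.Finite.mem_toFinset _).2 hQ, hf⟩)
      exact Ideal.mul_mem_left _ _ (h1 hd')
  obtain ⟨N, hN⟩ := hrad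
  have hN1 : (f * d') ^ (N + 1) ∈ b := by
    rw [pow_succ]
    exact Ideal.mul_mem_right _ _ hN
  obtain ⟨j, hj, x, hx, hjx⟩ := Submodule.mem_sup.1 hN1
  obtain ⟨c, rfl⟩ := Ideal.mem_span_singleton.1 hx
  refine ⟨f, g', d' ^ (N + 1), -c, N, ?_, ?_, ?_⟩
  · apply le_antisymm
    · refine span_pair_le (mem_pair_left f g) ?_
      exact Ideal.add_mem _ (mem_pair_right f g) (Ideal.mul_mem_left _ _ (mem_pair_left f g))
    · refine span_pair_le (mem_pair_left f g') ?_
      have : g = g' - l * f := by rw [hg']; ring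
      rw [this]
      exact Ideal.sub_mem _ (mem_pair_right f g') (Ideal.mul_mem_left _ _ (mem_pair_left f g'))
  · have h1 : d' - 1 ∈ (Ideal.span {f, g} : Ideal R) := by
      have : d' - 1 = -e := by linear_combination hde
      rw [this]
      exact neg_mem he
    have h2 : d' - 1 ∣ d' ^ (N + 1) - 1 := by
      simpa using sub_dvd_pow_sub_pow d' 1 (N + 1)
    exact Ideal.mem_of_dvd _ h2 h1
  · have : d' ^ (N + 1) * f ^ (N + 1) + g' * -c = j := by
      linear_combination -hjx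
    rw [this]
    exact hj

end STCI.UN
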