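import Pool.Agent.H41.UN.Uni
import Pool.Agent.H41.UN.DatG
import Pool.Agent.H41.UN.Avo

/-!
# Explicit Ferrand-Szpiro construction: the choice of the global data
-/

set_option autoImplicit false

namespace STCI.UN

universe u

variable {R : Type u} [CommRing R]

/-- `K ≤ J` locally at `m` -/
def LocLe (m J K : Ideal R) : Prop := ∃ s ∉ m, ∀ x ∈ J, s * x ∈ K

/-- the ideal `(K : J)` -/
def col (K J : Ideal R) : Ideal R where
  carrier := {s | ∀ x ∈ J, s * x ∈ K}
  add_mem' := by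
    intro a b ha hb x hx
    rw [add_mul]
    exact K.add_mem (ha x hx) (hb x hx)
  zero_mem' := by
    intro x _
    rw [zero_mul]
    exact K.zero_mem
  smul_mem' := by
    intro c a ha x hx
    rw [smul_eq_mul, mul_assoc]
    exact K.mul_mem_left _ (ha x hx)

theorem mem_col {K J : Ideal R} {s : R} : s ∈ col K J ↔ ∀ x ∈ J, s * x ∈ K := Iff.rfl

theorem locLe_iff_col {m K J : Ideal R} : LocLe m J K ↔ ¬ (col K J ≤ m) := by
  constructor
  · rintro ⟨s, hs, h⟩ hle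
    exact hs (hle h)
  · intro h
    obtain ⟨s, hs, hs'⟩ := SetLike.not_le_iff_exists.1 h
    exact ⟨s, hs', hs⟩

theorem locLe_of_forall {m K J : Ideal R} [hm : m.IsPrime] (hJ : J.FG)
    (h : ∀ x ∈ J, ∃ s ∉ m, s * x ∈ K) : LocLe m J K := by
  classical
  obtain ⟨S, hS⟩ := hJ
  have hSJ : ∀ x ∈ S, x ∈ J := fun x hx => by
    rw [← hS]
    exact Submodule.subset_span hx
  choose! s hs hsK using h
  refine ⟨∏ x ∈ S, s x, ?_, ?_⟩
  · intro hmem
    obtain ⟨x, hx, hx'⟩ := (hm.prod_mem_iff).1 hmem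
    exact hs x (hSJ x hx) hx'
  · intro x hx
    have hx' : x ∈ Ideal.span (S : Set R) := by
      rw [hS]
      exact hx
    have hmem : ∀ y ∈ Submodule.span R (S : Set R), (∏ z ∈ S, s z) * y ∈ K := by
      intro y hy
      refine Submodule.span_induction (p := fun y _ => (∏ z ∈ S, s z) * y ∈ K) ?_ ?_ ?_ ?_ hy
      · intro y hy
        obtain ⟨c, hc⟩ := Finset.dvd_prod_of_mem s (Finset.mem_coe.1 hy)
        have h2 : (∏ z ∈ S, s z) * y = c * (s y * y) := by rw [hc]; ring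
        rw [h2]
        exact K.mul_mem_left _ (hsK y (hSJ y (Finset.mem_coe.1 hy)))
      · rw [mul_zero]
        exact K.zero_mem
      · intro y z _ _ hy hz
        rw [mul_add]
        exact K.add_mem hy hz
      · intro a y _ hy
        have h2 : (∏ z ∈ S, s z) * (a • y) = a * ((∏ z ∈ S, s z) * y) := by
          rw [smul_eq_mul]; ring
        rw [h2]
        exact K.mul_mem_left _ hy
    exact hmem x hx'

theorem locLe_of_map {m K J : Ideal R} [hm : m.IsPrime] (hJ : J.FG)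
    (h : J.map (algebraMap R (Localization.AtPrime m)) ≤
      K.map (algebraMap R (Localization.AtPrime m))) : LocLe m J K := by
  refine locLe_of_forall hJ fun x hx => ?_
  have h1 := h (Ideal.mem_map_of_mem _ hx)
  obtain ⟨s, hs, hs'⟩ := (IsLocalization.algebraMap_mem_map_algebraMap_iff m.primeCompl
    (Localization.AtPrime m) K x).1 h1
  exact ⟨s, hs, hs'⟩

theorem map_le_of_locLe {m K J : Ideal R} [hm : m.IsPrime] (h : LocLe m J K) :
    J.map (algebraMap R (Localization.AtPrime m)) ≤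
      K.map (algebraMap R (Localization.AtPrime m)) := by
  obtain ⟨s, hs, h⟩ := h
  rw [Ideal.map_le_iff_le_comap]
  intro x hx
  rw [Ideal.mem_comap]
  exact (IsLocalization.algebraMap_mem_map_algebraMap_iff m.primeCompl
    (Localization.AtPrime m) K x).2 ⟨s, hs, h x hx⟩

theorem map_le_jacobson {m J : Ideal R} [hm : m.IsPrime] (h : J ≤ m) :
    J.map (algebraMap R (Localization.AtPrime m)) ≤ Ideal.jacobson ⊥ := by
  rw [IsLocalRing.jacobson_eq_maximalIdeal ⊥ bot_ne_top, ← Localization.AtPrime.map_eq_maximalIdeal]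
  exact Ideal.map_mono h

/-- Nakayama -/
theorem locLe_of_sup {m K J : Ideal R} [hm : m.IsPrime] (hJ : J.FG)
    (h : LocLe m J (K ⊔ m * J)) : LocLe m J K := by
  refine locLe_of_map hJ ?_
  have h1 := map_le_of_locLe h
  rw [Ideal.map_sup, Ideal.map_mul] at h1
  exact Submodule.le_of_le_smul_of_le_jacobson_bot (hJ.map _) (map_le_jacobson le_rfl) h1

theorem exists_crt_sum (T : Finset (Ideal R)) (hT : ∀ m ∈ T, m.IsMaximal) (J : Ideal R)
    (f : Ideal R → R) (hf : ∀ m ∈ T, f m ∈ J) :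
    ∃ l ∈ J, ∀ m ∈ T, l - f m ∈ m * J := by
  classical
  choose e he using fun m : Ideal R => exists_crt T hT (fun q => q = m)
  refine ⟨∑ m ∈ T, e m * f m, Ideal.sum_mem _ fun m hm => Ideal.mul_mem_left _ _ (hf m hm), ?_⟩
  intro m hm
  rw [← Finset.add_sum_erase T _ hm]
  have h1 : e m * f m + ∑ x ∈ T.erase m, e x * f x - f m =
      (e m - 1) * f m + ∑ x ∈ T.erase m, e x * f x := by ring
  rw [h1]
  refine Ideal.add_mem _ (Ideal.mul_mem_mul ((he m m hm).1 rfl) (hf m hm)) ?_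
  refine Ideal.sum_mem _ fun x hx => ?_
  obtain ⟨hxm, hxT⟩ := Finset.mem_erase.1 hx
  exact Ideal.mul_mem_mul ((he x m hm).2 (Ne.symm hxm)) (hf x hxT)

/-- Step A -/
theorem exists_two [IsNoetherianRing R] (P : Ideal R) [P.IsPrime]
    (hdim : Ring.DimensionLEOne (R ⧸ P)) (J : Ideal R) (g : R)
    (h : ∀ m : Ideal R, m.IsMaximal → P ≤ m → ∃ f ∈ J, LocLe m J (Ideal.span {g, f})) :
    ∃ l1 ∈ J, ∃ l2 ∈ J, ∀ m : Ideal R, m.IsMaximal → P ≤ m →
      LocLe m J (Ideal.span {g, l1}) ∨ LocLe m J (Ideal.span {g, l2}) := by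
  classical
  obtain ⟨m0, hm0, hPm0⟩ := Ideal.exists_le_maximal P (Ideal.IsPrime.ne_top ‹P.IsPrime›)
  obtain ⟨l1, hl1, p1, hp1, hp1J⟩ := h m0 hm0 hPm0
  have hp1P : p1 ∉ P := fun hc => hp1 (hPm0 hc)
  have hfin : (P ⊔ Ideal.span {p1}).minimalPrimes.Finite :=
    Ideal.finite_minimalPrimes_of_isNoetherianRing _ _
  set T : Finset (Ideal R) := hfin.toFinset.filter fun m => m.IsMaximal with hTdef
  have hT : ∀ m ∈ T, m.IsMaximal := fun m hm => (Finset.mem_filter.1 hm).2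
  have hTP : ∀ m ∈ T, P ≤ m := fun m hm =>
    le_sup_left.trans ((Set.Finite.mem_toFinset _).1 (Finset.mem_filter.1 hm).1).1.2
  have hfm : ∀ m : Ideal R, ∃ f : R, m ∈ T → f ∈ J ∧ LocLe m J (Ideal.span {g, f}) := by
    intro m
    by_cases hm : m ∈ T
    · obtain ⟨f, hf, hf'⟩ := h m (hT m hm) (hTP m hm)
      exact ⟨f, fun _ => ⟨hf, hf'⟩⟩
    · exact ⟨0, fun hc => absurd hc hm⟩
  choose f hf using hfm
  obtain ⟨l2, hl2, hl2'⟩ := exists_crt_sum T hT J f fun m hm => (hf m hm).1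
  refine ⟨l1, hl1, l2, hl2, fun m hm hPm => ?_⟩
  by_cases hpm : p1 ∈ m
  · right
    have hmT : m ∈ T := by
      rw [hTdef, Finset.mem_filter, Set.Finite.mem_toFinset]
      refine ⟨⟨⟨hm.isPrime, sup_le hPm ((Ideal.span_singleton_le_iff_mem _).2 hpm)⟩, ?_⟩, hm⟩
      rintro q ⟨hq, hq'⟩ hqm
      have hPq : P < q := by
        refine lt_of_le_of_ne (le_sup_left.trans hq') fun hc => hp1P ?_
        rw [hc]
        exact hq' (Ideal.mem_sup_right (Ideal.mem_span_singleton_self _))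
      exact ((maximal_of_lt hq hdim hPq).eq_of_le hm.ne_top hqm).ge
    have := hm.isPrime
    refine locLe_of_sup (IsNoetherian.noetherian J) ?_
    obtain ⟨s, hs, hs'⟩ := (hf m hmT).2
    refine ⟨s, hs, fun x hx => ?_⟩
    obtain ⟨a, b, hab⟩ := Ideal.mem_span_pair.1 (hs' x hx)
    have h1 : s * x = (a * g + b * l2) - b * (l2 - f m) := by rw [← hab]; ring
    rw [h1]
    refine Ideal.sub_mem _ (Ideal.mem_sup_left ?_) (Ideal.mem_sup_right ?_)
    · exact Ideal.mem_span_pair.2 ⟨a, b, rfl⟩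
    · exact Ideal.mul_mem_left _ _ (hl2' m hmT)
  · left
    exact ⟨p1, hpm, hp1J⟩

/-- the data used in the construction -/
structure FSData (J : Ideal R) (g p p' q r l1 l2 b1 b2 k : R) : Prop where
  hl1 : l1 ∈ J
  hl2 : l2 ∈ J
  hb1 : b1 ∈ J
  hb2 : b2 ∈ J
  hk : k ∈ J
  hpp : p + p' - 1 ∈ J
  hdet : p * p' - q * r = g * k
  h1 : p' * l1 - r * l2 = g * k * b1
  h2 : p * l2 - q * l1 = g * k * b2
  hA : ∀ x ∈ J, p * x ∈ Ideal.span {g, l1} ⊔ J * J
  hB : ∀ x ∈ J, p' * x ∈ Ideal.span {g, l2} ⊔ J * J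

/-- Step D -/
theorem data_of_det {J : Ideal R} {g p p' q r l1 l2 α β k : R} (hl1 : l1 ∈ J)
    (hl2 : l2 ∈ J) (hk : k ∈ J) (hpp : p + p' - 1 ∈ J) (hdet : p * p' - q * r = g * k)
    (hp : p ∈ col (Ideal.span {g, l1}) J) (hp' : p' ∈ col (Ideal.span {g, l2}) J)
    (h1 : p * l2 = q * l1 + α * g) (h2 : p' * l1 = r * l2 + β * g) :
    FSData J g p p' q r (p * l1 + r * l2) (q * l1 + p' * l2) l1 l2 k := by
  have e1 : l1 = (p * l1 + r * l2) - (p + p' - 1) * l1 + β * g := by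
    linear_combination h2
  have e2 : l2 = (q * l1 + p' * l2) - (p + p' - 1) * l2 + α * g := by
    linear_combination h1
  refine ⟨Ideal.add_mem _ (Ideal.mul_mem_left _ _ hl1) (Ideal.mul_mem_left _ _ hl2),
    Ideal.add_mem _ (Ideal.mul_mem_left _ _ hl1) (Ideal.mul_mem_left _ _ hl2),
    hl1, hl2, hk, hpp, hdet, ?_, ?_, ?_, ?_⟩
  · linear_combination l1 * hdet
  · linear_combination l2 * hdet
  · intro x hx
    obtain ⟨a, b, hab⟩ := Ideal.mem_span_pair.1 (mem_col.1 hp x hx)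
    have hl1m : l1 ∈ (Ideal.span {g, p * l1 + r * l2} : Ideal R) ⊔ J * J := by
      have h3 : (p * l1 + r * l2) - (p + p' - 1) * l1 + β * g ∈
          (Ideal.span {g, p * l1 + r * l2} : Ideal R) ⊔ J * J := by
        refine Ideal.add_mem _ (Ideal.sub_mem _ (Ideal.mem_sup_left (mem_pair_right _ _))
          (Ideal.mem_sup_right (Ideal.mul_mem_mul hpp hl1)))
          (Ideal.mem_sup_left (Ideal.mul_mem_left _ _ (mem_pair_left _ _)))
      rwa [← e1] at h3
    rw [← hab]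
    exact Ideal.add_mem _ (Ideal.mem_sup_left (Ideal.mul_mem_left _ _ (mem_pair_left _ _)))
      (Ideal.mul_mem_left _ _ hl1m)
  · intro x hx
    obtain ⟨a, b, hab⟩ := Ideal.mem_span_pair.1 (mem_col.1 hp' x hx)
    have hl2m : l2 ∈ (Ideal.span {g, q * l1 + p' * l2} : Ideal R) ⊔ J * J := by
      have h3 : (q * l1 + p' * l2) - (p + p' - 1) * l2 + α * g ∈
          (Ideal.span {g, q * l1 + p' * l2} : Ideal R) ⊔ J * J := by
        refine Ideal.add_mem _ (Ideal.sub_mem _ (Ideal.mem_sup_left (mem_pair_right _ _))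
          (Ideal.mem_sup_right (Ideal.mul_mem_mul hpp hl2)))
          (Ideal.mem_sup_left (Ideal.mul_mem_left _ _ (mem_pair_left _ _)))
      rwa [← e2] at h3
    rw [← hab]
    exact Ideal.add_mem _ (Ideal.mem_sup_left (Ideal.mul_mem_left _ _ (mem_pair_left _ _)))
      (Ideal.mul_mem_left _ _ hl2m)

/-- Step C -/
theorem data_of_eps {J : Ideal R} {g p p' q r l1 l2 α β ε : R} (hg : g ∈ J) (hl1 : l1 ∈ J)
    (hl2 : l2 ∈ J) (hpp : p + p' - 1 ∈ J) (hdet : p * p' - q * r = ε * g)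
    (hp : p ∈ col (Ideal.span {g, l1}) J) (hp' : p' ∈ col (Ideal.span {g, l2}) J)
    (h1 : p * l2 = q * l1 + α * g) (h2 : p' * l1 = r * l2 + β * g) :
    ∃ p p' q r l1 l2 b1 b2 k : R, FSData J g p p' q r l1 l2 b1 b2 k := by
  have hgc : ∀ l : R, g ∈ col (Ideal.span {g, l}) J := fun l x _ =>
    Ideal.mul_mem_right _ _ (mem_pair_left _ _)
  refine ⟨p - ε * (p' - p) * g, p' + ε * (p' - p) * g, q + 2 * ε * q * g, r + 2 * ε * r * g,
    _, _, l1, l2, ε * (1 - (p + p') ^ 2) + ε ^ 2 * g * (4 - (p + p') ^ 2) + 4 * ε ^ 3 * g ^ 2,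
    data_of_det (α := α - ε * (p' - p) * l2 - 2 * ε * q * l1)
      (β := β + ε * (p' - p) * l1 - 2 * ε * r * l2) hl1 hl2 ?_ ?_ ?_ ?_ ?_ ?_ ?_⟩
  · have e1 : ε * (1 - (p + p') ^ 2) + ε ^ 2 * g * (4 - (p + p') ^ 2) + 4 * ε ^ 3 * g ^ 2 =
        (-ε * (p + p' + 1)) * (p + p' - 1) +
          (ε ^ 2 * (4 - (p + p') ^ 2) + 4 * ε ^ 3 * g) * g := by ring
    rw [e1]
    exact Ideal.add_mem _ (Ideal.mul_mem_left _ _ hpp) (Ideal.mul_mem_left _ _ hg)
  · have e1 : p - ε * (p' - p) * g + (p' + ε * (p' - p) * g) - 1 = p + p' - 1 := by ring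
    rw [e1]
    exact hpp
  · linear_combination (1 + 4 * ε * g + 4 * ε ^ 2 * g ^ 2) * hdet
  · exact Ideal.sub_mem _ hp (Ideal.mul_mem_left _ _ (hgc l1))
  · exact Ideal.add_mem _ hp' (Ideal.mul_mem_left _ _ (hgc l2))
  · linear_combination h1
  · linear_combination h2

/-- Step B -/
theorem exists_data [IsDomain R] [UniqueFactorizationMonoid R] (P : Ideal R) [hP : P.IsPrime]
    (hnp : ∀ π, P ≠ Ideal.span {π}) (J : Ideal R) (hJ : J.radical = P) (g : R)
    (hgJ : g ∈ J) (hg0 : g ≠ 0) (l1 l2 : R) (hl1 : l1 ∈ J) (hl2 : l2 ∈ J)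
    (h : ∀ m : Ideal R, m.IsMaximal → P ≤ m →
      LocLe m J (Ideal.span {g, l1}) ∨ LocLe m J (Ideal.span {g, l2})) :
    ∃ p p' q r l1 l2 b1 b2 k : R, FSData J g p p' q r l1 l2 b1 b2 k := by
  have hJP : J ≤ P := by rw [← hJ]; exact Ideal.le_radical
  have hmax : ∀ m : Ideal R, m.IsMaximal → J ≤ m → P ≤ m := by
    intro m hm hle
    rw [← hJ, hm.isPrime.radical_le_iff]
    exact hle
  have htop : col (Ideal.span {g, l1}) J ⊔ col (Ideal.span {g, l2}) J ⊔ J = ⊤ := by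
    by_contra hne
    obtain ⟨m, hm, hle⟩ := Ideal.exists_le_maximal _ hne
    rcases h m hm (hmax m hm (le_sup_right.trans hle)) with h1 | h1
    · exact locLe_iff_col.1 h1 (le_sup_left.trans (le_sup_left.trans hle))
    · exact locLe_iff_col.1 h1 (le_sup_right.trans (le_sup_left.trans hle))
  obtain ⟨w, hw, y, hy, hwy⟩ := Submodule.mem_sup.1 ((Ideal.eq_top_iff_one _).1 htop)
  obtain ⟨p, hp, p', hp', hppw⟩ := Submodule.mem_sup.1 hw
  have hpp : p + p' - 1 ∈ J := by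
    have : p + p' - 1 = -y := by rw [hppw, ← hwy]; ring
    rw [this]
    exact neg_mem hy
  obtain ⟨α, q, hq⟩ := Ideal.mem_span_pair.1 (mem_col.1 hp l2 hl2)
  obtain ⟨β, r, hr⟩ := Ideal.mem_span_pair.1 (mem_col.1 hp' l1 hl1)
  obtain ⟨γ, δ, g1, hrel, hγ, hδ⟩ :=
    UniqueFactorizationMonoid.exists_reduced_factors g hg0 (p * p' - q * r)
  have hg10 : g1 ≠ 0 := by
    rintro rfl
    rw [zero_mul] at hγ
    exact hg0 hγ.symm
  have hγ0 : γ ≠ 0 := by
    rintro rfl
    rw [mul_zero] at hγ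
    exact hg0 hγ.symm
  have hdvd : ∀ x, g ∣ (p * p' - q * r) * x → γ ∣ x := by
    intro x hx
    rw [← hγ, ← hδ, mul_assoc, mul_dvd_mul_iff_left hg10] at hx
    exact hrel.dvd_of_dvd_mul_left hx
  have hγl1 : γ ∣ l1 := hdvd l1 ⟨r * α + p * β, by linear_combination (-r) * hq - p * hr⟩
  have hγl2 : γ ∣ l2 := hdvd l2 ⟨p' * α + q * β, by linear_combination (-p') * hq - q * hr⟩
  have hγg : γ ∣ g := ⟨g1, by rw [mul_comm, hγ]⟩
  have hγm : Ideal.span {γ} ⊔ J = ⊤ := by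
    by_contra hne
    obtain ⟨m, hm, hle⟩ := Ideal.exists_le_maximal _ hne
    have hmp := hm.isPrime
    have hγm : γ ∈ m := hle (Ideal.mem_sup_left (Ideal.mem_span_singleton_self _))
    have hJm : J ≤ m := le_sup_right.trans hle
    -- a prime factor of `γ` in `m`
    obtain ⟨π, hπm, hπ, hπγ⟩ : ∃ π ∈ m, Prime π ∧ π ∣ γ := by
      obtain ⟨f, hf, hf'⟩ := UniqueFactorizationMonoid.exists_prime_factors γ hγ0
      obtain ⟨u, hu⟩ := hf'
      have h1 : f.prod ∈ m := by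
        rw [← hu] at hγm
        exact (hmp.mem_or_mem hγm).resolve_right fun hc =>
          hm.ne_top (Ideal.eq_top_of_isUnit_mem _ hc u.isUnit)
      obtain ⟨π, hπf, hπm⟩ := (hmp.multiset_prod_mem_iff_exists_mem f).1 h1
      exact ⟨π, hπm, hf π hπf, (Multiset.dvd_prod hπf).trans ⟨u, hu.symm⟩⟩
    have key : ∀ (s l : R), s ∉ m → γ ∣ l → s ∈ col (Ideal.span {g, l}) J → False := by
      intro s l hs hl hsc
      have hJπ : J ≤ Ideal.span {π} := by
        intro x hx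
        obtain ⟨a, b, hab⟩ := Ideal.mem_span_pair.1 (mem_col.1 hsc x hx)
        have h1 : π ∣ s * x := by
          rw [← hab]
          exact dvd_add (Dvd.dvd.mul_left (hπγ.trans hγg) _) (Dvd.dvd.mul_left (hπγ.trans hl) _)
        rcases hπ.dvd_or_dvd h1 with h2 | h2
        · exact absurd (Ideal.mem_of_dvd _ h2 hπm) hs
        · exact Ideal.mem_span_singleton.2 h2
      have hπp : (Ideal.span {π} : Ideal R).IsPrime := (Ideal.span_singleton_prime hπ.ne_zero).2 hπ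
      have hPπ : P ≤ Ideal.span {π} := by
        rw [← hJ, hπp.radical_le_iff]
        exact hJπ
      have hPbot : P ≠ ⊥ := fun hc => hg0 (by
        have := hJP hgJ
        rwa [hc, Ideal.mem_bot] at this)
      obtain ⟨ϖ, hϖP, hϖ⟩ := Ideal.IsPrime.exists_mem_prime_of_ne_bot hP hPbot
      have h3 : π ∣ ϖ := Ideal.mem_span_singleton.1 (hPπ hϖP)
      have h4 : Associated π ϖ := hπ.associated_of_dvd hϖ h3
      refine hnp π (le_antisymm hPπ ?_)
      rw [Ideal.span_singleton_le_iff_mem]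
      exact Ideal.mem_of_dvd _ h4.symm.dvd hϖP
    by_cases hpm : p ∈ m
    · have hp'm : p' ∉ m := by
        intro hc
        refine hm.ne_top ((Ideal.eq_top_iff_one _).2 ?_)
        have : (1 : R) = p + p' - (p + p' - 1) := by ring
        rw [this]
        exact Ideal.sub_mem _ (Ideal.add_mem _ hpm hc) (hJm hpp)
      exact key p' l2 hp'm hγl2 hp'
    · exact key p l1 hpm hγl1 hp
  obtain ⟨t, ht, y', hy', hty⟩ := Submodule.mem_sup.1 ((Ideal.eq_top_iff_one _).1 hγm)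
  obtain ⟨c, rfl⟩ := Ideal.mem_span_singleton.1 ht
  refine data_of_eps (J := J) (g := g) (p := (γ * c) * p) (p' := (γ * c) * p')
    (q := (γ * c) * q) (r := (γ * c) * r) (l1 := l1) (l2 := l2) (α := (γ * c) * α)
    (β := (γ * c) * β) (ε := (γ * c) * c * δ) hgJ hl1 hl2 ?_ ?_ ?_ ?_ ?_ ?_
  · have : γ * c * p + γ * c * p' - 1 = (γ * c) * (p + p' - 1) - y' := by
      linear_combination hty
    rw [this]
    exact Ideal.sub_mem _ (Ideal.mul_mem_left _ _ hpp) hy'
  · linear_combination (-(γ * c) ^ 2) * hδ + (γ * c * c * δ) * hγ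
  · exact Ideal.mul_mem_left _ _ hp
  · exact Ideal.mul_mem_left _ _ hp'
  · linear_combination (-(γ * c)) * hq
  · linear_combination (-(γ * c)) * hr

end STCI.UN
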