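import Pool.Agent.H41.UN.FSloc
import Pool.Agent.H41.UN.FSpre
import Pool.Agent.H41.UN.Dis

/-!
# Explicit Ferrand-Szpiro theorem

If `P` is a prime with `dim R/P ≤ 1`, `rad J = P` and `J` is locally at every maximal ideal `m ≥ P` generated by two elements one of
which is the fixed element `g ∈ J`, then `P` is the radical of an ideal generated by two elements.
-/

set_option autoImplicit false

namespace STCI.UN

universe u

variable {R : Type u} [CommRing R]

/-- step (2): a prime `q0 ≤ m` containing `F, G` contains `J` -/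
theorem le_of_data [IsNoetherianRing R] {J : Ideal R} {g p p' q r l1 l2 b1 b2 k : R}
    (hg : g ∈ J) (hd : FSData J g p p' q r l1 l2 b1 b2 k) (m : Ideal R) (hm : m.IsMaximal)
    (hJm : J ≤ m) (q0 : Ideal R) (hq0 : q0.IsPrime) (hq0m : q0 ≤ m)
    (hF : (3 * p + p') * (p' ^ 2 * g - q * l2) + g ^ 2 ∈ q0)
    (hG : -(p + 3 * p') * (r ^ 2 * g - p * l1) + (r * g + l2) ^ 2 ∈ q0) : J ≤ q0 := by
  have hmp := hm.isPrime
  set φ := algebraMap R (Localization.AtPrime m) with hφ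
  have hj : J.map φ ≤ Ideal.jacobson ⊥ := map_le_jacobson hJm
  have hJfg : J.FG := IsNoetherian.noetherian J
  have hfg : (J.map φ).FG := hJfg.map φ
  have hmem : ∀ x ∈ J, φ x ∈ J.map φ := fun x hx => Ideal.mem_map_of_mem φ hx
  have hdet : φ p * φ p' - φ q * φ r = φ g * φ k := by
    rw [← map_mul, ← map_mul, ← map_sub, hd.hdet, map_mul]
  have hpp : φ p + φ p' - 1 ∈ J.map φ := by
    have := hmem _ hd.hpp
    rwa [map_sub, map_add, map_one] at this
  have hunit : ∀ s, s ∉ m → ∃ u, u * φ s = 1 := by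
    intro s hs
    have h1 : IsUnit (φ s) :=
      (IsLocalization.AtPrime.isUnit_to_map_iff (Localization.AtPrime m) m s).2 hs
    exact h1.exists_left_inv
  have hgen : ∀ (s l : R), s ∉ m → (∀ x ∈ J, s * x ∈ Ideal.span {g, l} ⊔ J * J) →
      J.map φ ≤ Ideal.span {φ g, φ l} ⊔ J.map φ * J.map φ := by
    intro s l hs hx
    have h1 : LocLe m J (Ideal.span {g, l} ⊔ J * J) := ⟨s, hs, hx⟩
    have h2 := map_le_of_locLe h1
    rwa [Ideal.map_sup, Ideal.map_mul, Ideal.map_span, Set.image_pair] at h2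
  have key : J.map φ * J.map φ ≤ Ideal.span {(3 * φ p + φ p') * (φ p' ^ 2 * φ g - φ q * φ l2) +
      φ g ^ 2, -(φ p + 3 * φ p') * (φ r ^ 2 * φ g - φ p * φ l1) + (φ r * φ g + φ l2) ^ 2} := by
    by_cases hpm : p ∈ m
    · have hp'm : p' ∉ m := by
        intro hc
        refine hm.ne_top ((Ideal.eq_top_iff_one _).2 ?_)
        have : (1 : R) = p + p' - (p + p' - 1) := by ring
        rw [this]
        exact Ideal.sub_mem _ (Ideal.add_mem _ hpm hc) (hJm hd.hpp)
      obtain ⟨u, hu⟩ := hunit p' hp'm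
      refine fs_localB hj hfg (b1 := φ b1) (k := φ k) (u := u) (hmem _ hg) (hmem _ hd.hl2)
        (hmem _ hd.hb1) (hmem _ hd.hk) hu hpp hdet ?_ (hgen p' l2 hp'm hd.hB)
      rw [← map_mul, ← map_mul, ← map_sub, hd.h1, map_mul, map_mul]
    · obtain ⟨u, hu⟩ := hunit p hpm
      refine fs_localA hj hfg (b2 := φ b2) (k := φ k) (u := u) (hmem _ hg) (hmem _ hd.hl1)
        (hmem _ hd.hl2) (hmem _ hd.hb2) (hmem _ hd.hk) hu hpp hdet ?_ (hgen p l1 hpm hd.hA)
      rw [← map_mul, ← map_mul, ← map_sub, hd.h2, map_mul, map_mul]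
  have hspan : Ideal.span {(3 * φ p + φ p') * (φ p' ^ 2 * φ g - φ q * φ l2) +
      φ g ^ 2, -(φ p + 3 * φ p') * (φ r ^ 2 * φ g - φ p * φ l1) + (φ r * φ g + φ l2) ^ 2} ≤
      q0.map φ := by
    rw [span_pair_le_iff]
    constructor
    · have h1 := Ideal.mem_map_of_mem φ hF
      simpa only [map_add, map_mul, map_sub, map_pow, map_ofNat] using h1
    · have h1 := Ideal.mem_map_of_mem φ hG
      simpa only [map_add, map_mul, map_sub, map_pow, map_ofNat, map_neg] using h1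
  intro x hx
  have h1 : φ (x * x) ∈ q0.map φ := by
    rw [map_mul]
    exact hspan (key (Ideal.mul_mem_mul (hmem x hx) (hmem x hx)))
  obtain ⟨s, hs, hs'⟩ := (IsLocalization.algebraMap_mem_map_algebraMap_iff m.primeCompl
    (Localization.AtPrime m) q0 (x * x)).1 h1
  rcases hq0.mem_or_mem hs' with h2 | h2
  · exact absurd (hq0m h2) hs
  · rcases hq0.mem_or_mem h2 with h3 | h3 <;> exact h3

theorem twoEq_of_data [IsDomain R] [IsNoetherianRing R] (hR : QS.{u, u} R) (P : Ideal R)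
    [hP : P.IsPrime] (J : Ideal R) (hJ : J.radical = P) {g p p' q r l1 l2 b1 b2 k : R}
    (hg : g ∈ J) (hd : FSData J g p p' q r l1 l2 b1 b2 k) : TwoEq P := by
  classical
  obtain ⟨F, hF⟩ : ∃ F, F = (3 * p + p') * (p' ^ 2 * g - q * l2) + g ^ 2 := ⟨_, rfl⟩
  obtain ⟨G, hG⟩ : ∃ G, G = -(p + 3 * p') * (r ^ 2 * g - p * l1) + (r * g + l2) ^ 2 := ⟨_, rfl⟩
  have hJP : J ≤ P := by rw [← hJ]; exact Ideal.le_radical
  have hFJ : F ∈ J := by
    rw [hF]
    exact Ideal.add_mem _ (Ideal.mul_mem_left _ _ (Ideal.sub_mem _ (Ideal.mul_mem_left _ _ hg)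
      (Ideal.mul_mem_left _ _ hd.hl2))) (Ideal.pow_mem_of_mem _ hg 2 (by norm_num))
  have hGJ : G ∈ J := by
    rw [hG]
    exact Ideal.add_mem _ (Ideal.mul_mem_left _ _ (Ideal.sub_mem _ (Ideal.mul_mem_left _ _ hg)
      (Ideal.mul_mem_left _ _ hd.hl1))) (Ideal.pow_mem_of_mem _
        (Ideal.add_mem _ (Ideal.mul_mem_left _ _ hg) hd.hl2) 2 (by norm_num))
  have hfin : (Ideal.span {F, G} : Ideal R).minimalPrimes.Finite :=
    Ideal.finite_minimalPrimes_of_isNoetherianRing _ _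
  set T : Finset (Ideal R) := hfin.toFinset.filter fun q0 => ¬ P ≤ q0 with hT
  have htop : P ⊔ T.inf id = ⊤ := by
    by_contra hne
    obtain ⟨m, hm, hle⟩ := Ideal.exists_le_maximal _ hne
    obtain ⟨q0, hq0, hq0m⟩ := (Ideal.IsPrime.inf_le' hm.isPrime).1 (le_sup_right.trans hle)
    rw [hT, Finset.mem_filter, Set.Finite.mem_toFinset] at hq0
    have hFG := span_pair_le_iff.1 hq0.1.1.2
    refine hq0.2 ?_
    rw [← hJ, hq0.1.1.1.radical_le_iff]
    exact le_of_data hg hd m hm (hJP.trans (le_sup_left.trans hle)) q0 hq0.1.1.1 hq0m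
      (hF ▸ hFG.1) (hG ▸ hFG.2)
  obtain ⟨e, he, e', he', hee⟩ := Submodule.mem_sup.1 ((Ideal.eq_top_iff_one _).1 htop)
  have he1 : 1 - e = e' := by rw [← hee]; ring
  have hT' : ∀ q0 ∈ (Ideal.span {F, G} : Ideal R).minimalPrimes, ¬ P ≤ q0 → e' ∈ q0 := by
    intro q0 hq0 hPq
    have h1 : T.inf id ≤ id q0 := by
      refine Finset.inf_le ?_
      rw [hT, Finset.mem_filter, Set.Finite.mem_toFinset]
      exact ⟨hq0, hPq⟩
    exact h1 he'
  have hrad : e * (1 - e) ∈ (Ideal.span {F, G} : Ideal R).radical := by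
    rw [← Ideal.sInf_minimalPrimes, Submodule.mem_sInf]
    intro q0 hq0
    by_cases hPq : P ≤ q0
    · exact Ideal.mul_mem_right _ _ (hPq he)
    · rw [he1]
      exact Ideal.mul_mem_left _ _ (hT' q0 hq0 hPq)
  have h1 := twoEq_of_disjoint hR F G e hrad
  have h2 : ((Ideal.span {F, G} : Ideal R) ⊔ Ideal.span {e}).radical = P := by
    refine radical_eq_of_prime hP.isRadical fun q0 hq0 => ?_
    rw [sup_le_iff, Ideal.span_singleton_le_iff_mem]
    constructor
    · rintro ⟨h3, h4⟩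
      obtain ⟨q1, hq1, hq1q⟩ := Ideal.exists_minimalPrimes_le h3
      by_contra hPq
      have h5 : e' ∈ q0 := hq1q (hT' q1 hq1 fun hc => hPq (hc.trans hq1q))
      refine hq0.ne_top ((Ideal.eq_top_iff_one _).2 ?_)
      rw [← hee]
      exact Ideal.add_mem _ h4 h5
    · intro h3
      exact ⟨span_pair_le_iff.2 ⟨h3 (hJP hFJ), h3 (hJP hGJ)⟩, h3 he⟩
  rwa [h2] at h1

/-- explicit Ferrand-Szpiro theorem -/
theorem twoEq_of_lci [IsDomain R] [IsNoetherianRing R] [UniqueFactorizationMonoid R]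
    (hR : QS.{u, u} R) (P : Ideal R) [P.IsPrime] (hdim : Ring.DimensionLEOne (R ⧸ P))
    (hnp : ∀ π, P ≠ Ideal.span {π}) (J : Ideal R) (hJ : J.radical = P) (g : R) (hgJ : g ∈ J)
    (hg0 : g ≠ 0)
    (h : ∀ m : Ideal R, m.IsMaximal → P ≤ m →
      ∃ f ∈ J, ∃ s ∉ m, ∀ x ∈ J, s * x ∈ Ideal.span {g, f}) : TwoEq P := by
  obtain ⟨l1, hl1, l2, hl2, h12⟩ := exists_two P hdim J g h
  obtain ⟨p, p', q, r, l1', l2', b1, b2, k, hd⟩ :=
    exists_data P hnp J hJ g hgJ hg0 l1 l2 hl1 hl2 h12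
  exact twoEq_of_data hR P J hJ hgJ hd

end STCI.UN
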