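import Pool.Agent.H41.UN.Defs

/-!
# Row Equ: `QS` is invariant under ring isomorphisms; fields satisfy `QS`

* `qs_ringEquiv`: transport of structure. Given an `R`-module `M`, regard it as an `S`-module (`Module.compHom M e.symm.toRingHom`, same group
  `M`), with the form `e ∘ ω` (define it by `LinearMap.mk₂` over `S`); it is `RankTwo` (`plu`: `e.symm (e r) = r`; `full`: image of a spanning
  set under the isomorphism `e`, e.g. `Ideal.map_span`). `h` gives `a, b` with `e (ω a b) = 1`.
* `qs_field`: `full` gives `a, b` with `ω a b ≠ 0` (otherwise the span is `⊥ ≠ ⊤`); take `(ω a b)⁻¹ • a, b`.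
* `qs_of_isUnit`: in general a unit value is enough.
-/

set_option autoImplicit false

namespace STCI.UN

universe u v

theorem qs_ringEquiv {R S : Type u} [CommRing R] [CommRing S] (e : R ≃+* S) (h : QS.{u, v} S) :
    QS.{u, v} R := by
  intro M _ _ ω hω
  let _ : Module S M := Module.compHom M e.symm.toRingHom
  have hsmul : ∀ (s : S) (m : M), s • m = (e.symm s) • m := fun s m => rfl
  let ω' : M →ₗ[S] M →ₗ[S] S := LinearMap.mk₂ S (fun a b => e (ω a b))
    (fun a a' b => by simp only [map_add, LinearMap.add_apply])
    (fun c a b => by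
      simp only [hsmul, map_smul, LinearMap.smul_apply, smul_eq_mul, map_mul, RingEquiv.apply_symm_apply])
    (fun a b b' => by simp only [map_add])
    (fun c a b => by
      simp only [hsmul, map_smul, smul_eq_mul, map_mul, RingEquiv.apply_symm_apply])
  have hω' : ∀ a b, ω' a b = e (ω a b) := fun a b => rfl
  have hr : RankTwo ω' := by
    refine ⟨fun w => ?_, fun a b w => ?_, ?_⟩
    · rw [hω', hω.alt, map_zero]
    · rw [hsmul, hsmul, hsmul, hω', hω', hω', RingEquiv.symm_apply_apply, RingEquiv.symm_apply_apply,
        RingEquiv.symm_apply_apply]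
      exact hω.plu a b w
    · have h1 := congrArg (Ideal.map e.toRingHom) hω.full
      rw [Ideal.map_span, Ideal.map_top, ← Set.range_comp] at h1
      exact h1
  obtain ⟨a, b, hab⟩ := h M ω' hr
  refine ⟨a, b, ?_⟩
  rw [hω'] at hab
  have := congrArg e.symm hab
  rwa [RingEquiv.symm_apply_apply, map_one] at this

theorem qs_field (k : Type u) [Field k] : QS.{u, v} k := by
  intro M _ _ ω hω
  by_contra hcon
  push Not at hcon
  have h0 : ∀ a b, ω a b = 0 := by
    intro a b
    by_contra hab
    refine hcon ((ω a b)⁻¹ • a) b ?_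
    rw [map_smul, LinearMap.smul_apply, smul_eq_mul, inv_mul_cancel₀ hab]
  have h1 := hω.full
  have h2 : (Set.range fun p : M × M => ω p.1 p.2) ⊆ {0} := by
    rintro _ ⟨p, rfl⟩
    simp only [Set.mem_singleton_iff]
    exact h0 _ _
  have h3 : Ideal.span (Set.range fun p : M × M => ω p.1 p.2) ≤ ⊥ := by
    rw [Ideal.span_le]
    intro x hx
    have := h2 hx
    simpa using this
  rw [h1] at h3
  exact absurd (le_antisymm h3 bot_le) (top_ne_bot)

end STCI.UN
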