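import Pool.Agent.H41.UN.Hor
import Pool.Agent.H41.UN.Equ
import Pool.Agent.H41.UN.Nag

/-!
# Row MvP: Quillen-Suslin in rank two for `k[x_1, ..., x_n]`

Induction on `n`. `n = 0`: `MvPolynomial (Fin 0) k ≃ k` (`MvPolynomial.isEmptyAlgEquiv`), a field: `qs_ringEquiv`, `qs_field`.
`n + 1`: `R = MvPolynomial (Fin (n+1)) k`, `full` gives `w, s` with `f = ω w s ≠ 0` (`R` is nontrivial). `nagata`:
`e = (T f).trans (finSuccEquiv k n)`, `e : R ≃ (MvPolynomial (Fin n) k)[X]` with `(e f).leadingCoeff` a unit. View `M` as a module over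
`(MvPolynomial (Fin n) k)[X]` through `e.symm` (as in `qs_ringEquiv`); the form `e ∘ ω` is `RankTwo`; multiply `w` by (the image of `C` of) the
inverse of the unit to make `e (ω w s)` monic; apply `horrocks` with `B = MvPolynomial (Fin n) k`.
(It may be convenient to export from row Equ, or to reprove here, the transport of `ω` and `RankTwo` along `e`.)
-/

set_option autoImplicit false

namespace STCI.UN

open Polynomial MvPolynomial

universe u v

/-- Transport of an alternating module of rank two along a ring isomorphism. -/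
theorem MvP_transport {R S : Type u} [CommRing R] [CommRing S] (e : R ≃+* S)
    {M : Type v} [AddCommGroup M] [Module R M] (ω : M →ₗ[R] M →ₗ[R] R) (h : RankTwo ω)
    (P : ∀ [Module S M] (ω' : M →ₗ[S] M →ₗ[S] S), RankTwo ω' →
      (∀ a b, ω' a b = e (ω a b)) → ∃ a b, ω' a b = 1) : ∃ a b, ω a b = 1 := by
  let _ : Module S M := Module.compHom M e.symm.toRingHom
  have hsm : ∀ (c : S) (m : M), c • m = e.symm c • m := fun _ _ => rfl
  let ω' : M →ₗ[S] M →ₗ[S] S := LinearMap.mk₂ S (fun a b => e (ω a b))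
    (fun a b c => by rw [map_add, LinearMap.add_apply, map_add])
    (fun c a b => by
      rw [hsm, map_smul, LinearMap.smul_apply, smul_eq_mul, map_mul, RingEquiv.apply_symm_apply,
        smul_eq_mul])
    (fun a b c => by rw [map_add, map_add])
    (fun c a b => by
      rw [hsm, map_smul, smul_eq_mul, map_mul, RingEquiv.apply_symm_apply, smul_eq_mul])
  have hω' : ∀ a b, ω' a b = e (ω a b) := fun _ _ => rfl
  have h' : RankTwo ω' := by
    refine ⟨fun w => ?_, fun a b w => ?_, ?_⟩
    · rw [hω', h.alt, map_zero]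
    · rw [hω', hω', hω', hsm, hsm, hsm, RingEquiv.symm_apply_apply, RingEquiv.symm_apply_apply,
        RingEquiv.symm_apply_apply]
      exact h.plu a b w
    · have h1 := congrArg (Ideal.map e) h.full
      rw [Ideal.map_span, Ideal.map_top, ← Set.range_comp] at h1
      exact h1
  obtain ⟨a, b, hab⟩ := P ω' h' hω'
  refine ⟨a, b, e.injective ?_⟩
  rw [← hω', hab, map_one]

theorem MvP_ne {R : Type u} [CommRing R] [Nontrivial R] {M : Type v} [AddCommGroup M] [Module R M]
    (ω : M →ₗ[R] M →ₗ[R] R) (h : RankTwo ω) : ∃ a b, ω a b ≠ 0 := by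
  by_contra hcon
  push Not at hcon
  have h1 := h.full
  have h2 : Ideal.span (Set.range fun p : M × M => ω p.1 p.2) = ⊥ := by
    rw [Ideal.span_eq_bot]
    rintro _ ⟨p, rfl⟩
    exact hcon p.1 p.2
  rw [h2] at h1
  exact bot_ne_top h1

theorem qs_mvPolynomial (k : Type u) [Field k] (n : ℕ) : QS.{u, v} (MvPolynomial (Fin n) k) := by
  induction n with
  | zero =>
    exact qs_ringEquiv (MvPolynomial.isEmptyAlgEquiv k (Fin 0)).toRingEquiv (qs_field k)
  | succ n ih =>
    intro M _ _ ω h
    obtain ⟨w, s, hws⟩ := MvP_ne ω h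
    obtain ⟨T, hT⟩ := nagata (ω w s) hws
    refine MvP_transport (T.trans (finSuccEquiv k n)).toRingEquiv ω h ?_
    intro _ ω' h' hω'
    obtain ⟨c, hc⟩ := hT
    have hval : ω' w s = finSuccEquiv k n (T (ω w s)) := hω' w s
    refine horrocks ih ω' h' (Polynomial.C ((c⁻¹ : (MvPolynomial (Fin n) k)ˣ) :
      MvPolynomial (Fin n) k) • w) s ?_
    rw [map_smul, LinearMap.smul_apply, smul_eq_mul, hval]
    rw [Polynomial.Monic, Polynomial.leadingCoeff_mul, Polynomial.leadingCoeff_C, ← hc]
    exact Units.inv_mul c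

end STCI.UN
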