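import Pool.Agent.H41.UN.Uni
import Pool.Agent.H41.UN.DatG
import Pool.Agent.H41.UN.Dim
import Pool.Agent.H41.UN.MvP

/-!
# The union theorem

`R` a noetherian factorial domain of dimension at most three (in the weak sense `hdim`) with `QS R`.
-/

set_option autoImplicit false

namespace STCI.UN

universe u

theorem twoEq_inf_of {R : Type u} [CommRing R] [IsDomain R] [IsNoetherianRing R]
    [UniqueFactorizationMonoid R] (hR : QS.{u, u} R)
    (hdim : ∀ P : Ideal R, P.IsPrime → (∃ π, P = Ideal.span {π}) ∨ Ring.DimensionLEOne (R ⧸ P))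
    (I J : Ideal R) (hI : TwoEq I) (hJ : TwoEq J) : TwoEq (I ⊓ J) := by
  obtain ⟨f, g, rfl⟩ := hI
  obtain ⟨u, v, rfl⟩ := hJ
  obtain ⟨u', v', π, hrel, rfl, rfl⟩ | ⟨hu, hv⟩ : (∃ u' v' π, IsRelPrime u' v' ∧ π * u' = u ∧
      π * v' = v) ∨ (u = 0 ∧ v = 0) := by
    by_cases hu : u = 0
    · by_cases hv : v = 0
      · exact Or.inr ⟨hu, hv⟩
      · exact Or.inl (UniqueFactorizationMonoid.exists_reduced_factors' u v hv)
    · exact Or.inl (UniqueFactorizationMonoid.exists_reduced_factors u hu v)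
  · have hmin : ∀ P ∈ (Ideal.span {u', v'} : Ideal R).minimalPrimes,
        Ring.DimensionLEOne (R ⧸ P) := by
      intro P hP
      have hPp := hP.1.1
      rcases hdim P hPp with ⟨ϖ, hϖ⟩ | h
      · exfalso
        have hle := span_pair_le_iff.1 hP.1.2
        rw [hϖ, Ideal.mem_span_singleton, Ideal.mem_span_singleton] at hle
        have hun : IsUnit ϖ := hrel hle.1 hle.2
        exact hPp.ne_top (by rw [hϖ, Ideal.span_singleton_eq_top]; exact hun)
      · exact h
    obtain ⟨f', g', d, ρ, D, hspan, hd, h⟩ := exists_data_gen _ hmin f g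
    rw [← hspan] at hd ⊢
    obtain ⟨F, G, hFG⟩ := union_of_data hR f' g' u' v' d ρ D (Ideal.le_radical hd)
      (Ideal.le_radical h)
    have hFGq : ∀ q : Ideal R, q.IsPrime → ((F ∈ q ∧ G ∈ q) ↔
        ((f' ∈ q ∧ g' ∈ q) ∨ (u' ∈ q ∧ v' ∈ q))) := by
      intro q hq
      have h1 : (Ideal.span {F, G} : Ideal R).radical ≤ q ↔
          (Ideal.span {f', g'} : Ideal R).radical ⊓ (Ideal.span {u', v'} : Ideal R).radical ≤ q := by
        rw [hFG]
      rwa [hq.inf_le, hq.radical_le_iff, hq.radical_le_iff, hq.radical_le_iff, span_pair_le_iff,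
        span_pair_le_iff, span_pair_le_iff] at h1
    refine ⟨π * F, π * G, radical_eq_of_prime
      ((Ideal.radical_isRadical _).inf (Ideal.radical_isRadical _)) fun q hq => ?_⟩
    rw [span_pair_le_iff, hq.inf_le, hq.radical_le_iff, hq.radical_le_iff, span_pair_le_iff,
      span_pair_le_iff]
    by_cases hπ : π ∈ q
    · have h1 : ∀ x, π * x ∈ q := fun x => Ideal.mul_mem_right _ _ hπ
      simp only [h1, true_and, or_true]
    · have h1 : ∀ x, π * x ∈ q ↔ x ∈ q := fun x =>
        ⟨fun h => (hq.mem_or_mem h).resolve_left hπ, fun h => Ideal.mul_mem_left _ _ h⟩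
      rw [h1, h1, h1, h1]
      exact hFGq q hq
  · refine ⟨0, 0, ?_⟩
    rw [hu, hv]
    have h1 : (Ideal.span {(0 : R), 0} : Ideal R) = ⊥ := by
      rw [Set.pair_eq_singleton]
      exact Ideal.span_singleton_eq_bot.2 rfl
    have h2 : (⊥ : Ideal R).radical = ⊥ := (Ideal.isPrime_bot).radical
    rw [h1, h2, inf_bot_eq]

theorem twoEq_inf (k : Type u) [Field k] (I J : Ideal (MvPolynomial (Fin 3) k))
    (hI : TwoEq I) (hJ : TwoEq J) : TwoEq (I ⊓ J) :=
  twoEq_inf_of (qs_mvPolynomial k 3) (fun P _ => principal_or_dimLEOne k P) I J hI hJ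

theorem twoEq_iInf (k : Type u) [Field k] (s : Finset (Ideal (MvPolynomial (Fin 3) k)))
    (hs : ∀ P ∈ s, TwoEq P) : TwoEq (s.inf id) := by
  classical
  induction s using Finset.induction_on with
  | empty =>
    rw [Finset.inf_empty]
    exact twoEq_top
  | insert P s hPs ih =>
    rw [Finset.inf_insert, inf_comm]
    exact twoEq_inf k _ P (ih fun Q hQ => hs Q (Finset.mem_insert_of_mem hQ))
      (hs P (Finset.mem_insert_self _ _))

theorem twoEq_radical (k : Type u) [Field k] (I : Ideal (MvPolynomial (Fin 3) k))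
    (h : ∀ P ∈ I.minimalPrimes, TwoEq P) : TwoEq I.radical := by
  have hfin : I.minimalPrimes.Finite := Ideal.finite_minimalPrimes_of_isNoetherianRing _ I
  have h1 := twoEq_iInf k hfin.toFinset fun P hP => by
    rw [Set.Finite.mem_toFinset] at hP
    exact h P hP
  rw [← Ideal.sInf_minimalPrimes]
  have h2 : hfin.toFinset.inf id = sInf I.minimalPrimes := by
    rw [Finset.inf_id_eq_sInf, Set.Finite.coe_toFinset]
  rwa [h2] at h1

end STCI.UN
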