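import Pool.Agent.H41.UN.Defs

/-!
# Row Dat: the separating function

If `g ∈ P`: `f' = g`, `g' = f`, `d = 1`, `ρ = 0`, `D = 0`. If `g ∉ P`: `A = R/P` is a noetherian domain in which nonzero primes are maximal,
`ḡ ≠ 0`, so `A/(ḡ)` is noetherian with all primes maximal, hence Artinian (`isArtinianRing_iff_isNoetherianRing_krullDimLE_zero` or similar;
or the trivial ring). By `IsArtinian.exists_pow_succ_smul_dvd` (applied to the class of `f` and to `1`): `f^D = f^(D+1) w` modulo `(g) + P` for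
some `D, w`. Take `f' = f`, `g' = g`, `d = 1 - f w`.
-/

set_option autoImplicit false

namespace STCI.UN

universe u

theorem Dat_art {A : Type u} [CommRing A] [IsNoetherianRing A] [Ring.DimensionLEOne A] (g : A)
    (hg : g ≠ 0) : IsArtinianRing (A ⧸ Ideal.span {g}) := by
  rw [isArtinianRing_iff_isNoetherianRing_krullDimLE_zero]
  refine ⟨inferInstance, Ring.krullDimLE_zero_iff.2 fun I hI => ?_⟩
  have hsurj : Function.Surjective (Ideal.Quotient.mk (Ideal.span {g})) :=
    Ideal.Quotient.mk_surjective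
  have h1 : (I.comap (Ideal.Quotient.mk (Ideal.span {g}))).IsPrime := Ideal.comap_isPrime _ _
  have h2 : I.comap (Ideal.Quotient.mk (Ideal.span {g})) ≠ ⊥ := by
    intro h
    apply hg
    have h3 : g ∈ I.comap (Ideal.Quotient.mk (Ideal.span {g})) := by
      rw [Ideal.mem_comap, Ideal.Quotient.eq_zero_iff_mem.2 (Ideal.mem_span_singleton_self g)]
      exact I.zero_mem
    rw [h] at h3
    exact (Submodule.mem_bot A).1 h3
  have h4 : (I.comap (Ideal.Quotient.mk (Ideal.span {g}))).IsMaximal :=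
    Ring.DimensionLEOne.maximalOfPrime h2 h1
  have h5 := Ideal.map_eq_top_or_isMaximal_of_surjective _ hsurj h4
  rw [Ideal.map_comap_of_surjective _ hsurj] at h5
  exact h5.resolve_left hI.ne_top

theorem Dat_pow {A : Type u} [CommRing A] [IsNoetherianRing A] [Ring.DimensionLEOne A] (f g : A)
    (hg : g ≠ 0) : ∃ (D : ℕ) (w c : A), f ^ D = f ^ (D + 1) * w + g * c := by
  have := Dat_art g hg
  obtain ⟨D, y, hy⟩ := IsArtinian.exists_pow_succ_smul_dvd
    (Ideal.Quotient.mk (Ideal.span {g}) f) (1 : A ⧸ Ideal.span {g})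
  obtain ⟨w, rfl⟩ := Ideal.Quotient.mk_surjective y
  rw [smul_eq_mul, smul_eq_mul, mul_one, ← map_pow, ← map_pow, ← map_mul] at hy
  have h1 : f ^ D - f ^ (D + 1) * w ∈ Ideal.span {g} := by
    rw [← Ideal.Quotient.eq_zero_iff_mem, map_sub, ← hy]
    exact sub_self _
  obtain ⟨c, hc⟩ := Ideal.mem_span_singleton.1 h1
  exact ⟨D, w, c, by linear_combination hc⟩

theorem exists_data {R : Type u} [CommRing R] [IsNoetherianRing R] (P : Ideal R) [P.IsPrime]
    (hP : Ring.DimensionLEOne (R ⧸ P)) (f g : R) :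
    ∃ (f' g' d ρ : R) (D : ℕ), Ideal.span {f', g'} = Ideal.span {f, g} ∧
      d - 1 ∈ (Ideal.span {f, g} : Ideal R) ∧ d * f' ^ (D + 1) + g' * ρ ∈ P := by
  by_cases hg : g ∈ P
  · refine ⟨g, f, 1, 0, 0, ?_, ?_, ?_⟩
    · rw [Set.pair_comm]
    · rw [sub_self]; exact Ideal.zero_mem _
    · simpa using hg
  · have hg' : Ideal.Quotient.mk P g ≠ 0 := by
      rwa [Ne, Ideal.Quotient.eq_zero_iff_mem]
    obtain ⟨D, w, c, h⟩ := Dat_pow (Ideal.Quotient.mk P f) (Ideal.Quotient.mk P g) hg'
    obtain ⟨w, rfl⟩ := Ideal.Quotient.mk_surjective w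
    obtain ⟨c, rfl⟩ := Ideal.Quotient.mk_surjective c
    refine ⟨f, g, 1 - f * w, -(f * c), D, rfl, ?_, ?_⟩
    · have h1 : 1 - f * w - 1 = (-w) * f := by ring
      rw [h1]
      exact Ideal.mul_mem_left _ _ (Ideal.subset_span (by simp))
    · rw [← Ideal.Quotient.eq_zero_iff_mem]
      simp only [map_add, map_mul, map_sub, map_one, map_pow, map_neg]
      linear_combination (Ideal.Quotient.mk P f) * h

end STCI.UN
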