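import Pool.Agent.H41.STCI.Add

/-!
# Alternating modules of rank two (project MP_204867_UN)

`RankTwo ω`: `M` is an `R`-module with an alternating form `ω` which is perfect of rank two: Plücker's identity and
the values of `ω` generate the unit ideal. (Then `M` is projective of rank two with trivial determinant.)
`QS R`: every such module has a basis `a, b` with `ω a b = 1` (Quillen-Suslin in rank two).
-/

set_option autoImplicit false

namespace STCI.UN

universe u v

/-- alternating module of rank two -/
structure RankTwo {R : Type u} [CommRing R] {M : Type v} [AddCommGroup M] [Module R M]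
    (ω : M →ₗ[R] M →ₗ[R] R) : Prop where
  alt : ∀ w, ω w w = 0
  plu : ∀ a b w, ω a b • w = ω w b • a + ω a w • b
  full : Ideal.span (Set.range fun p : M × M => ω p.1 p.2) = ⊤

/-- Quillen-Suslin property in rank two -/
def QS (R : Type u) [CommRing R] : Prop :=
  ∀ (M : Type v) [AddCommGroup M] [Module R M] (ω : M →ₗ[R] M →ₗ[R] R),
    RankTwo ω → ∃ a b, ω a b = 1

variable {R : Type u} [CommRing R] {M : Type v} [AddCommGroup M] [Module R M]
  {ω : M →ₗ[R] M →ₗ[R] R}

theorem RankTwo.skew (h : RankTwo ω) (a b : M) : ω b a = - ω a b := by
  have h1 := h.alt (a + b)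
  simp only [map_add, LinearMap.add_apply, h.alt] at h1
  linear_combination h1

end STCI.UN
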