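import Pool.Agent.H41.UN.Tau

/-!
# Explicit Ferrand-Szpiro construction: the local computation

`F = (3p+p')(p'^2 g - q l2) + g^2`, `G = -(p+3p')(r^2 g - p l1) + (r g + l2)^2`.
-/

set_option autoImplicit false

namespace STCI.UN

universe u

variable {A : Type u} [CommRing A]

/-- Nakayama for two elements: if `M (x, y)^T = (F, G)^T` modulo `j (x, y)` with `det M` a unit then `x, y ∈ (F, G)` -/
theorem nak_pair {j : Ideal A} (hj : j ≤ Ideal.jacobson ⊥) {x y F G a b c d D' : A}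
    (h1 : F - (a * x + b * y) ∈ j * Ideal.span {x, y})
    (h2 : G - (c * x + d * y) ∈ j * Ideal.span {x, y})
    (hD : (a * d - b * c) * D' = 1) : (Ideal.span {x, y} : Ideal A) ≤ Ideal.span {F, G} := by
  have hFG : (Ideal.span {x, y} : Ideal A).FG := Submodule.fg_span (Set.toFinite _)
  refine Submodule.le_of_le_smul_of_le_jacobson_bot hFG hj ?_
  have hF : F ∈ (Ideal.span {F, G} : Ideal A) := mem_pair_left F G
  have hG : G ∈ (Ideal.span {F, G} : Ideal A) := mem_pair_right F G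
  have hle : j * Ideal.span {x, y} ≤ Ideal.span {F, G} ⊔ j • Ideal.span {x, y} := by
    rw [smul_eq_mul]
    exact le_sup_right
  have k1 : a * x + b * y ∈ (Ideal.span {F, G} : Ideal A) ⊔ j • Ideal.span {x, y} := by
    have : a * x + b * y = F - (F - (a * x + b * y)) := by ring
    rw [this]
    exact Ideal.sub_mem _ (Ideal.mem_sup_left hF) (hle h1)
  have k2 : c * x + d * y ∈ (Ideal.span {F, G} : Ideal A) ⊔ j • Ideal.span {x, y} := by
    have : c * x + d * y = G - (G - (c * x + d * y)) := by ring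
    rw [this]
    exact Ideal.sub_mem _ (Ideal.mem_sup_left hG) (hle h2)
  refine span_pair_le ?_ ?_
  · have e1 : (D' * d) * (a * x + b * y) - (D' * b) * (c * x + d * y) = x := by
      linear_combination x * hD
    have e2 := Ideal.sub_mem _ (Ideal.mul_mem_left _ (D' * d) k1) (Ideal.mul_mem_left _ (D' * b) k2)
    rwa [e1] at e2
  · have e1 : (D' * a) * (c * x + d * y) - (D' * c) * (a * x + b * y) = y := by
      linear_combination y * hD
    have e2 := Ideal.sub_mem _ (Ideal.mul_mem_left _ (D' * a) k2) (Ideal.mul_mem_left _ (D' * c) k1)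
    rwa [e1] at e2

theorem isUnit_of_sub_mem {j : Ideal A} (hj : j ≤ Ideal.jacobson ⊥) {x y : A} (hy : IsUnit y)
    (h : x - y ∈ j) : IsUnit x := by
  obtain ⟨z, hz⟩ := hy.exists_right_inv
  have h1 : x * z - 1 ∈ j := by
    have : x * z - 1 = (x - y) * z := by linear_combination hz
    rw [this]
    exact Ideal.mul_mem_right _ _ h
  have h2 := Ideal.mem_jacobson_bot.1 (hj h1) 1
  have h3 : (x * z - 1) * 1 + 1 = x * z := by ring
  rw [h3] at h2
  exact isUnit_of_mul_isUnit_left h2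

theorem le_pair_of_le_sup {j : Ideal A} (hj : j ≤ Ideal.jacobson ⊥) (hfg : j.FG) {x y : A}
    (h : j ≤ Ideal.span {x, y} ⊔ j * j) : j ≤ Ideal.span {x, y} :=
  Submodule.le_of_le_smul_of_le_jacobson_bot hfg hj h

/-- local computation where `p` is a unit -/
theorem fs_localA {j : Ideal A} (hj : j ≤ Ideal.jacobson ⊥) (hfg : j.FG)
    {p p' q r g l1 l2 b2 k u : A} (hg : g ∈ j) (hl1 : l1 ∈ j) (hl2 : l2 ∈ j)
    (hb2 : b2 ∈ j) (hk : k ∈ j) (hu : u * p = 1) (hpp : p + p' - 1 ∈ j)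
    (hdet : p * p' - q * r = g * k) (h2 : p * l2 - q * l1 = g * k * b2)
    (hgen : j ≤ Ideal.span {g, l1} ⊔ j * j) :
    j * j ≤ Ideal.span {(3 * p + p') * (p' ^ 2 * g - q * l2) + g ^ 2,
      -(p + 3 * p') * (r ^ 2 * g - p * l1) + (r * g + l2) ^ 2} := by
  have hgen' := le_pair_of_le_sup hj hfg hgen
  obtain ⟨x, hx⟩ : ∃ x, x = l1 - u * r ^ 2 * g := ⟨_, rfl⟩
  have hxj : x ∈ j := by
    rw [hx]
    exact Ideal.sub_mem _ hl1 (Ideal.mul_mem_left _ _ hg)
  have hxm : x ∈ (Ideal.span {x, g ^ 2} : Ideal A) := mem_pair_left _ _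
  have hgm : g ^ 2 ∈ (Ideal.span {x, g ^ 2} : Ideal A) := mem_pair_right _ _
  -- `j² ≤ (x, g²)`
  have hjx : j ≤ Ideal.span {x, g} := by
    refine hgen'.trans (span_pair_le (mem_pair_right _ _) ?_)
    have : l1 = x + u * r ^ 2 * g := by rw [hx]; ring
    rw [this]
    exact Ideal.add_mem _ (mem_pair_left _ _) (Ideal.mul_mem_left _ _ (mem_pair_right _ _))
  have hjj : j * j ≤ Ideal.span {x, g ^ 2} := by
    rw [Ideal.mul_le]
    intro a ha b hb
    obtain ⟨a1, a2, rfl⟩ := Ideal.mem_span_pair.1 (hjx ha)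
    obtain ⟨b1, b2, rfl⟩ := Ideal.mem_span_pair.1 (hjx hb)
    have : (a1 * x + a2 * g) * (b1 * x + b2 * g) =
        (a1 * (b1 * x + b2 * g) + a2 * g * b1) * x + (a2 * b2) * g ^ 2 := by ring
    rw [this]
    exact Ideal.add_mem _ (Ideal.mul_mem_left _ _ hxm) (Ideal.mul_mem_left _ _ hgm)
  refine hjj.trans ?_
  have hgk : g * k ∈ j * j := Ideal.mul_mem_mul hg hk
  -- `l2 = q u l1 + u g k b2`
  have hl2' : l2 = q * u * l1 + u * (g * k * b2) := by
    linear_combination u * h2 - l2 * hu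
  have hp' : p' = q * r * u + u * (g * k) := by
    linear_combination u * hdet - p' * hu
  obtain ⟨D, hD⟩ : ∃ D, D = (-(3 * p + p') * q ^ 2 * u) * (r ^ 2 * u ^ 2 * (p + p') ^ 2) -
      1 * ((p + 3 * p') * p) := ⟨_, rfl⟩
  have hDu : D - (-u) ∈ j := by
    rw [← Ideal.Quotient.eq_zero_iff_mem]
    have e1 : Ideal.Quotient.mk j p + Ideal.Quotient.mk j p' = 1 := by
      rw [← map_add, ← sub_eq_zero, ← map_one (Ideal.Quotient.mk j), ← map_sub]
      exact Ideal.Quotient.eq_zero_iff_mem.2 hpp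
    have e2 : Ideal.Quotient.mk j q * Ideal.Quotient.mk j r =
        Ideal.Quotient.mk j p * Ideal.Quotient.mk j p' := by
      have e3 : Ideal.Quotient.mk j (g * k) = 0 :=
        Ideal.Quotient.eq_zero_iff_mem.2 (Ideal.mul_mem_right _ _ hg)
      rw [← hdet, map_sub, map_mul, map_mul] at e3
      exact (sub_eq_zero.1 e3).symm
    have e4 : Ideal.Quotient.mk j u * Ideal.Quotient.mk j p = 1 := by
      rw [← map_mul, hu, map_one]
    rw [hD]
    simp only [map_sub, map_mul, map_neg, map_add, map_pow, map_one, map_ofNat]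
    generalize Ideal.Quotient.mk j p = P at *
    generalize Ideal.Quotient.mk j p' = P' at *
    generalize Ideal.Quotient.mk j q = Q at *
    generalize Ideal.Quotient.mk j r = T at *
    generalize Ideal.Quotient.mk j u = U at *
    have e5 : P' = 1 - P := by linear_combination e1
    subst e5
    have e6 : (-(3 * P + (1 - P)) * Q ^ 2 * U) * (T ^ 2 * U ^ 2 * (P + (1 - P)) ^ 2) =
        -(3 * P + (1 - P)) * U ^ 3 * (Q * T) ^ 2 := by ring
    rw [e6, e2]
    have e7 : U ^ 3 * (P * (1 - P)) ^ 2 = U * (1 - P) ^ 2 := by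
      have : U ^ 3 * (P * (1 - P)) ^ 2 = (U * P) ^ 2 * (U * (1 - P) ^ 2) := by ring
      rw [this, e4]
      ring
    have e8 : -(3 * P + (1 - P)) * U ^ 3 * (P * (1 - P)) ^ 2 =
        -(3 * P + (1 - P)) * (U ^ 3 * (P * (1 - P)) ^ 2) := by ring
    rw [e8, e7]
    linear_combination ((P + 3 * (1 - P)) * P) * e4
  have hDunit : IsUnit D := isUnit_of_sub_mem hj (y := -u)
    (IsUnit.neg (IsUnit.of_mul_eq_one p hu)) hDu
  obtain ⟨D', hD'⟩ := hDunit.exists_right_inv
  refine nak_pair hj (a := -(3 * p + p') * q ^ 2 * u) (b := 1) (c := (p + 3 * p') * p)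
    (d := r ^ 2 * u ^ 2 * (p + p') ^ 2) (D' := D') ?_ ?_ (by rw [← hD, hD'])
  · have : (3 * p + p') * (p' ^ 2 * g - q * l2) + g ^ 2 -
        ((-(3 * p + p') * q ^ 2 * u) * x + 1 * g ^ 2) =
        ((3 * p + p') * (u * (p' + q * r * u)) * k) * g ^ 2 - b2 * ((3 * p + p') * q * u) * (g * k) := by
      rw [hx, hl2']
      linear_combination ((3 * p + p') * (p' + q * r * u) * g) * hp'
    rw [this]
    refine Ideal.sub_mem _ (Ideal.mul_mem_mul ?_ hgm) ?_
    · exact Ideal.mul_mem_left _ _ hk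
    · exact Ideal.mul_mem_mul (Ideal.mul_mem_right _ _ hb2) (hjj hgk)
  · have hw : r * g + l2 + r * u * (p + p') * g ∈ j :=
      Ideal.add_mem _ (Ideal.add_mem _ (Ideal.mul_mem_left _ _ hg) hl2)
        (Ideal.mul_mem_left _ _ hg)
    have : -(p + 3 * p') * (r ^ 2 * g - p * l1) + (r * g + l2) ^ 2 -
        ((p + 3 * p') * p * x + r ^ 2 * u ^ 2 * (p + p') ^ 2 * g ^ 2) =
        (r * g + l2 + r * u * (p + p') * g) *
          (q * u * x - r * u ^ 2 * k * g ^ 2 + (u * b2) * (g * k)) := by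
      have e1 : r * g + l2 - r * u * (p + p') * g =
          q * u * x - r * u ^ 2 * k * g ^ 2 + (u * b2) * (g * k) := by
        rw [hx]
        linear_combination hl2' - r * g * hu - (r * u * g) * hp'
      rw [← e1, hx]
      linear_combination ((p + 3 * p') * r ^ 2 * g) * hu
    rw [this]
    refine Ideal.mul_mem_mul hw ?_
    refine Ideal.add_mem _ (Ideal.sub_mem _ (Ideal.mul_mem_left _ _ hxm)
      (Ideal.mul_mem_left _ _ hgm)) (Ideal.mul_mem_left _ _ (hjj hgk))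

/-- local computation where `p'` is a unit -/
theorem fs_localB {j : Ideal A} (hj : j ≤ Ideal.jacobson ⊥) (hfg : j.FG)
    {p p' q r g l1 l2 b1 k u : A} (hg : g ∈ j) (hl2 : l2 ∈ j)
    (hb1 : b1 ∈ j) (hk : k ∈ j) (hu : u * p' = 1) (hpp : p + p' - 1 ∈ j)
    (hdet : p * p' - q * r = g * k) (h1 : p' * l1 - r * l2 = g * k * b1)
    (hgen : j ≤ Ideal.span {g, l2} ⊔ j * j) :
    j * j ≤ Ideal.span {(3 * p + p') * (p' ^ 2 * g - q * l2) + g ^ 2,
      -(p + 3 * p') * (r ^ 2 * g - p * l1) + (r * g + l2) ^ 2} := by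
  have hgen' := le_pair_of_le_sup hj hfg hgen
  obtain ⟨x, hx⟩ : ∃ x, x = g - q * u ^ 2 * l2 := ⟨_, rfl⟩
  have hxj : x ∈ j := by
    rw [hx]
    exact Ideal.sub_mem _ hg (Ideal.mul_mem_left _ _ hl2)
  have hxm : x ∈ (Ideal.span {x, l2 ^ 2} : Ideal A) := mem_pair_left _ _
  have hgm : l2 ^ 2 ∈ (Ideal.span {x, l2 ^ 2} : Ideal A) := mem_pair_right _ _
  -- `j² ≤ (x, l2²)`
  have hjx : j ≤ Ideal.span {x, l2} := by
    refine hgen'.trans (span_pair_le ?_ (mem_pair_right _ _))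
    have : g = x + q * u ^ 2 * l2 := by rw [hx]; ring
    rw [this]
    exact Ideal.add_mem _ (mem_pair_left _ _) (Ideal.mul_mem_left _ _ (mem_pair_right _ _))
  have hjj : j * j ≤ Ideal.span {x, l2 ^ 2} := by
    rw [Ideal.mul_le]
    intro a ha b hb
    obtain ⟨a1, a2, rfl⟩ := Ideal.mem_span_pair.1 (hjx ha)
    obtain ⟨b1, b2, rfl⟩ := Ideal.mem_span_pair.1 (hjx hb)
    have : (a1 * x + a2 * l2) * (b1 * x + b2 * l2) =
        (a1 * (b1 * x + b2 * l2) + a2 * l2 * b1) * x + (a2 * b2) * l2 ^ 2 := by ring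
    rw [this]
    exact Ideal.add_mem _ (Ideal.mul_mem_left _ _ hxm) (Ideal.mul_mem_left _ _ hgm)
  refine hjj.trans ?_
  have hgk : g * k ∈ j * j := Ideal.mul_mem_mul hg hk
  have hl1' : l1 = u * (r * l2 + g * k * b1) := by
    linear_combination u * h1 - l1 * hu
  obtain ⟨D, hD⟩ : ∃ D, D = ((3 * p + p') * p' ^ 2) * ((p + p') ^ 2 * u ^ 2) -
      (q ^ 2 * u ^ 4) * (-(p + 3 * p') * r ^ 2) := ⟨_, rfl⟩
  have hDu : D - u ^ 2 ∈ j := by
    rw [← Ideal.Quotient.eq_zero_iff_mem]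
    have e1 : Ideal.Quotient.mk j p + Ideal.Quotient.mk j p' = 1 := by
      rw [← map_add, ← sub_eq_zero, ← map_one (Ideal.Quotient.mk j), ← map_sub]
      exact Ideal.Quotient.eq_zero_iff_mem.2 hpp
    have e2 : Ideal.Quotient.mk j q * Ideal.Quotient.mk j r =
        Ideal.Quotient.mk j p * Ideal.Quotient.mk j p' := by
      have e3 : Ideal.Quotient.mk j (g * k) = 0 :=
        Ideal.Quotient.eq_zero_iff_mem.2 (Ideal.mul_mem_right _ _ hg)
      rw [← hdet, map_sub, map_mul, map_mul] at e3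
      exact (sub_eq_zero.1 e3).symm
    have e4 : Ideal.Quotient.mk j u * Ideal.Quotient.mk j p' = 1 := by
      rw [← map_mul, hu, map_one]
    rw [hD]
    simp only [map_sub, map_mul, map_neg, map_add, map_pow, map_ofNat]
    generalize Ideal.Quotient.mk j p = P at *
    generalize Ideal.Quotient.mk j p' = P' at *
    generalize Ideal.Quotient.mk j q = Q at *
    generalize Ideal.Quotient.mk j r = T at *
    generalize Ideal.Quotient.mk j u = U at *
    have e5 : P = 1 - P' := by linear_combination e1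
    subst e5
    have e6 : (Q ^ 2 * U ^ 4) * (-((1 - P') + 3 * P') * T ^ 2) =
        -((1 - P') + 3 * P') * (U ^ 4 * (Q * T) ^ 2) := by ring
    rw [e6, e2]
    have e7 : U ^ 4 * ((1 - P') * P') ^ 2 = U ^ 2 * (1 - P') ^ 2 := by
      have : U ^ 4 * ((1 - P') * P') ^ 2 = (U * P') ^ 2 * (U ^ 2 * (1 - P') ^ 2) := by ring
      rw [this, e4]
      ring
    rw [e7]
    ring
  have hDunit : IsUnit D := isUnit_of_sub_mem hj (y := u ^ 2)
    (IsUnit.pow 2 (IsUnit.of_mul_eq_one p' hu)) hDu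
  obtain ⟨D', hD'⟩ := hDunit.exists_right_inv
  refine nak_pair hj (a := (3 * p + p') * p' ^ 2) (b := q ^ 2 * u ^ 4)
    (c := -(p + 3 * p') * r ^ 2)
    (d := (p + p') ^ 2 * u ^ 2) (D' := D') ?_ ?_ (by rw [← hD, hD'])
  · have : (3 * p + p') * (p' ^ 2 * g - q * l2) + g ^ 2 -
        (((3 * p + p') * p' ^ 2) * x + q ^ 2 * u ^ 4 * l2 ^ 2) =
        (x + 2 * (q * u ^ 2) * l2) * x := by
      rw [hx]
      linear_combination ((3 * p + p') * q * l2 * (u * p' + 1)) * hu
    rw [this]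
    exact Ideal.mul_mem_mul (Ideal.add_mem _ hxj (Ideal.mul_mem_left _ _ hl2)) hxm
  · have hw : r * g + l2 + (p + p') * u * l2 ∈ j :=
      Ideal.add_mem _ (Ideal.add_mem _ (Ideal.mul_mem_left _ _ hg) hl2)
        (Ideal.mul_mem_left _ _ hl2)
    have e1 : r ^ 2 * g - p * l1 - r ^ 2 * x =
        -(r * u ^ 2 * l2 * (g * k)) - p * u * b1 * (g * k) := by
      rw [hx, hl1']
      linear_combination (-(r * u ^ 2 * l2)) * hdet + (p * u * r * l2) * hu
    have e2 : r * g + l2 - (p + p') * u * l2 = r * x - u ^ 2 * l2 * (g * k) := by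
      rw [hx]
      linear_combination (-(u ^ 2 * l2)) * hdet + (p * u * l2 - l2) * hu
    have : -(p + 3 * p') * (r ^ 2 * g - p * l1) + (r * g + l2) ^ 2 -
        (-(p + 3 * p') * r ^ 2 * x + (p + p') ^ 2 * u ^ 2 * l2 ^ 2) =
        ((p + 3 * p') * (r * u ^ 2 * l2 + p * u * b1)) * (g * k) +
        (r * g + l2 + (p + p') * u * l2) * (r * x - u ^ 2 * l2 * (g * k)) := by
      rw [← e2]
      linear_combination (-(p + 3 * p')) * e1
    rw [this]
    refine Ideal.add_mem _ (Ideal.mul_mem_mul ?_ (hjj hgk)) (Ideal.mul_mem_mul hw ?_)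
    · exact Ideal.mul_mem_left _ _ (Ideal.add_mem _ (Ideal.mul_mem_left _ _ hl2)
        (Ideal.mul_mem_left _ _ hb1))
    · exact Ideal.sub_mem _ (Ideal.mul_mem_left _ _ hxm) (Ideal.mul_mem_left _ _ (hjj hgk))

end STCI.UN
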