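import Pool.Agent.H41.UN.Defs

/-!
# Row FinM: finitely many maximal ideals of `B[X]` over `n` containing a monic polynomial

`B[X]/(h)` is a finite `B`-module (`h` monic), so `B[X]/((h) + n B[X])` is a finite-dimensional algebra over the
field `B/n` (or: a finite module over the Artinian ring `B ⧸ n`), hence an Artinian ring with finitely many maximal ideals; the
maximal ideals of `B[X]` containing `h` and `n` correspond to them (`Ideal.comap` of the quotient map, injective).
Alternative: map such `q` to `(B/n)[X]`: `q ↦ q.map (mapRingHom (Ideal.Quotient.mk n))` is injective on ideals containing `n.map C`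
(`Ideal.polynomialQuotientEquivQuotientPolynomial`); in the PID `(B/n)[X]` the maximal ideals containing the nonzero (monic) `h̄` are
finitely many (`UniqueFactorizationMonoid`/`Ideal.finite_factors`, `Ideal.finite_...`).
-/

set_option autoImplicit false

namespace STCI.UN

open Polynomial

universe u v

theorem finite_maximal {B : Type u} [CommRing B] (n : Ideal B) [n.IsMaximal] (h : B[X])
    (hm : h.Monic) :
    {q : Ideal B[X] | q.IsMaximal ∧ h ∈ q ∧ n.map C ≤ q}.Finite := by
  letI : Field (B ⧸ n) := Ideal.Quotient.field n
  let f : B[X] →+* (B ⧸ n)[X] := mapRingHom (Ideal.Quotient.mk n)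
  have hf : Function.Surjective f := Polynomial.map_surjective _ Ideal.Quotient.mk_surjective
  have hker : RingHom.ker f = n.map C := by
    rw [Polynomial.ker_mapRingHom, Ideal.mk_ker]
  have hmon : (f h).Monic := hm.map _
  have hfin : ((Ideal.span {f h}).minimalPrimes).Finite :=
    Ideal.finite_minimalPrimes_of_isNoetherianRing _ _
  refine (hfin.image (fun I => I.comap f)).subset ?_
  rintro q ⟨hq, hhq, hnq⟩
  have hcm : (q.map f).comap f = q := by
    rw [Ideal.comap_map_of_surjective f hf]
    rw [sup_eq_left]
    change RingHom.ker f ≤ q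
    rw [hker]
    exact hnq
  refine ⟨q.map f, ?_, hcm⟩
  have hmax : (q.map f).IsMaximal := by
    rcases Ideal.map_eq_top_or_isMaximal_of_surjective f hf hq with h1 | h1
    · exfalso
      rw [h1, Ideal.comap_top] at hcm
      exact hq.ne_top hcm.symm
    · exact h1
  have hmem : f h ∈ q.map f := Ideal.mem_map_of_mem f hhq
  refine ⟨⟨hmax.isPrime, ?_⟩, ?_⟩
  · rw [Ideal.span_singleton_le_iff_mem]
    exact hmem
  · rintro p ⟨hp, hhp⟩ hpq
    rw [Ideal.span_singleton_le_iff_mem] at hhp
    have hp0 : p ≠ ⊥ := by
      rintro rfl
      rw [Ideal.mem_bot] at hhp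
      exact hmon.ne_zero hhp
    have hpm : p.IsMaximal := IsPrime.to_maximal_ideal hp0
    exact (hpm.eq_of_le hmax.ne_top hpq).ge

end STCI.UN
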