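import Pool.Agent.H41.UN.Defs

/-!
# Row HorA: reduction modulo `X`

`M' = M ⧸ (X M)` (`(Ideal.span {X} : Ideal B[X]) • (⊤ : Submodule B[X] M)`), viewed as a `B`-module through `C : B → B[X]`
(`Module.compHom`), with the form `ω' : M' → M' → B`, `ω' [a] [b] = (ω a b).coeff 0` (well defined: the
constant coefficient is a ring homomorphism `B[X] → B` with kernel `(X)`; e.g. `Submodule.liftQ`, or `LinearMap.mk₂` with
`Quotient.out`/`Function.surjInv` and the fact that `(ω a b).coeff 0` only depends on the classes). It is `RankTwo` (`alt` clear;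
`plu`: apply the quotient map to Plücker and use `[r • w] = C (r.coeff 0) • [w]` in `M'`, as `r - C (r.coeff 0) ∈ (X)`;
`full`: apply the ring homomorphism `coeff 0` to `h.full`). `hB` gives `[w1], [w2]` with `ω' [w1] [w2] = 1`.
-/

set_option autoImplicit false

namespace STCI.UN

open Polynomial

universe u v

section horaAux

variable {B : Type u} [CommRing B] {M : Type v} [AddCommGroup M] [Module B[X] M]

theorem horA_left (ω : M →ₗ[B[X]] M →ₗ[B[X]] B[X]) (b : M) {n : M}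
    (hn : n ∈ (Ideal.span {X} : Ideal B[X]) • (⊤ : Submodule B[X] M)) : (ω n b).coeff 0 = 0 := by
  refine Submodule.smul_induction_on hn ?_ ?_
  · intro r hr m _
    have hr0 : r.coeff 0 = 0 := X_dvd_iff.mp (Ideal.mem_span_singleton.mp hr)
    rw [map_smul, LinearMap.smul_apply, smul_eq_mul, mul_coeff_zero, hr0, zero_mul]
  · intro x y hx hy
    rw [map_add, LinearMap.add_apply, coeff_add, hx, hy, add_zero]

theorem horA_right (ω : M →ₗ[B[X]] M →ₗ[B[X]] B[X]) (a : M) {n : M}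
    (hn : n ∈ (Ideal.span {X} : Ideal B[X]) • (⊤ : Submodule B[X] M)) : (ω a n).coeff 0 = 0 := by
  refine Submodule.smul_induction_on hn ?_ ?_
  · intro r hr m _
    have hr0 : r.coeff 0 = 0 := X_dvd_iff.mp (Ideal.mem_span_singleton.mp hr)
    rw [map_smul, smul_eq_mul, mul_coeff_zero, hr0, zero_mul]
  · intro x y hx hy
    rw [map_add, coeff_add, hx, hy, add_zero]

theorem horA_congr (ω : M →ₗ[B[X]] M →ₗ[B[X]] B[X]) {a a' b b' : M}
    (ha : a - a' ∈ (Ideal.span {X} : Ideal B[X]) • (⊤ : Submodule B[X] M))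
    (hb : b - b' ∈ (Ideal.span {X} : Ideal B[X]) • (⊤ : Submodule B[X] M)) :
    (ω a b).coeff 0 = (ω a' b').coeff 0 := by
  have h1 := horA_left ω b ha
  have h2 := horA_right ω a' hb
  rw [map_sub, LinearMap.sub_apply, coeff_sub] at h1
  rw [map_sub, coeff_sub] at h2
  rw [sub_eq_zero.mp h1, sub_eq_zero.mp h2]

theorem horA_smul (r : B[X]) (w : M) :
    r • w - C (r.coeff 0) • w ∈ (Ideal.span {X} : Ideal B[X]) • (⊤ : Submodule B[X] M) := by
  rw [← sub_smul]
  refine Submodule.smul_mem_smul ?_ Submodule.mem_top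
  rw [Ideal.mem_span_singleton, X_dvd_iff, coeff_sub, coeff_C_zero, sub_self]

end horaAux

theorem exists_coeff_zero {B : Type u} [CommRing B] (hB : QS.{u, v} B)
    {M : Type v} [AddCommGroup M] [Module B[X] M] (ω : M →ₗ[B[X]] M →ₗ[B[X]] B[X])
    (h : RankTwo ω) : ∃ w1 w2 : M, (ω w1 w2).coeff 0 = 1 := by
  classical
  set N : Submodule B[X] M := (Ideal.span {X} : Ideal B[X]) • (⊤ : Submodule B[X] M) with hN
  letI : Module B (M ⧸ N) := Module.compHom (M ⧸ N) (C : B →+* B[X])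
  have hsm : ∀ (c : B) (x : M ⧸ N), c • x = (C c : B[X]) • x := fun _ _ => rfl
  have hout : ∀ x : M ⧸ N, N.mkQ (Function.surjInv N.mkQ_surjective x) = x :=
    fun x => Function.surjInv_eq _ x
  have hcg : ∀ a b a' b' : M, N.mkQ a = N.mkQ a' → N.mkQ b = N.mkQ b' →
      (ω a b).coeff 0 = (ω a' b').coeff 0 := by
    intro a b a' b' ha hb
    refine horA_congr ω ?_ ?_
    · exact (Submodule.Quotient.eq N).mp ha
    · exact (Submodule.Quotient.eq N).mp hb
  let s : M ⧸ N → M := Function.surjInv N.mkQ_surjective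
  have hs : ∀ x, N.mkQ (s x) = x := hout
  let f : (M ⧸ N) → (M ⧸ N) → B := fun a b => (ω (s a) (s b)).coeff 0
  have hf : ∀ a b : M, f (N.mkQ a) (N.mkQ b) = (ω a b).coeff 0 := fun a b =>
    hcg _ _ _ _ (hs _) (hs _)
  have hCs : ∀ (c : B) (a : M), c • (N.mkQ a) = N.mkQ ((C c : B[X]) • a) := fun c a => by
    rw [hsm, map_smul]
  let ω' : (M ⧸ N) →ₗ[B] (M ⧸ N) →ₗ[B] B := LinearMap.mk₂ B f
    (by
      intro a a' b
      obtain ⟨a, rfl⟩ := N.mkQ_surjective a
      obtain ⟨a', rfl⟩ := N.mkQ_surjective a'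
      obtain ⟨b, rfl⟩ := N.mkQ_surjective b
      rw [← map_add, hf, hf, hf, map_add, LinearMap.add_apply, coeff_add])
    (by
      intro c a b
      obtain ⟨a, rfl⟩ := N.mkQ_surjective a
      obtain ⟨b, rfl⟩ := N.mkQ_surjective b
      rw [hCs, hf, hf, map_smul, LinearMap.smul_apply, smul_eq_mul, mul_coeff_zero, coeff_C_zero,
        smul_eq_mul])
    (by
      intro a b b'
      obtain ⟨a, rfl⟩ := N.mkQ_surjective a
      obtain ⟨b, rfl⟩ := N.mkQ_surjective b
      obtain ⟨b', rfl⟩ := N.mkQ_surjective b'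
      rw [← map_add, hf, hf, hf, map_add, coeff_add])
    (by
      intro c a b
      obtain ⟨a, rfl⟩ := N.mkQ_surjective a
      obtain ⟨b, rfl⟩ := N.mkQ_surjective b
      rw [hCs, hf, hf, map_smul, smul_eq_mul, mul_coeff_zero, coeff_C_zero, smul_eq_mul])
  have hω : ∀ a b : M, ω' (N.mkQ a) (N.mkQ b) = (ω a b).coeff 0 := fun a b => hf a b
  have hR : RankTwo ω' := by
    refine ⟨?_, ?_, ?_⟩
    · intro w
      obtain ⟨w, rfl⟩ := N.mkQ_surjective w
      rw [hω, h.alt, coeff_zero]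
    · intro a b w
      obtain ⟨a, rfl⟩ := N.mkQ_surjective a
      obtain ⟨b, rfl⟩ := N.mkQ_surjective b
      obtain ⟨w, rfl⟩ := N.mkQ_surjective w
      rw [hω, hω, hω, hCs, hCs, hCs]
      have key : ∀ (r : B[X]) (x : M), N.mkQ ((C (r.coeff 0) : B[X]) • x) = N.mkQ (r • x) := by
        intro r x
        exact ((Submodule.Quotient.eq N).mpr (horA_smul r x)).symm
      rw [key, key, key, ← map_add, h.plu a b w]
    · rw [eq_top_iff]
      have h1 : Ideal.map (constantCoeff : B[X] →+* B)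
          (Ideal.span (Set.range fun p : M × M => ω p.1 p.2)) = ⊤ := by
        rw [h.full, Ideal.map_top]
      rw [← h1, Ideal.map_span, Ideal.span_le]
      rintro _ ⟨_, ⟨p, rfl⟩, rfl⟩
      refine Ideal.subset_span ⟨(N.mkQ p.1, N.mkQ p.2), ?_⟩
      show ω' (N.mkQ p.1) (N.mkQ p.2) = _
      rw [hω]
      rfl
  obtain ⟨a, b, hab⟩ := hB (M ⧸ N) ω' hR
  obtain ⟨a, rfl⟩ := N.mkQ_surjective a
  obtain ⟨b, rfl⟩ := N.mkQ_surjective b
  exact ⟨a, b, by rw [← hω, hab]⟩

end STCI.UN
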