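import Pool.Agent.H41.UN.Sca

/-!
# Row Pat: patching two bases (Quillen)

Trivial cases: `c = 0`: `m = 1`, `z1 = z2 = 0`. `s = 0`: then `c = β t`, `m = 1`, `z1 = y1`, `z2 = β y2`. `t = 0` same.
General case. Coefficients at `0` are values at `z = 0` (a ring homomorphism `B[z] → B`); below `(r)(0) ∈ B`.
* `V_j = C (ω w_j x2)(0) • x1 + C (ω x1 w_j)(0) • x2` (`j = 1, 2`). By Plücker
  `s w_j = (ω w_j x2) x1 + (ω x1 w_j) x2`; `ω V_1 V_2 = [(ω w1 x2)(ω x1 w2) - (ω x1 w1)(ω w2 x2)](0) s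
   = (ω x1 x2 · ω w1 w2)(0) s = s^2` (apply `ω · w2`, resp. Plücker; `(ω w1 w2)(0) = 1`).
  Similarly `V'_j` from `y1, y2`, `ω V'_1 V'_2 = t^2`.
* `Θ = ![![ω V1 V'2, ω V2 V'2], ![ω V'1 V1, ω V'1 V2]]`: `t^2 V_j = Θ_1j V'_1 + Θ_2j V'_2` (Plücker),
  `det Θ = ω V1 V2 · ω V'1 V'2 = s^2 t^2` (apply `ω V2` to the Plücker relation), and `Θ(0) = s t · 1`: modulo `z`,
  `V_j ≡ s w_j`, `V'_j ≡ t w_j` in the sense that `(ω V_j m)(0) = s (ω w_j m)(0)` for all `m`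
  (from `s w_j = ...` and the definition of `V_j`), so `(ω V1 V'2)(0) = s t (ω w1 w2)(0) = s t`, `(ω V2 V'2)(0) = s t ω(w2,w2) = 0` etc.
* `c = a s + b t` gives `c^3 = α s^2 + β t^2` and `c^4 = α' s^3 + β' t^2` with explicit `α, β, α', β'`.
  Apply `scaling` with `N = 2` and `c^3` in place of `c`: `L, Θb, Θ', Ψ`; put `E = (c^3)^L`.
* `X_j = Θ'_1j V'_1 + Θ'_2j V'_2`, `Y_j = ∑_i (E s^2 δ_ij + (adj Θ · Ψ)_ij) V_i` (`adj` adjugate). Then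
  `t^2 Y_j = ∑_l [Θ (E s^2 + adj Θ Ψ)]_lj V'_l = ∑_l [E s^2 Θ + s^2 t^2 Ψ]_lj V'_l = s^2 ∑_l (Θb)_lj V'_l = s^3 X_j`,
  `s^2 det Θ' = det Θb = E^2 s^2 t^2` so `det Θ' = E^2 t^2` and `ω X_1 X_2 = det Θ' · t^2 = E^2 t^4`.
* `Z_j = α' Y_j + β' X_j`: `t^2 Z_j = (α' s^3 + β' t^2) X_j = c^4 X_j`, so `t^4 ω Z_1 Z_2 = c^8 E^2 t^4`,
  `ω Z_1 Z_2 = c^8 E^2 = c^(8 + 6 L)`.
-/

set_option autoImplicit false

namespace STCI.UN

open Polynomial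

universe u v

theorem Pat_V {B : Type u} [CommRing B] {M : Type v} [AddCommGroup M]
    [Module B[X] M] {ω : M →ₗ[B[X]] M →ₗ[B[X]] B[X]} (h : RankTwo ω) (w1 w2 x1 x2 : M)
    (h0 : (ω w1 w2).coeff 0 = 1) (s : B) (hx : ω x1 x2 = C s) :
    ∃ V1 V2 : M, ω V1 V2 = C s ^ 2 ∧
      (∀ m, (ω V1 m).coeff 0 = s * (ω w1 m).coeff 0) ∧
      (∀ m, (ω V2 m).coeff 0 = s * (ω w2 m).coeff 0) := by
  have key : ∀ w m : M, (ω (C ((ω w x2).coeff 0) • x1 + C ((ω x1 w).coeff 0) • x2) m).coeff 0 =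
      s * (ω w m).coeff 0 := by
    intro w m
    have h1 := congrArg (fun v => (ω v m).coeff 0) (h.plu x1 x2 w)
    simp only [hx, map_add, map_smul, LinearMap.add_apply, LinearMap.smul_apply, smul_eq_mul,
      coeff_add, mul_coeff_zero, coeff_C_zero] at h1 ⊢
    rw [h1]
  refine ⟨_, _, ?_, key w1, key w2⟩
  have h2 : (ω w1 x2).coeff 0 * (ω x1 w2).coeff 0 - (ω x1 w1).coeff 0 * (ω w2 x2).coeff 0 = s := by
    have h1 := congrArg (fun v => (ω v w2).coeff 0) (h.plu x1 x2 w1)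
    simp only [hx, map_add, map_smul, LinearMap.add_apply, LinearMap.smul_apply, smul_eq_mul,
      coeff_add, mul_coeff_zero, coeff_C_zero, h0, h.skew w2 x2, coeff_neg] at h1
    linear_combination -h1
  have h3 : C ((ω w1 x2).coeff 0) * C ((ω x1 w2).coeff 0) -
      C ((ω x1 w1).coeff 0) * C ((ω w2 x2).coeff 0) = C s := by
    rw [← C_mul, ← C_mul, ← C_sub, h2]
  simp only [map_add, map_smul, LinearMap.add_apply, LinearMap.smul_apply, smul_eq_mul, h.alt,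
    hx, h.skew x1 x2]
  linear_combination C s * h3

theorem patch {B : Type u} [CommRing B] [IsDomain B] {M : Type v} [AddCommGroup M]
    [Module B[X] M] (ω : M →ₗ[B[X]] M →ₗ[B[X]] B[X]) (h : RankTwo ω)
    (w1 w2 : M) (h0 : (ω w1 w2).coeff 0 = 1) (s t c : B) (x1 x2 y1 y2 : M)
    (hx : ω x1 x2 = C s) (hy : ω y1 y2 = C t) (hc : c ∈ Ideal.span {s, t}) :
    ∃ (m : ℕ) (z1 z2 : M), ω z1 z2 = C (c ^ m) ∧ 0 < m := by
  obtain ⟨a, b, hab⟩ := Ideal.mem_span_pair.1 hc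
  by_cases hc0 : c = 0
  · exact ⟨1, 0, 0, by simp [hc0], one_pos⟩
  by_cases hs0 : s = 0
  · refine ⟨1, y1, C b • y2, ?_, one_pos⟩
    rw [map_smul, hy, smul_eq_mul, ← C_mul, pow_one, ← hab, hs0, mul_zero, zero_add]
  by_cases ht0 : t = 0
  · refine ⟨1, x1, C a • x2, ?_, one_pos⟩
    rw [map_smul, hx, smul_eq_mul, ← C_mul, pow_one, ← hab, ht0, mul_zero, add_zero]
  obtain ⟨V1, V2, hV, hV1, hV2⟩ := Pat_V h w1 w2 x1 x2 h0 s hx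
  obtain ⟨U1, U2, hU, hU1, hU2⟩ := Pat_V h w1 w2 y1 y2 h0 t hy
  have hp1 := h.plu U1 U2 V1
  have hp2 := h.plu U1 U2 V2
  rw [hU] at hp1 hp2
  have hdet : ω V1 U2 * ω U1 V2 - ω V2 U2 * ω U1 V1 = C s ^ 2 * C t ^ 2 := by
    have h1 := congrArg (fun v => ω v V2) hp1
    simp only [map_add, map_smul, LinearMap.add_apply, LinearMap.smul_apply, smul_eq_mul, hV,
      h.skew V2 U2] at h1
    linear_combination -h1
  have hsk : ∀ x y : M, (ω y x).coeff 0 = - (ω x y).coeff 0 := by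
    intro x y
    rw [h.skew x y, coeff_neg]
  have hal : ∀ x : M, (ω x x).coeff 0 = 0 := by
    intro x
    rw [h.alt, coeff_zero]
  have k00 : (ω V1 U2).coeff 0 = s * t := by
    rw [hV1, hsk U2 w1, hU2, hsk w1 w2, h0]
    ring
  have k01 : (ω V2 U2).coeff 0 = 0 := by
    rw [hV2, hsk U2 w2, hU2, hal]
    ring
  have k10 : (ω U1 V1).coeff 0 = 0 := by
    rw [hU1, hsk V1 w1, hV1, hal]
    ring
  have k11 : (ω U1 V2).coeff 0 = s * t := by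
    rw [hU1, hsk V2 w1, hV2, hsk w1 w2, h0]
    ring
  obtain ⟨L, Θb, Θ', Ψ, e1, e2, e3⟩ := scaling s t (a ^ 3 * s + 3 * a ^ 2 * b * t)
    (3 * a * b ^ 2 * s + b ^ 3 * t) (c ^ 3) 2 (pow_ne_zero _ hc0) (by rw [← hab]; ring) (by norm_num)
    !![ω V1 U2, ω V2 U2; ω U1 V1, ω U1 V2] (by
      rw [Matrix.det_fin_two_of, C_mul, C_pow, C_pow]
      linear_combination hdet)
    (by
      intro i j
      fin_cases i <;> fin_cases j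
      · simpa using k00
      · simpa using k01
      · simpa using k10
      · simpa using k11)
  have e1' : ∀ i j, Θb i j = C s * Θ' i j := fun i j => by
    rw [e1]
    rfl
  have e2' : ∀ i j, Θb i j = (C c ^ 3) ^ L * (!![ω V1 U2, ω V2 U2; ω U1 V1, ω U1 V2] :
      Matrix (Fin 2) (Fin 2) B[X]) i j + C t ^ 2 * Ψ i j := fun i j => by
    rw [e2, ← C_pow, ← C_pow, ← C_pow]
    rfl
  have e00 := e2' 0 0
  have e01 := e2' 0 1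
  have e10 := e2' 1 0
  have e11 := e2' 1 1
  simp only [Matrix.of_apply, Matrix.cons_val', Matrix.cons_val_zero, Matrix.cons_val_one,
    Matrix.cons_val_fin_one] at e00 e01 e10 e11
  rw [Matrix.det_fin_two, e1', e1', e1', e1'] at e3
  simp only [C_mul, C_pow] at e3
  have hCs : C s ≠ (0 : B[X]) := C_ne_zero.2 hs0
  have hCt : C t ≠ (0 : B[X]) := C_ne_zero.2 ht0
  have hd' : Θ' 0 0 * Θ' 1 1 - Θ' 0 1 * Θ' 1 0 = (C c ^ 3) ^ (2 * L) * C t ^ 2 := by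
    refine mul_left_cancel₀ (pow_ne_zero 2 hCs) ?_
    linear_combination e3
  generalize hE : (C c ^ 3 : B[X]) ^ L = E at *
  have hE2 : (C c ^ 3 : B[X]) ^ (2 * L) = E ^ 2 := by
    rw [← hE, ← pow_mul, ← pow_mul, ← pow_mul]
    congr 1
    ring
  set X1 : M := Θ' 0 0 • U1 + Θ' 1 0 • U2 with hX1
  set X2 : M := Θ' 0 1 • U1 + Θ' 1 1 • U2 with hX2
  set Y1 : M := (E * C s ^ 2 + ω U1 V2 * Ψ 0 0 - ω V2 U2 * Ψ 1 0) • V1 +
    (- ω U1 V1 * Ψ 0 0 + ω V1 U2 * Ψ 1 0) • V2 with hY1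
  set Y2 : M := (ω U1 V2 * Ψ 0 1 - ω V2 U2 * Ψ 1 1) • V1 +
    (E * C s ^ 2 - ω U1 V1 * Ψ 0 1 + ω V1 U2 * Ψ 1 1) • V2 with hY2
  have l1 : (E * C s ^ 2 + ω U1 V2 * Ψ 0 0 - ω V2 U2 * Ψ 1 0) * ω V1 U2 +
      (- ω U1 V1 * Ψ 0 0 + ω V1 U2 * Ψ 1 0) * ω V2 U2 = C s ^ 3 * Θ' 0 0 := by
    linear_combination Ψ 0 0 * hdet - C s ^ 2 * e00 + C s ^ 2 * e1' 0 0
  have l2 : (E * C s ^ 2 + ω U1 V2 * Ψ 0 0 - ω V2 U2 * Ψ 1 0) * ω U1 V1 +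
      (- ω U1 V1 * Ψ 0 0 + ω V1 U2 * Ψ 1 0) * ω U1 V2 = C s ^ 3 * Θ' 1 0 := by
    linear_combination Ψ 1 0 * hdet - C s ^ 2 * e10 + C s ^ 2 * e1' 1 0
  have l3 : (ω U1 V2 * Ψ 0 1 - ω V2 U2 * Ψ 1 1) * ω V1 U2 +
      (E * C s ^ 2 - ω U1 V1 * Ψ 0 1 + ω V1 U2 * Ψ 1 1) * ω V2 U2 = C s ^ 3 * Θ' 0 1 := by
    linear_combination Ψ 0 1 * hdet - C s ^ 2 * e01 + C s ^ 2 * e1' 0 1
  have l4 : (ω U1 V2 * Ψ 0 1 - ω V2 U2 * Ψ 1 1) * ω U1 V1 +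
      (E * C s ^ 2 - ω U1 V1 * Ψ 0 1 + ω V1 U2 * Ψ 1 1) * ω U1 V2 = C s ^ 3 * Θ' 1 1 := by
    linear_combination Ψ 1 1 * hdet - C s ^ 2 * e11 + C s ^ 2 * e1' 1 1
  have m1 : C t ^ 2 • Y1 = C s ^ 3 • X1 := by
    rw [hX1, hY1]
    linear_combination (norm := module) (E * C s ^ 2 + ω U1 V2 * Ψ 0 0 - ω V2 U2 * Ψ 1 0) • hp1 +
      (- ω U1 V1 * Ψ 0 0 + ω V1 U2 * Ψ 1 0) • hp2 + l1 • U1 + l2 • U2
  have m2 : C t ^ 2 • Y2 = C s ^ 3 • X2 := by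
    rw [hX2, hY2]
    linear_combination (norm := module) (ω U1 V2 * Ψ 0 1 - ω V2 U2 * Ψ 1 1) • hp1 +
      (E * C s ^ 2 - ω U1 V1 * Ψ 0 1 + ω V1 U2 * Ψ 1 1) • hp2 + l3 • U1 + l4 • U2
  have hc4 : (C a ^ 4 * C s + 4 * C a ^ 3 * C b * C t) * C s ^ 3 +
      (6 * C a ^ 2 * C b ^ 2 * C s ^ 2 + 4 * C a * C b ^ 3 * C s * C t + C b ^ 4 * C t ^ 2) *
        C t ^ 2 = (C c ^ 4 : B[X]) := by
    rw [← hab, C_add, C_mul, C_mul]
    ring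
  set Z1 : M := (C a ^ 4 * C s + 4 * C a ^ 3 * C b * C t) • Y1 +
    (6 * C a ^ 2 * C b ^ 2 * C s ^ 2 + 4 * C a * C b ^ 3 * C s * C t + C b ^ 4 * C t ^ 2) • X1
    with hZ1
  set Z2 : M := (C a ^ 4 * C s + 4 * C a ^ 3 * C b * C t) • Y2 +
    (6 * C a ^ 2 * C b ^ 2 * C s ^ 2 + 4 * C a * C b ^ 3 * C s * C t + C b ^ 4 * C t ^ 2) • X2
    with hZ2
  have n1 : C t ^ 2 • Z1 = C c ^ 4 • X1 := by
    rw [hZ1]
    linear_combination (norm := module) (C a ^ 4 * C s + 4 * C a ^ 3 * C b * C t) • m1 + hc4 • X1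
  have n2 : C t ^ 2 • Z2 = C c ^ 4 • X2 := by
    rw [hZ2]
    linear_combination (norm := module) (C a ^ 4 * C s + 4 * C a ^ 3 * C b * C t) • m2 + hc4 • X2
  have hXX : ω X1 X2 = E ^ 2 * C t ^ 4 := by
    rw [hX1, hX2]
    simp only [map_add, map_smul, LinearMap.add_apply, LinearMap.smul_apply, smul_eq_mul, h.alt,
      hU, h.skew U1 U2]
    linear_combination C t ^ 2 * hd' + C t ^ 4 * hE2
  refine ⟨8 + 6 * L, Z1, Z2, ?_, by positivity⟩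
  have q1 : ω (C t ^ 2 • Z1) (C t ^ 2 • Z2) = ω (C c ^ 4 • X1) (C c ^ 4 • X2) := by
    rw [n1, n2]
  simp only [map_smul, LinearMap.smul_apply, smul_eq_mul, hXX] at q1
  have q2 : ω Z1 Z2 = C c ^ 8 * E ^ 2 := by
    refine mul_left_cancel₀ (pow_ne_zero 4 hCt) ?_
    linear_combination q1
  rw [q2, ← hE, C_pow, pow_add, pow_mul, ← pow_mul, ← pow_mul, ← pow_mul]
  congr 2
  ring

end STCI.UN
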