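import Pool.Agent.H41.UN.LoB
import Pool.Agent.H41.UN.Pat
import Pool.Agent.H41.UN.HorA

/-!
# Row Hor: affine Horrocks in rank two

`exists_coeff_zero` gives `w1, w2 ∈ M` with `(ω w1 w2).coeff 0 = 1`.
`G = {c : B | ∃ m > 0, ∃ a b, ω a b = C (c^m)}`. By `patch` it is closed under: `c1, c2 ∈ G`, `c ∈ (c1, c2)` implies `c ∈ G`
(apply `patch` to `s = c1^m1`, `t = c2^m2` and `c^e ∈ (s, t)` for `e = m1 + m2`). So it is (the carrier of) an ideal
(`0 ∈ G`: `a = b = 0`, `m = 1`). By `local_basis` it is contained in no maximal ideal, so `1 ∈ G`.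
-/

set_option autoImplicit false

namespace STCI.UN

open Polynomial

universe u v

theorem horrocks {B : Type u} [CommRing B] [IsDomain B] [IsNoetherianRing B] (hB : QS.{u, v} B)
    {M : Type v} [AddCommGroup M] [Module B[X] M] (ω : M →ₗ[B[X]] M →ₗ[B[X]] B[X])
    (h : RankTwo ω) (wh s : M) (hm : (ω wh s).Monic) : ∃ a b : M, ω a b = 1 := by
  obtain ⟨w1, w2, h0⟩ := exists_coeff_zero hB ω h
  let G : Ideal B :=
    { carrier := {c : B | ∃ m : ℕ, 0 < m ∧ ∃ a b : M, ω a b = C (c ^ m)}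
      add_mem' := by
        rintro c1 c2 ⟨m1, hm1, a1, b1, h1⟩ ⟨m2, hm2, a2, b2, h2⟩
        have hmem : (c1 + c2) ^ (m1 + m2 - 1) ∈ Ideal.span {c1 ^ m1, c2 ^ m2} :=
          Ideal.add_pow_add_pred_mem_of_pow_mem _ (Ideal.subset_span (by simp))
            (Ideal.subset_span (by simp))
        obtain ⟨m, z1, z2, hz, hmp⟩ := patch ω h w1 w2 h0 _ _ _ a1 b1 a2 b2 h1 h2 hmem
        refine ⟨(m1 + m2 - 1) * m, Nat.mul_pos (by omega) hmp, z1, z2, ?_⟩
        rw [hz, pow_mul]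
      zero_mem' := ⟨1, one_pos, 0, 0, by simp⟩
      smul_mem' := by
        rintro r c ⟨m, hm, a, b, hab⟩
        refine ⟨m, hm, C (r ^ m) • a, b, ?_⟩
        rw [map_smul, LinearMap.smul_apply, hab, smul_eq_mul, smul_eq_mul, mul_pow, ← C_mul] }
  have hG : G = ⊤ := by
    by_contra hne
    obtain ⟨n, hn, hGn⟩ := Ideal.exists_le_maximal G hne
    obtain ⟨c, hc, a, b, hab⟩ := local_basis ω h wh s hm n
    apply hc
    apply hGn
    exact ⟨1, one_pos, a, b, by rw [hab, pow_one]⟩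
  have h1 : (1 : B) ∈ G := by
    rw [hG]
    exact Submodule.mem_top
  obtain ⟨m, -, a, b, hab⟩ := h1
  exact ⟨a, b, by rw [hab, one_pow, C_1]⟩

end STCI.UN
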