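import Pool.Agent.H41.UN.LoB1

/-!
# Row LoB: the local theorem (Horrocks in rank two)

By `local_prep` we may assume that we have `w1, w2, c1` as there; `a = ω w1 s` (monic), `b = ω w2 s`, `δ = ω w1 w2`, `J = valI ω s`.
(d) `K = (a, b) ≤ J`. Claim `J ≤ K + n J`. The ideal `Q = {r : r J ≤ K + n J}` (`Submodule.colon` or by hand) contains `a, b, n` and `δ`
  (`δ ω w s = (ω w w2) a + (ω w1 w) b` by Plücker: apply `ω · s` to `h.plu w1 w2 w`). If `Q ≠ R` take a maximal `q ≥ Q`: by the last clause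
  of `local_prep` `J ≤ q`; then `C c1 ∈ q`, so `c1 ∈ n` (`q.comap C = n`, `n` maximal), contradiction with `c1 - 1 ∈ n`.
  By `nakayama_monic` (with `a`): `c ∈ B`, `c - 1 ∈ n`, `C c * J ≤ K = (a, b)`.
(e) `C c * (C c1 - δ) = x a + y b`. Put `w1' = c w1 - y s`, `w2' = c w2 + x s`: `ω w1' w2' = c^2 δ + c x a + c y b = c^2 c1`
  (`ω w1 s = a`, `ω s w2 = -b`, `ω s s = 0`). `c^2 c1 ∉ n`.
-/

set_option autoImplicit false

namespace STCI.UN

open Polynomial

universe u v

theorem local_basis {B : Type u} [CommRing B] [IsNoetherianRing B] {M : Type v} [AddCommGroup M]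
    [Module B[X] M] (ω : M →ₗ[B[X]] M →ₗ[B[X]] B[X]) (h : RankTwo ω) (wh s : M)
    (hm : (ω wh s).Monic) (n : Ideal B) [n.IsMaximal] :
    ∃ c : B, c ∉ n ∧ ∃ a b : M, ω a b = C c := by
  rcases local_prep ω h wh s hm n with h0 | ⟨w1, w2, c1, hc1, hδ, hmon, hq⟩
  · exact h0
  have hnt : (1 : B) ∉ n := fun h1 => (Ideal.IsMaximal.ne_top ‹n.IsMaximal›)
    ((Ideal.eq_top_iff_one n).2 h1)
  let K : Ideal B[X] := Ideal.span {ω w1 s, ω w2 s}
  have haK : ω w1 s ∈ K := Ideal.subset_span (by simp)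
  have hbK : ω w2 s ∈ K := Ideal.subset_span (by simp)
  have hKJ : K ≤ valI ω s := by
    refine Ideal.span_le.2 ?_
    intro x hx
    rcases hx with rfl | hx
    · exact (mem_valI ω s _).2 ⟨w1, rfl⟩
    · rw [Set.mem_singleton_iff] at hx
      rw [hx]
      exact (mem_valI ω s _).2 ⟨w2, rfl⟩
  let Q : Ideal B[X] :=
    { carrier := {r | ∀ j ∈ valI ω s, r * j ∈ K ⊔ n.map C * valI ω s}
      add_mem' := by
        intro r r' hr hr' j hj
        rw [add_mul]
        exact Ideal.add_mem _ (hr j hj) (hr' j hj)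
      zero_mem' := by
        intro j _
        rw [zero_mul]
        exact Ideal.zero_mem _
      smul_mem' := by
        intro c r hr j hj
        rw [smul_eq_mul, mul_assoc]
        exact Ideal.mul_mem_left _ c (hr j hj) }
  have hQ : ∀ r, r ∈ Q ↔ ∀ j ∈ valI ω s, r * j ∈ K ⊔ n.map C * valI ω s := fun r => Iff.rfl
  have hKQ : ∀ r ∈ K, r ∈ Q := fun r hr j _ =>
    (le_sup_left : K ≤ K ⊔ n.map C * valI ω s) (Ideal.mul_mem_right j K hr)
  have hnQ : n.map C ≤ Q := fun r hr j hj =>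
    (le_sup_right : n.map C * valI ω s ≤ K ⊔ n.map C * valI ω s) (Ideal.mul_mem_mul hr hj)
  have hdQ : ω w1 w2 ∈ Q := by
    intro j hj
    obtain ⟨w, rfl⟩ := (mem_valI ω s j).1 hj
    have h1 := congrArg (fun u => ω u s) (h.plu w1 w2 w)
    simp only [map_smul, map_add, LinearMap.smul_apply, LinearMap.add_apply, smul_eq_mul] at h1
    rw [h1]
    refine (le_sup_left : K ≤ K ⊔ n.map C * valI ω s) (Ideal.add_mem _ ?_ ?_)
    · exact Ideal.mul_mem_left _ _ haK
    · exact Ideal.mul_mem_left _ _ hbK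
  have hQt : Q = ⊤ := by
    by_contra hne
    obtain ⟨q, hqm, hqQ⟩ := Ideal.exists_le_maximal Q hne
    have h1 := hq q hqm (hnQ.trans hqQ) (hqQ (hKQ _ haK)) (hqQ (hKQ _ hbK))
    have h2 : C c1 - ω w1 w2 ∈ q := h1 hδ
    have h3 : C c1 ∈ q := by
      have := Ideal.add_mem q h2 (hqQ hdQ)
      rwa [sub_add_cancel] at this
    have h4 : C (c1 - 1) ∈ q := (hnQ.trans hqQ) (Ideal.mem_map_of_mem C hc1)
    have h5 : (1 : B[X]) ∈ q := by
      have := Ideal.sub_mem q h3 h4
      rwa [← C_sub, sub_sub_cancel, C_1] at this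
    exact hqm.ne_top ((Ideal.eq_top_iff_one q).2 h5)
  have hJ : valI ω s ≤ K ⊔ n.map C * valI ω s := by
    intro j hj
    have h1 : (1 : B[X]) ∈ Q := by rw [hQt]; exact Submodule.mem_top
    have h2 := h1 j hj
    rwa [one_mul] at h2
  obtain ⟨c, hc, hcJ⟩ := nakayama_monic n (ω w1 s) hmon K (valI ω s) haK hKJ hJ
  obtain ⟨x, y, hxy⟩ := Ideal.mem_span_pair.1 (hcJ _ hδ)
  refine ⟨c * c * c1, ?_, C c • w1 - y • s, C c • w2 + x • s, ?_⟩
  · intro hmem
    have hpr : n.IsPrime := Ideal.IsMaximal.isPrime ‹n.IsMaximal›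
    have hcn : c ∉ n := fun h1 => hnt (by
      have := Ideal.sub_mem n h1 hc
      rwa [sub_sub_cancel] at this)
    have hc1n : c1 ∉ n := fun h1 => hnt (by
      have := Ideal.sub_mem n h1 hc1
      rwa [sub_sub_cancel] at this)
    rcases hpr.mem_or_mem hmem with h1 | h1
    · rcases hpr.mem_or_mem h1 with h2 | h2
      · exact hcn h2
      · exact hcn h2
    · exact hc1n h1
  · have hs : ω s w2 = -ω w2 s := h.skew w2 s
    simp only [map_sub, map_add, map_smul, LinearMap.sub_apply, LinearMap.add_apply,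
      LinearMap.smul_apply, smul_eq_mul, h.alt, hs, C_mul]
    linear_combination C c * hxy

end STCI.UN
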