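import Pool.Agent.H41.UN.Defs

/-!
# Row Nak: Nakayama for ideals of `B[X]` containing a monic polynomial

`N = J / K` is a finitely generated `B`-module: `J/(a)` is a `B`-submodule of the finite `B`-module `B[X]/(a)`,
`B` noetherian, and `N` is a quotient of it. The hypothesis says `N = n N`, so
(`Submodule.exists_sub_one_mem_and_smul_eq_zero_of_fg_of_le_smul`) some `c ≡ 1 mod n` kills `N`.
(Work in `B[X] ⧸ K`, a finite `B`-module since it is a quotient of `B[X] ⧸ (a)` (`Polynomial.Monic.finite_quotient`), with the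
`B`-submodule `J` mod `K`, i.e. `(J.map (Ideal.Quotient.mk K)).restrictScalars B`.)
-/

set_option autoImplicit false

namespace STCI.UN

open Polynomial

universe u v

theorem Nak_smul_mem {B : Type u} [CommRing B] (n : Ideal B) (K J : Ideal B[X])
    (N : Submodule B (B[X] ⧸ K))
    (hN : ∀ x ∈ J, Ideal.Quotient.mk K x ∈ N) (y : B[X]) (hy : y ∈ n.map C * J) :
    Ideal.Quotient.mk K y ∈ n • N := by
  refine Submodule.mul_induction_on hy ?_ ?_
  · intro r hr
    have hr' : r ∈ Submodule.span B[X] (C '' (n : Set B)) := hr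
    refine Submodule.span_induction (p := fun r _ => ∀ x ∈ J, Ideal.Quotient.mk K (r * x) ∈ n • N)
      ?_ ?_ ?_ ?_ hr'
    · rintro _ ⟨b, hb, rfl⟩ x hx
      have h1 : Ideal.Quotient.mk K (C b * x) = b • Ideal.Quotient.mk K x := by
        rw [← Polynomial.smul_eq_C_mul]
        rfl
      rw [h1]
      exact Submodule.smul_mem_smul hb (hN x hx)
    · intro x hx
      rw [zero_mul, map_zero]
      exact Submodule.zero_mem _
    · intro r s _ _ hr hs x hx
      rw [add_mul, map_add]
      exact Submodule.add_mem _ (hr x hx) (hs x hx)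
    · intro p r _ hr x hx
      have h1 : (p • r) * x = r * (p * x) := by
        rw [smul_eq_mul]; ring
      rw [h1]
      exact hr _ (J.mul_mem_left p hx)
  · intro x y hx hy
    rw [map_add]
    exact Submodule.add_mem _ hx hy

theorem nakayama_monic {B : Type u} [CommRing B] [IsNoetherianRing B] (n : Ideal B) (a : B[X])
    (ha : a.Monic) (K J : Ideal B[X]) (haK : a ∈ K) (hKJ : K ≤ J)
    (hJ : J ≤ K ⊔ n.map C * J) :
    ∃ c : B, c - 1 ∈ n ∧ ∀ x ∈ J, C c * x ∈ K := by
  classical
  have hfin : Module.Finite B (B[X] ⧸ Ideal.span {a}) := ha.finite_quotient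
  have hle : Ideal.span {a} ≤ K := by
    rw [Ideal.span_le]
    intro x hx
    rw [Set.mem_singleton_iff] at hx
    rw [hx]
    exact haK
  have hfinK : Module.Finite B (B[X] ⧸ K) :=
    Module.Finite.of_surjective (Ideal.Quotient.factorₐ B hle).toLinearMap
      (Ideal.Quotient.factor_surjective hle)
  have hnoe : IsNoetherian B (B[X] ⧸ K) := isNoetherian_of_isNoetherianRing_of_finite B _
  let N : Submodule B (B[X] ⧸ K) :=
    (J.restrictScalars B).map ((Ideal.Quotient.mkₐ B K).toLinearMap)
  have hNmem : ∀ x ∈ J, Ideal.Quotient.mk K x ∈ N := by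
    intro x hx
    exact Submodule.mem_map.mpr ⟨x, hx, rfl⟩
  have hNle : N ≤ n • N := by
    intro z hz
    obtain ⟨x, hx, rfl⟩ := Submodule.mem_map.mp hz
    have hxJ : x ∈ J := hx
    obtain ⟨k, hk, y, hy, hkx⟩ := Submodule.mem_sup.mp (hJ hxJ)
    have h1 : (Ideal.Quotient.mkₐ B K).toLinearMap x = Ideal.Quotient.mk K y := by
      show Ideal.Quotient.mk K x = Ideal.Quotient.mk K y
      rw [← hkx, map_add, Ideal.Quotient.eq_zero_iff_mem.mpr hk, zero_add]
    rw [h1]
    exact Nak_smul_mem n K J N hNmem y hy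
  obtain ⟨c, hc1, hc2⟩ := Submodule.exists_sub_one_mem_and_smul_eq_zero_of_fg_of_le_smul n N
    (IsNoetherian.noetherian N) hNle
  refine ⟨c, hc1, fun x hx => ?_⟩
  have h2 := hc2 _ (hNmem x hx)
  have h3 : Ideal.Quotient.mk K (C c * x) = 0 := by
    rw [← h2, ← Polynomial.smul_eq_C_mul]
    rfl
  exact Ideal.Quotient.eq_zero_iff_mem.mp h3

end STCI.UN
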