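import Pool.Agent.H41.UN.FinM
import Pool.Agent.H41.UN.Avo
import Pool.Agent.H41.UN.Nak

/-!
# Row LoB1: preparation for the local theorem

`J = valI ω s = {ω w s : w ∈ M}`, an ideal of `R = B[X]`; `h = ω wh s ∈ J` monic.
(a) Let `S` be the set of maximal ideals of `R` containing `J` and `n.map C` (finite by `finite_maximal`). By `exists_avoid` there are
  `w1, w2` with `δ = ω w1 w2 ∉ q` for `q ∈ S`. So `J + δR + nR = R`. By `nakayama_monic` with `K = J + δR`, `J := ⊤`, `a := h`: there is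
  `c1 ∈ B`, `c1 - 1 ∈ n`, `C c1 = ρ δ + j`, `j ∈ J`. Replace `w2` by `ρ w2`: now `δ = ω w1 w2`, `C c1 - δ ∈ J`.
(b) Replace `w1` by `w1 + h^m wh` with `m ≥ 1` so large that `a = ω w1 s` becomes monic (`ω w1 s + h^(m+1)`, degree of `h^(m+1)` larger
  than the degree of the old `ω w1 s`; if `h` has degree `0` then `h = 1` and the first alternative holds with
  `ω wh s = 1 = C 1`). `δ` changes by `h^m ω wh w2 ∈ J`.
(c) Let `T` be the finite set of maximal `q` with `a ∈ q`, `n.map C ≤ q`, not `J ≤ q` (`finite_maximal` for `a`). There is `j ∈ J` outside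
  all `q ∈ T` (prime avoidance, `Ideal.subset_union_prime`), `j = ω wj s`, and by `exists_crt` `e ∈ R` with `e ≡ 1 mod q` if
  `b = ω w2 s ∈ q`, `e ∈ q` otherwise (`q ∈ T`). Replace `w2` by `w2 + e j wj`: `b` becomes `b + e j^2`, now outside every `q ∈ T`.
  `δ` changes by `e j ω w1 wj ∈ J`.
-/

set_option autoImplicit false

namespace STCI.UN

open Polynomial

universe u v

/-- the ideal of values `ω w s` -/
noncomputable def valI {R : Type u} [CommRing R] {M : Type v} [AddCommGroup M] [Module R M]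
    (ω : M →ₗ[R] M →ₗ[R] R) (s : M) : Ideal R := LinearMap.range (ω.flip s)

theorem mem_valI {R : Type u} [CommRing R] {M : Type v} [AddCommGroup M] [Module R M]
    (ω : M →ₗ[R] M →ₗ[R] R) (s : M) (x : R) : x ∈ valI ω s ↔ ∃ w, ω w s = x := Iff.rfl

theorem local_prep {B : Type u} [CommRing B] [IsNoetherianRing B] {M : Type v} [AddCommGroup M]
    [Module B[X] M] (ω : M →ₗ[B[X]] M →ₗ[B[X]] B[X]) (h : RankTwo ω) (wh s : M)
    (hm : (ω wh s).Monic) (n : Ideal B) [n.IsMaximal] :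
    (∃ c : B, c ∉ n ∧ ∃ a b : M, ω a b = C c) ∨
    ∃ (w1 w2 : M) (c1 : B), c1 - 1 ∈ n ∧ C c1 - ω w1 w2 ∈ valI ω s ∧ (ω w1 s).Monic ∧
      ∀ q : Ideal B[X], q.IsMaximal → n.map C ≤ q → ω w1 s ∈ q → ω w2 s ∈ q → valI ω s ≤ q := by
  classical
  set J := valI ω s with hJ
  set hh : B[X] := ω wh s with hhdef
  have hhJ : hh ∈ J := ⟨wh, rfl⟩
  by_cases hdeg : hh.natDegree = 0
  · left
    have h1 : hh = 1 := hm.natDegree_eq_zero.mp hdeg
    refine ⟨1, ?_, wh, s, ?_⟩
    · intro h2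
      exact (inferInstance : n.IsMaximal).ne_top ((Ideal.eq_top_iff_one n).mpr h2)
    · rw [map_one]
      exact h1
  right
  -- part (a)
  have hSfin := finite_maximal n hh hm
  obtain ⟨w1, w2, hw⟩ := exists_avoid ω h hSfin.toFinset (fun q hq => by
    rw [Set.Finite.mem_toFinset] at hq
    exact hq.1)
  set δ : B[X] := ω w1 w2 with hδ
  have htop : (⊤ : Ideal B[X]) ≤ (J ⊔ Ideal.span {δ}) ⊔ n.map C * ⊤ := by
    rw [Ideal.mul_top]
    by_contra hcon
    have hne : (J ⊔ Ideal.span {δ}) ⊔ n.map C ≠ ⊤ := fun hc => hcon (by rw [hc])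
    obtain ⟨q, hq, hle⟩ := Ideal.exists_le_maximal _ hne
    have hJq : J ≤ q := le_trans (le_trans le_sup_left le_sup_left) hle
    have hδq : Ideal.span {δ} ≤ q := le_trans (le_trans le_sup_right le_sup_left) hle
    have hnq : n.map C ≤ q := le_trans le_sup_right hle
    refine hw q ?_ ((Ideal.span_singleton_le_iff_mem q).mp hδq)
    rw [Set.Finite.mem_toFinset]
    exact ⟨hq, hJq hhJ, hnq⟩
  obtain ⟨c1, hc1, hc2⟩ := nakayama_monic n hh hm (J ⊔ Ideal.span {δ}) ⊤
    (Ideal.mem_sup_left hhJ) le_top htop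
  have hc3 := hc2 1 Submodule.mem_top
  rw [mul_one] at hc3
  obtain ⟨j0, hj0, r0, hr0, hsum⟩ := Submodule.mem_sup.mp hc3
  obtain ⟨ρ, hρ⟩ := Ideal.mem_span_singleton'.mp hr0
  -- part (b)
  obtain ⟨m, hm1, hm2⟩ : ∃ m : ℕ, 1 ≤ m ∧ (ω w1 s).natDegree < (hh ^ (m + 1)).natDegree := by
    refine ⟨(ω w1 s).natDegree + 1, by omega, ?_⟩
    rw [hm.natDegree_pow]
    have h1 : 1 ≤ hh.natDegree := Nat.one_le_iff_ne_zero.mpr hdeg
    calc (ω w1 s).natDegree < ((ω w1 s).natDegree + 1 + 1) * 1 := by omega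
      _ ≤ ((ω w1 s).natDegree + 1 + 1) * hh.natDegree := Nat.mul_le_mul_left _ h1
  set v1 : M := w1 + hh ^ m • wh with hv1
  have hv1s : ω v1 s = ω w1 s + hh ^ (m + 1) := by
    rw [hv1]
    simp only [map_add, map_smul, LinearMap.add_apply, LinearMap.smul_apply, smul_eq_mul]
    rw [← hhdef, pow_succ]
  have hmon : (ω v1 s).Monic := by
    rw [hv1s]
    exact (hm.pow (m + 1)).add_of_right (Polynomial.degree_lt_degree hm2)
  -- part (c)
  have hTfin := finite_maximal n (ω v1 s) hmon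
  set T : Finset (Ideal B[X]) := hTfin.toFinset.filter (fun q => ¬ J ≤ q) with hT
  have hTm : ∀ q ∈ T, q.IsMaximal := by
    intro q hq
    rw [hT, Finset.mem_filter, Set.Finite.mem_toFinset] at hq
    exact hq.1.1
  obtain ⟨j, hjJ, hjT⟩ : ∃ j ∈ J, ∀ q ∈ T, j ∉ q := by
    by_contra hcon
    push Not at hcon
    have hsub : (J : Set B[X]) ⊆ ⋃ q ∈ (↑T : Set (Ideal B[X])), (q : Set B[X]) := by
      intro x hx
      obtain ⟨q, hq, hxq⟩ := hcon x hx
      exact Set.mem_biUnion hq hxq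
    obtain ⟨q, hq, hle⟩ := (Ideal.subset_union_prime (f := fun q : Ideal B[X] => q) ⊥ ⊥
      (fun q hq _ _ => (hTm q hq).isPrime)).mp hsub
    rw [hT, Finset.mem_filter] at hq
    exact hq.2 hle
  obtain ⟨wj, hwj⟩ := hjJ
  have hwj' : ω wj s = j := hwj
  set b : B[X] := ω (ρ • w2) s with hb
  obtain ⟨e, he⟩ := exists_crt T hTm (fun q => b ∈ q)
  refine ⟨v1, ρ • w2 + (e * j) • wj, c1, hc1, ?_, hmon, ?_⟩
  · have h1 : C c1 - ω v1 (ρ • w2 + (e * j) • wj) =
        j0 - hh * (hh ^ (m - 1) * ρ * ω wh w2) - j * (e * ω v1 wj) := by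
      have h2 : hh ^ m = hh * hh ^ (m - 1) := by
        rw [← pow_succ']
        congr 1
        omega
      rw [← hsum, ← hρ, hδ, hv1]
      simp only [map_add, map_smul, LinearMap.add_apply, LinearMap.smul_apply, smul_eq_mul]
      rw [h2]
      ring
    rw [h1]
    refine J.sub_mem (J.sub_mem hj0 (J.mul_mem_right _ hhJ)) (J.mul_mem_right _ ⟨wj, hwj⟩)
  · intro q hq hnq haq hbq
    by_contra hJq
    have hqT : q ∈ T := by
      rw [hT, Finset.mem_filter, Set.Finite.mem_toFinset]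
      exact ⟨⟨hq, haq, hnq⟩, hJq⟩
    have hb' : ω (ρ • w2 + (e * j) • wj) s = b + e * j * j := by
      rw [map_add, LinearMap.add_apply, ← hb, map_smul, LinearMap.smul_apply, smul_eq_mul, hwj']
    rw [hb'] at hbq
    have hpr := hq.isPrime
    by_cases hbq' : b ∈ q
    · have h1 : e * j * j ∈ q := (Ideal.add_mem_iff_right q hbq').mp hbq
      have h2 : j ∉ q := hjT q hqT
      have h3 : e - 1 ∈ q := (he q hqT).1 hbq'
      rcases hpr.mem_or_mem h1 with h4 | h4
      · rcases hpr.mem_or_mem h4 with h5 | h5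
        · apply hq.ne_top
          rw [Ideal.eq_top_iff_one]
          have h6 := q.sub_mem h5 h3
          rwa [sub_sub_cancel] at h6
        · exact h2 h5
      · exact h2 h4
    · have h3 : e ∈ q := (he q hqT).2 hbq'
      apply hbq'
      have h4 : e * j * j ∈ q := q.mul_mem_right _ (q.mul_mem_right _ h3)
      exact (Ideal.add_mem_iff_left q h4).mp hbq

end STCI.UN
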