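import Pool.Agent.H41.UN.Defs

/-!
# Elements of `R_d` inside the fraction field
-/

set_option autoImplicit false

namespace STCI.UN

universe u

variable {R : Type u} [CommRing R] {K : Type u} [Field K] [Algebra R K]

/-- `x ∈ K` lies in the localization `R_d` -/
def InL (d : R) (x : K) : Prop :=
  ∃ (N : ℕ) (r : R), algebraMap R K r = algebraMap R K d ^ N * x

theorem InL.of (d r : R) : InL (K := K) d (algebraMap R K r) := ⟨0, r, by simp⟩

theorem InL.zero (d : R) : InL (K := K) d 0 := ⟨0, 0, by simp⟩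

theorem InL.one (d : R) : InL (K := K) d 1 := ⟨0, 1, by simp⟩

theorem InL.add {d : R} {x y : K} (hx : InL d x) (hy : InL d y) : InL d (x + y) := by
  obtain ⟨N, r, hr⟩ := hx
  obtain ⟨M, s, hs⟩ := hy
  refine ⟨N + M, d ^ M * r + d ^ N * s, ?_⟩
  rw [map_add, map_mul, map_mul, map_pow, map_pow, hr, hs]
  ring

theorem InL.mul {d : R} {x y : K} (hx : InL d x) (hy : InL d y) : InL d (x * y) := by
  obtain ⟨N, r, hr⟩ := hx
  obtain ⟨M, s, hs⟩ := hy
  refine ⟨N + M, r * s, ?_⟩
  rw [map_mul, hr, hs]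
  ring

theorem InL.neg {d : R} {x : K} (hx : InL d x) : InL d (-x) := by
  obtain ⟨N, r, hr⟩ := hx
  refine ⟨N, -r, ?_⟩
  rw [map_neg, hr]
  ring

theorem InL.sub {d : R} {x y : K} (hx : InL d x) (hy : InL d y) : InL d (x - y) := by
  rw [sub_eq_add_neg]
  exact hx.add hy.neg

theorem InL.smul {d : R} {x : K} (a : R) (hx : InL d x) : InL d (a • x) := by
  rw [Algebra.smul_def]
  exact (InL.of d a).mul hx

/-- `R_d ∩ R_{1-d} = R` -/
theorem InL.both {d : R} {x : K} (h1 : InL d x) (h2 : InL (1 - d) x) :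
    ∃ r : R, algebraMap R K r = x := by
  obtain ⟨N, r, hr⟩ := h1
  obtain ⟨M, s, hs⟩ := h2
  have hcop : IsCoprime (d ^ N) ((1 - d) ^ M) := IsCoprime.pow (⟨1, 1, by ring⟩)
  obtain ⟨a, b, hab⟩ := hcop
  refine ⟨a * r + b * s, ?_⟩
  rw [map_add, map_mul, map_mul, hr, hs, ← map_pow, ← map_pow]
  have h3 : algebraMap R K a * algebraMap R K (d ^ N) +
      algebraMap R K b * algebraMap R K ((1 - d) ^ M) = 1 := by
    rw [← map_mul, ← map_mul, ← map_add, hab, map_one]
  linear_combination x * h3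

end STCI.UN
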