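import Pool.Agent.H41.UN.Defs

/-!
# Row Sca: the scaling lemma of Quillen patching

For `p ∈ B[z]` with coefficients `p_l`, and `L` at least the degree of `p`, put
`p_b = ∑_{l ≤ L} p_l (α s^N)^l c^(L-l) z^l` (`c` below, so that `p_b = c^L p(b z)` with `b = α s^N / c`).
Take `L` = max of the four degrees, `Θb = (Θ_ij)_b`.
* `Θb = s Θ'`: the term `l = 0` is `c^L * (s t or 0)`, the terms `l ≥ 1` contain `s^N`, `N ≥ 1`.
* `Θb - c^L Θ` is divisible by `t^N`: `α s^N ≡ c` modulo `t^N`, so `(α s^N)^l c^(L-l) ≡ c^L`.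
* determinant: let `Q` be the fraction field of `B[z]`, `ev : B[z] → Q` the ring homomorphism `aeval (α s^N z / c)`
  (`c ≠ 0`). Then `p_b = c^L ev p` for `deg p ≤ L`, so `det Θb = c^(2L) ev (det Θ) = c^(2L) s^2 t^2`.
  (Or prove `p_b q_b = (pq)_b` by comparing coefficients.)
-/

set_option autoImplicit false

namespace STCI.UN

open Polynomial

universe u

/-- `c^L p(σ z / c)` -/
noncomputable def Sca_h {B : Type u} [CommRing B] (L : ℕ) (σ c : B) (p : B[X]) : B[X] :=
  ∑ l ∈ Finset.range (L + 1), monomial l (p.coeff l * σ ^ l * c ^ (L - l))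

theorem Sca_coeff {B : Type u} [CommRing B] (L : ℕ) (σ c : B) (p : B[X]) (l : ℕ) :
    (Sca_h L σ c p).coeff l = if l ≤ L then p.coeff l * σ ^ l * c ^ (L - l) else 0 := by
  unfold Sca_h
  rw [finsetSum_coeff]
  simp only [coeff_monomial]
  rw [Finset.sum_ite_eq' (Finset.range (L + 1)) l]
  simp only [Finset.mem_range, Nat.lt_succ_iff]

theorem Sca_comp {B : Type u} [CommRing B] (L : ℕ) (σ c : B) (p : B[X]) (hp : p.natDegree ≤ L) :
    (Sca_h L σ c p).comp (C c * X) = C (c ^ L) * p.comp (C σ * X) := by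
  ext l
  rw [comp_C_mul_X_coeff, coeff_C_mul, comp_C_mul_X_coeff, Sca_coeff]
  split_ifs with h
  · have : c ^ (L - l) * c ^ l = c ^ L := by rw [← pow_add, Nat.sub_add_cancel h]
    linear_combination (p.coeff l * σ ^ l) * this
  · rw [coeff_eq_zero_of_natDegree_lt (by omega)]
    ring

theorem Sca_inj {B : Type u} [CommRing B] [IsDomain B] (c : B) (hc : c ≠ 0) (p q : B[X])
    (h : p.comp (C c * X) = q.comp (C c * X)) : p = q := by
  ext l
  have h1 := congrArg (fun r => r.coeff l) h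
  simp only [comp_C_mul_X_coeff] at h1
  exact mul_right_cancel₀ (pow_ne_zero l hc) h1

theorem scaling {B : Type u} [CommRing B] [IsDomain B] (s t α β c : B) (N : ℕ) (hc0 : c ≠ 0)
    (hc : c = α * s ^ N + β * t ^ N) (hN : 1 ≤ N) (Θ : Matrix (Fin 2) (Fin 2) B[X])
    (hdet : Θ.det = C (s ^ 2 * t ^ 2))
    (h0 : ∀ i j, (Θ i j).coeff 0 = if i = j then s * t else 0) :
    ∃ (L : ℕ) (Θb Θ' Ψ : Matrix (Fin 2) (Fin 2) B[X]),
      Θb = C s • Θ' ∧ Θb = C (c ^ L) • Θ + C (t ^ N) • Ψ ∧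
      Θb.det = C (c ^ (2 * L) * s ^ 2 * t ^ 2) := by
  obtain ⟨L, hL⟩ : ∃ L : ℕ, ∀ i j, (Θ i j).natDegree ≤ L := by
    refine ⟨∑ i, ∑ j, (Θ i j).natDegree, fun i j => ?_⟩
    refine le_trans ?_ (Finset.single_le_sum (f := fun i => ∑ j, (Θ i j).natDegree)
      (fun i _ => Nat.zero_le _) (Finset.mem_univ i))
    exact Finset.single_le_sum (f := fun j => (Θ i j).natDegree)
      (fun i _ => Nat.zero_le _) (Finset.mem_univ j)
  obtain ⟨σ, hσ⟩ : ∃ σ, σ = α * s ^ N := ⟨_, rfl⟩
  have h1 : ∀ i j, ∃ q, Sca_h L σ c (Θ i j) = C s * q := by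
    intro i j
    have h2 : C s ∣ Sca_h L σ c (Θ i j) := by
      rw [C_dvd_iff_dvd_coeff]
      intro l
      rw [Sca_coeff]
      split_ifs with h
      · rcases Nat.eq_zero_or_pos l with h3 | h3
        · subst h3
          rw [h0, mul_assoc]
          apply Dvd.dvd.mul_right
          split_ifs
          · exact dvd_mul_right s t
          · exact dvd_zero s
        · apply Dvd.dvd.mul_right
          apply Dvd.dvd.mul_left
          refine dvd_trans ?_ (pow_dvd_pow σ h3)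
          rw [Nat.succ_eq_add_one, zero_add, pow_one, hσ]
          apply Dvd.dvd.mul_left
          exact dvd_pow_self s (by omega)
      · exact dvd_zero s
    exact h2
  have h2 : ∀ i j, ∃ q, Sca_h L σ c (Θ i j) = C (c ^ L) * Θ i j + C (t ^ N) * q := by
    intro i j
    have h3 : C (t ^ N) ∣ Sca_h L σ c (Θ i j) - C (c ^ L) * Θ i j := by
      rw [C_dvd_iff_dvd_coeff]
      intro l
      rw [coeff_sub, coeff_C_mul, Sca_coeff]
      split_ifs with h
      · have h4 : c ^ L = c ^ (L - l) * c ^ l := by rw [← pow_add, Nat.sub_add_cancel h]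
        have h5 : (Θ i j).coeff l * σ ^ l * c ^ (L - l) - c ^ L * (Θ i j).coeff l
            = (Θ i j).coeff l * c ^ (L - l) * (σ ^ l - c ^ l) := by
          rw [h4]
          ring
        rw [h5]
        apply Dvd.dvd.mul_left
        refine dvd_trans ?_ (sub_dvd_pow_sub_pow σ c l)
        rw [hσ, hc]
        exact ⟨-β, by ring⟩
      · rw [coeff_eq_zero_of_natDegree_lt (lt_of_le_of_lt (hL i j) (by omega))]
        simp
    obtain ⟨q, hq⟩ := h3
    exact ⟨q, by rw [← hq]; ring⟩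
  choose P hP using h1
  choose Q hQ using h2
  refine ⟨L, Matrix.of fun i j => Sca_h L σ c (Θ i j), Matrix.of P, Matrix.of Q, ?_, ?_, ?_⟩
  · ext1 i j
    exact hP i j
  · ext1 i j
    exact hQ i j
  · apply Sca_inj c hc0
    rw [Matrix.det_fin_two] at hdet ⊢
    simp only [Matrix.of_apply, sub_comp, mul_comp, C_comp]
    rw [Sca_comp L σ c _ (hL 0 0), Sca_comp L σ c _ (hL 0 1), Sca_comp L σ c _ (hL 1 0),
      Sca_comp L σ c _ (hL 1 1)]
    have h3 := congrArg (fun r => r.comp (C σ * X)) hdet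
    simp only [sub_comp, mul_comp, C_comp] at h3
    have h4 : C (c ^ (2 * L) * s ^ 2 * t ^ 2) = C (c ^ L) * C (c ^ L) * C (s ^ 2 * t ^ 2) := by
      rw [← C_mul, ← C_mul]
      congr 1
      ring
    rw [h4, ← h3]
    ring

end STCI.UN
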