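import Pool.Agent.H41.UN.Loc

/-!
# Row Spl: splitting a matrix over `R_{d(1-d)}`

`M = {w : Fin 2 → K | (∀ i, InL d (w i)) ∧ ∀ i, InL (1 - d) ((τ⁻¹ w) i)}`, an `R`-submodule of `K²` (`τ⁻¹ = adjugate`, entries
`τ⁻¹ w = (τ₁₁ w₀ - τ₀₁ w₁, -τ₁₀ w₀ + τ₀₀ w₁)`); write `det w w' = w 0 * w' 1 - w 1 * w' 0`.
* For `w, w' ∈ M`: `det w w'` is in `R_d`, and in `R_{1-d}` since `det w w' = det (τ⁻¹ w) (τ⁻¹ w')` (`det τ = 1`). So (`InL.both`) it is
  `algebraMap (ω w w')` with `ω w w' ∈ R` (`choose`; `ω` is bilinear since `algebraMap R K` is injective).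
* `ω` is `RankTwo`: `alt` and `plu` hold in `K²`. `full`: let `N` be such that all `(d(1-d))^N τ_ij ∈ R` (common exponent). The vectors
  `d^N e_1, d^N e_2` are in `M` (`τ⁻¹ (d^N e_i)` has entries `± d^N τ_..`, in `R_{1-d}`), with `ω = d^(2N)`; the vectors
  `(1-d)^N τ e_1, (1-d)^N τ e_2` are in `M` (in `R_d²`; `τ⁻¹` of them is `(1-d)^N e_i`), with `ω = (1-d)^(2N)`.
  `d^(2N)` and `(1-d)^(2N)` generate the unit ideal.
* `hR` gives `w, w' ∈ M` with `ω w w' = 1`. `β` = the matrix with columns `w, w'`: `det β = 1`, entries in `R_d`. `γ = β⁻¹ τ = adj(β) τ`: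
  `adj(γ) = adj(τ) β = τ⁻¹ β` has entries in `R_{1-d}`, so `γ` also (`2 × 2`: the entries of `γ` are `±` those of `adj γ`). `det γ = 1`.
-/

set_option autoImplicit false

namespace STCI.UN

universe u

/-- the module `M` of row Spl -/
def splM {R : Type u} [CommRing R] {K : Type u} [Field K] [Algebra R K] (d : R)
    (τ : Matrix (Fin 2) (Fin 2) K) : Submodule R (Fin 2 → K) where
  carrier := {w | (∀ i, InL d (w i)) ∧ InL (1 - d) (τ 1 1 * w 0 - τ 0 1 * w 1) ∧
    InL (1 - d) (-(τ 1 0 * w 0) + τ 0 0 * w 1)}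
  zero_mem' := by
    refine ⟨fun i => ?_, ?_, ?_⟩
    · exact InL.zero d
    · simpa using InL.zero (K := K) (1 - d)
    · simpa using InL.zero (K := K) (1 - d)
  add_mem' := by
    rintro a b ⟨h1, h2, h3⟩ ⟨h4, h5, h6⟩
    refine ⟨fun i => (h1 i).add (h4 i), ?_, ?_⟩
    · have h := h2.add h5
      have e : τ 1 1 * (a + b) 0 - τ 0 1 * (a + b) 1 =
          τ 1 1 * a 0 - τ 0 1 * a 1 + (τ 1 1 * b 0 - τ 0 1 * b 1) := by
        simp only [Pi.add_apply]
        ring
      rw [e]
      exact h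
    · have h := h3.add h6
      have e : -(τ 1 0 * (a + b) 0) + τ 0 0 * (a + b) 1 =
          -(τ 1 0 * a 0) + τ 0 0 * a 1 + (-(τ 1 0 * b 0) + τ 0 0 * b 1) := by
        simp only [Pi.add_apply]
        ring
      rw [e]
      exact h
  smul_mem' := by
    rintro c a ⟨h1, h2, h3⟩
    refine ⟨fun i => (h1 i).smul c, ?_, ?_⟩
    · have h := h2.smul c
      have e : τ 1 1 * (c • a) 0 - τ 0 1 * (c • a) 1 = c • (τ 1 1 * a 0 - τ 0 1 * a 1) := by
        simp only [Pi.smul_apply, Algebra.smul_def]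
        ring
      rw [e]
      exact h
    · have h := h3.smul c
      have e : -(τ 1 0 * (c • a) 0) + τ 0 0 * (c • a) 1 =
          c • (-(τ 1 0 * a 0) + τ 0 0 * a 1) := by
        simp only [Pi.smul_apply, Algebra.smul_def]
        ring
      rw [e]
      exact h

theorem spl_mono {R : Type u} [CommRing R] {K : Type u} [Field K] [Algebra R K] (c : R) (x : K)
    (N M : ℕ) (hNM : N ≤ M) (h : ∃ r : R, algebraMap R K r = algebraMap R K c ^ N * x) :
    ∃ r : R, algebraMap R K r = algebraMap R K c ^ M * x := by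
  obtain ⟨r, hr⟩ := h
  refine ⟨c ^ (M - N) * r, ?_⟩
  rw [map_mul, hr, map_pow, ← mul_assoc, ← pow_add]
  congr 2
  omega

theorem split {R : Type u} [CommRing R] [IsDomain R] {K : Type u} [Field K] [Algebra R K]
    [IsFractionRing R K] (hR : QS.{u, u} R) (d : R) (hd : d ≠ 0) (hd1 : 1 - d ≠ 0)
    (τ : Matrix (Fin 2) (Fin 2) K) (hτ : τ.det = 1) (hin : ∀ i j, InL (d * (1 - d)) (τ i j)) :
    ∃ β γ : Matrix (Fin 2) (Fin 2) K, β.det = 1 ∧ γ.det = 1 ∧ τ = β * γ ∧
      (∀ i j, InL d (β i j)) ∧ ∀ i j, InL (1 - d) (γ i j) := by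
  have hinj : Function.Injective (algebraMap R K) := IsFractionRing.injective R K
  have hτ' : τ 0 0 * τ 1 1 - τ 0 1 * τ 1 0 = 1 := by
    rw [← hτ, Matrix.det_fin_two]
  have hex : ∀ w w' : splM d τ, ∃ r : R,
      algebraMap R K r = w.1 0 * w'.1 1 - w.1 1 * w'.1 0 := by
    rintro ⟨w, h1, h2, h3⟩ ⟨w', h1', h2', h3'⟩
    refine InL.both (((h1 0).mul (h1' 1)).sub ((h1 1).mul (h1' 0))) ?_
    have h := (h2.mul h3').sub (h3.mul h2')
    have e : w 0 * w' 1 - w 1 * w' 0 =
        (τ 1 1 * w 0 - τ 0 1 * w 1) * (-(τ 1 0 * w' 0) + τ 0 0 * w' 1) -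
        (-(τ 1 0 * w 0) + τ 0 0 * w 1) * (τ 1 1 * w' 0 - τ 0 1 * w' 1) := by
      linear_combination (w 1 * w' 0 - w 0 * w' 1) * hτ'
    show InL (1 - d) (w 0 * w' 1 - w 1 * w' 0)
    rw [e]
    exact h
  choose om hom using hex
  let ω : splM d τ →ₗ[R] splM d τ →ₗ[R] R := LinearMap.mk₂ R om
    (fun a b c => hinj (by
      rw [map_add, hom, hom, hom]
      simp only [Submodule.coe_add, Pi.add_apply]
      ring))
    (fun r a b => hinj (by
      rw [smul_eq_mul, map_mul, hom, hom]
      simp only [Submodule.coe_smul, Pi.smul_apply, Algebra.smul_def]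
      ring))
    (fun a b c => hinj (by
      rw [map_add, hom, hom, hom]
      simp only [Submodule.coe_add, Pi.add_apply]
      ring))
    (fun r a b => hinj (by
      rw [smul_eq_mul, map_mul, hom, hom]
      simp only [Submodule.coe_smul, Pi.smul_apply, Algebra.smul_def]
      ring))
  have hω : ∀ a b : splM d τ, algebraMap R K (ω a b) = a.1 0 * b.1 1 - a.1 1 * b.1 0 :=
    fun a b => hom a b
  -- common exponent
  choose Nf hNf using hin
  obtain ⟨N, hN⟩ : ∃ N, ∀ i j, Nf i j ≤ N := by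
    refine ⟨Nf 0 0 + Nf 0 1 + Nf 1 0 + Nf 1 1, ?_⟩
    intro i j
    fin_cases i <;> fin_cases j <;> simp only [Fin.zero_eta, Fin.mk_one, Fin.isValue] <;> omega
  have hr : ∀ i j, ∃ r : R, algebraMap R K r = algebraMap R K (d * (1 - d)) ^ N * τ i j :=
    fun i j => spl_mono _ _ _ _ (hN i j) (hNf i j)
  have hrd : ∀ i j, InL (1 - d) (algebraMap R K (d ^ N) * τ i j) := by
    intro i j
    obtain ⟨r, hr⟩ := hr i j
    refine ⟨N, r, ?_⟩
    rw [hr, map_mul, map_pow]
    ring
  have hr1 : ∀ i j, InL d (algebraMap R K ((1 - d) ^ N) * τ i j) := by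
    intro i j
    obtain ⟨r, hr⟩ := hr i j
    refine ⟨N, r, ?_⟩
    rw [hr, map_mul, map_pow]
    ring
  have hrank : RankTwo ω := by
    refine ⟨fun w => hinj ?_, fun a b w => ?_, ?_⟩
    · rw [hω, map_zero]
      ring
    · apply Subtype.ext
      funext i
      simp only [Submodule.coe_add, Submodule.coe_smul, Pi.add_apply, Pi.smul_apply]
      rw [Algebra.smul_def, Algebra.smul_def, Algebra.smul_def, hω, hω, hω]
      fin_cases i
      · simp only [Fin.zero_eta, Fin.isValue]
        ring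
      · simp only [Fin.mk_one, Fin.isValue]
        ring
    · -- the vectors
      let u1 : splM d τ := ⟨![algebraMap R K (d ^ N), 0], by
        refine ⟨?_, ?_, ?_⟩
        · intro i
          fin_cases i
          · exact InL.of d (d ^ N)
          · exact InL.zero d
        · have h := hrd 1 1
          simp only [Matrix.cons_val_zero, Matrix.cons_val_one, mul_zero, sub_zero]
          rwa [mul_comm]
        · have h := (hrd 1 0).neg
          simp only [Matrix.cons_val_zero, Matrix.cons_val_one, mul_zero, add_zero]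
          rwa [mul_comm]⟩
      let u2 : splM d τ := ⟨![0, algebraMap R K (d ^ N)], by
        refine ⟨?_, ?_, ?_⟩
        · intro i
          fin_cases i
          · exact InL.zero d
          · exact InL.of d (d ^ N)
        · have h := (hrd 0 1).neg
          simp only [Matrix.cons_val_zero, Matrix.cons_val_one, mul_zero, zero_sub]
          rwa [mul_comm]
        · have h := hrd 0 0
          simp only [Matrix.cons_val_zero, Matrix.cons_val_one, mul_zero, neg_zero, zero_add]
          rwa [mul_comm]⟩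
      let v1 : splM d τ := ⟨![algebraMap R K ((1 - d) ^ N) * τ 0 0,
          algebraMap R K ((1 - d) ^ N) * τ 1 0], by
        refine ⟨?_, ?_, ?_⟩
        · intro i
          fin_cases i
          · exact hr1 0 0
          · exact hr1 1 0
        · have h := InL.of (K := K) (1 - d) ((1 - d) ^ N)
          have e : τ 1 1 * (algebraMap R K ((1 - d) ^ N) * τ 0 0) -
              τ 0 1 * (algebraMap R K ((1 - d) ^ N) * τ 1 0) =
              algebraMap R K ((1 - d) ^ N) := by
            linear_combination algebraMap R K ((1 - d) ^ N) * hτ'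
          simp only [Matrix.cons_val_zero, Matrix.cons_val_one]
          rw [e]
          exact h
        · have h := InL.zero (K := K) (1 - d)
          have e : -(τ 1 0 * (algebraMap R K ((1 - d) ^ N) * τ 0 0)) +
              τ 0 0 * (algebraMap R K ((1 - d) ^ N) * τ 1 0) = 0 := by
            ring
          simp only [Matrix.cons_val_zero, Matrix.cons_val_one]
          rw [e]
          exact h⟩
      let v2 : splM d τ := ⟨![algebraMap R K ((1 - d) ^ N) * τ 0 1,
          algebraMap R K ((1 - d) ^ N) * τ 1 1], by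
        refine ⟨?_, ?_, ?_⟩
        · intro i
          fin_cases i
          · exact hr1 0 1
          · exact hr1 1 1
        · have h := InL.zero (K := K) (1 - d)
          have e : τ 1 1 * (algebraMap R K ((1 - d) ^ N) * τ 0 1) -
              τ 0 1 * (algebraMap R K ((1 - d) ^ N) * τ 1 1) = 0 := by
            ring
          simp only [Matrix.cons_val_zero, Matrix.cons_val_one]
          rw [e]
          exact h
        · have h := InL.of (K := K) (1 - d) ((1 - d) ^ N)
          have e : -(τ 1 0 * (algebraMap R K ((1 - d) ^ N) * τ 0 1)) +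
              τ 0 0 * (algebraMap R K ((1 - d) ^ N) * τ 1 1) =
              algebraMap R K ((1 - d) ^ N) := by
            linear_combination algebraMap R K ((1 - d) ^ N) * hτ'
          simp only [Matrix.cons_val_zero, Matrix.cons_val_one]
          rw [e]
          exact h⟩
      have e1 : ω u1 u2 = d ^ N * d ^ N := by
        apply hinj
        rw [hω, map_mul]
        simp [u1, u2]
      have e2 : ω v1 v2 = (1 - d) ^ N * (1 - d) ^ N := by
        apply hinj
        rw [hω, map_mul]
        simp only [v1, v2, Matrix.cons_val_zero, Matrix.cons_val_one]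
        linear_combination (algebraMap R K ((1 - d) ^ N) * algebraMap R K ((1 - d) ^ N)) * hτ'
      rw [Ideal.eq_top_iff_one]
      have hcop : IsCoprime (d ^ N * d ^ N) ((1 - d) ^ N * (1 - d) ^ N) := by
        rw [← pow_add, ← pow_add]
        exact IsCoprime.pow ⟨1, 1, by ring⟩
      obtain ⟨a, b, hab⟩ := hcop
      rw [← hab, ← e1, ← e2]
      exact Ideal.add_mem _
        (Ideal.mul_mem_left _ _ (Ideal.subset_span ⟨(u1, u2), rfl⟩))
        (Ideal.mul_mem_left _ _ (Ideal.subset_span ⟨(v1, v2), rfl⟩))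
  obtain ⟨a, b, hab⟩ := hR (splM d τ) ω hrank
  have hD : a.1 0 * b.1 1 - a.1 1 * b.1 0 = 1 := by
    rw [← hω, hab, map_one]
  obtain ⟨a, ha1, ha2, ha3⟩ := a
  obtain ⟨b, hb1, hb2, hb3⟩ := b
  simp only at hD
  refine ⟨!![a 0, b 0; a 1, b 1], !![b 1 * τ 0 0 - b 0 * τ 1 0, b 1 * τ 0 1 - b 0 * τ 1 1;
    -(a 1 * τ 0 0) + a 0 * τ 1 0, -(a 1 * τ 0 1) + a 0 * τ 1 1], ?_, ?_, ?_, ?_, ?_⟩
  · rw [Matrix.det_fin_two_of]
    linear_combination hD
  · rw [Matrix.det_fin_two_of]
    linear_combination (a 0 * b 1 - a 1 * b 0) * hτ' + hD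
  · ext i j
    fin_cases i <;> fin_cases j <;>
      simp only [Fin.zero_eta, Fin.mk_one, Fin.isValue, Matrix.mul_apply, Fin.sum_univ_two,
        Matrix.of_apply, Matrix.cons_val', Matrix.cons_val_zero, Matrix.cons_val_one,
        Matrix.cons_val_fin_one]
    · linear_combination (-τ 0 0) * hD
    · linear_combination (-τ 0 1) * hD
    · linear_combination (-τ 1 0) * hD
    · linear_combination (-τ 1 1) * hD
  · intro i j
    fin_cases i <;> fin_cases j
    · exact ha1 0
    · exact hb1 0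
    · exact ha1 1
    · exact hb1 1
  · intro i j
    fin_cases i <;> fin_cases j
    · have e : b 1 * τ 0 0 - b 0 * τ 1 0 = -(τ 1 0 * b 0) + τ 0 0 * b 1 := by ring
      show InL (1 - d) (b 1 * τ 0 0 - b 0 * τ 1 0)
      rw [e]
      exact hb3
    · have e : b 1 * τ 0 1 - b 0 * τ 1 1 = -(τ 1 1 * b 0 - τ 0 1 * b 1) := by ring
      show InL (1 - d) (b 1 * τ 0 1 - b 0 * τ 1 1)
      rw [e]
      exact hb2.neg
    · have e : -(a 1 * τ 0 0) + a 0 * τ 1 0 = -(-(τ 1 0 * a 0) + τ 0 0 * a 1) := by ring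
      show InL (1 - d) (-(a 1 * τ 0 0) + a 0 * τ 1 0)
      rw [e]
      exact ha3.neg
    · have e : -(a 1 * τ 0 1) + a 0 * τ 1 1 = τ 1 1 * a 0 - τ 0 1 * a 1 := by ring
      show InL (1 - d) (-(a 1 * τ 0 1) + a 0 * τ 1 1)
      rw [e]
      exact ha2

end STCI.UN
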