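import Pool.Agent.H41.UN.Defs

/-!
# The transition matrix of the union theorem
-/

set_option autoImplicit false

namespace STCI.UN

universe u

variable {S : Type u} [CommRing S]

theorem mem_pair_sq {x y z : S} (hz : z ∈ (Ideal.span {x, y} : Ideal S) ^ 2) :
    ∃ p q : S, p ∈ (Ideal.span {x, y} : Ideal S) ∧ q ∈ (Ideal.span {x, y} : Ideal S) ∧
      z = p * x + q * y := by
  rw [sq] at hz
  refine Submodule.mul_induction_on hz ?_ ?_
  · intro m hm n hn
    obtain ⟨a, b, rfl⟩ := Ideal.mem_span_pair.1 hn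
    exact ⟨m * a, m * b, Ideal.mul_mem_right _ _ hm, Ideal.mul_mem_right _ _ hm, by ring⟩
  · rintro m n ⟨p, q, hp, hq, rfl⟩ ⟨p', q', hp', hq', rfl⟩
    exact ⟨p + p', q + q', Ideal.add_mem _ hp hp', Ideal.add_mem _ hq hq', by ring⟩

theorem pair_sq_le {u v : S} {I : Ideal S} (h1 : u ^ 2 ∈ I) (h2 : u * v ∈ I) (h3 : v ^ 2 ∈ I) :
    (Ideal.span {u, v} : Ideal S) ^ 2 ≤ I := by
  rw [sq, Ideal.mul_le]
  intro r hr s hs
  obtain ⟨a, b, rfl⟩ := Ideal.mem_span_pair.1 hr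
  obtain ⟨c, d, rfl⟩ := Ideal.mem_span_pair.1 hs
  have : (a * u + b * v) * (c * u + d * v) =
      (a * c) * u ^ 2 + (a * d + b * c) * (u * v) + (b * d) * v ^ 2 := by ring
  rw [this]
  exact Ideal.add_mem _ (Ideal.add_mem _ (Ideal.mul_mem_left _ _ h1) (Ideal.mul_mem_left _ _ h2))
    (Ideal.mul_mem_left _ _ h3)

theorem tau (u v g a b κ ε δ δ' h : S) (hh : h = a * u + b * v)
    (ha : a ∈ (Ideal.span {u, v} : Ideal S) ^ 4) (hb : b ∈ (Ideal.span {u, v} : Ideal S) ^ 4)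
    (hκ : κ ∈ (Ideal.span {u, v} : Ideal S) ^ 4)
    (hδ : δ = ε * g ^ 3 + κ) (hδ' : δ * δ' = 1) (hgh : IsCoprime g h) :
    ∃ p q r t : S, p * t - q * r = 1 ∧
      δ * (g * u - b * h) - g ^ 3 * (g * v + a * h) = p * (v - ε * u) + q * u ^ 2 ∧
      -(δ' ^ 2) * (g * v + a * h) ^ 2 = r * (v - ε * u) + t * u ^ 2 := by
  set J : Ideal S := Ideal.span {u, v} with hJ
  set J' : Ideal S := Ideal.span {v - ε * u, u ^ 2} with hJ'
  have hm1 : v - ε * u ∈ J' := Ideal.subset_span (by simp)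
  have hm2 : u ^ 2 ∈ J' := Ideal.subset_span (by simp)
  have hJJ : J ^ 2 ≤ J' := by
    refine pair_sq_le hm2 ?_ ?_
    · have : u * v = u * (v - ε * u) + ε * u ^ 2 := by ring
      rw [this]
      exact Ideal.add_mem _ (Ideal.mul_mem_left _ _ hm1) (Ideal.mul_mem_left _ _ hm2)
    · have : v ^ 2 = (v + ε * u) * (v - ε * u) + ε ^ 2 * u ^ 2 := by ring
      rw [this]
      exact Ideal.add_mem _ (Ideal.mul_mem_left _ _ hm1) (Ideal.mul_mem_left _ _ hm2)
  have hJ4 : J ^ 4 ≤ J' ^ 2 := by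
    have : J ^ 4 = (J ^ 2) ^ 2 := by rw [← pow_mul]
    rw [this]
    exact Ideal.pow_right_mono hJJ 2
  have hJ42 : J ^ 4 ≤ J' := (Ideal.pow_le_pow_right (by norm_num : 2 ≤ 4)).trans hJJ
  have huJ : u ∈ J := Ideal.subset_span (by simp)
  have hvJ : v ∈ J := Ideal.subset_span (by simp)
  -- the two error terms
  obtain ⟨x1, y1, hx1, hy1, h1⟩ : ∃ p q : S, p ∈ J' ∧ q ∈ J' ∧
      κ * g * u - δ * b * h - g ^ 3 * a * h = p * (v - ε * u) + q * u ^ 2 := by
    refine mem_pair_sq (hJ4 ?_)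
    refine Ideal.sub_mem _ (Ideal.sub_mem _ ?_ ?_) ?_
    · exact Ideal.mul_mem_right _ _ (Ideal.mul_mem_right _ _ hκ)
    · exact Ideal.mul_mem_right _ _ (Ideal.mul_mem_left _ _ hb)
    · exact Ideal.mul_mem_right _ _ (Ideal.mul_mem_left _ _ ha)
  obtain ⟨x2, y2, hx2, hy2, h2⟩ : ∃ p q : S, p ∈ J' ∧ q ∈ J' ∧
      2 * g * v * a * h + a ^ 2 * h ^ 2 = p * (v - ε * u) + q * u ^ 2 := by
    refine mem_pair_sq (hJ4 ?_)
    refine Ideal.add_mem _ ?_ ?_
    · exact Ideal.mul_mem_right _ _ (Ideal.mul_mem_left _ _ ha)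
    · rw [sq a]
      exact Ideal.mul_mem_right _ _ (Ideal.mul_mem_left _ _ ha)
  set F : S := g * u - b * h with hF
  set G : S := g * v + a * h with hG
  set e1 : S := δ * F - g ^ 3 * G with he1
  set e2 : S := -(δ' ^ 2) * G ^ 2 with he2
  have hE1 : e1 = (-g ^ 4 + x1) * (v - ε * u) + y1 * u ^ 2 := by
    rw [he1, hF, hG]
    linear_combination h1 + g * u * hδ
  have hE2 : e2 = (-(δ' ^ 2) * (g ^ 2 * (v + ε * u) + x2)) * (v - ε * u) +
      (-(δ' ^ 2) * (g ^ 2 * ε ^ 2 + y2)) * u ^ 2 := by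
    rw [he2, hG]
    linear_combination (-(δ' ^ 2)) * h2
  set p0 := -g ^ 4 + x1 with hp0
  set r0 := -(δ' ^ 2) * (g ^ 2 * (v + ε * u) + x2) with hr0
  set t0 := -(δ' ^ 2) * (g ^ 2 * ε ^ 2 + y2) with ht0
  have hω : p0 * t0 - y1 * r0 - 1 ∈ J' := by
    have : p0 * t0 - y1 * r0 - 1 = x1 * t0 + (g ^ 4 * δ' ^ 2) * y2 - y1 * r0 -
        (δ' ^ 2 * (2 * ε * g ^ 3 + κ)) * κ := by
      rw [hp0, ht0, hr0]
      have h3 : δ' ^ 2 * (ε * g ^ 3 + κ) ^ 2 = 1 := by
        rw [← hδ]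
        linear_combination (δ * δ' + 1) * hδ'
      linear_combination h3
    rw [this]
    exact Ideal.sub_mem _ (Ideal.sub_mem _ (Ideal.add_mem _ (Ideal.mul_mem_right _ _ hx1)
      (Ideal.mul_mem_left _ _ hy2)) (Ideal.mul_mem_right _ _ hy1))
      (Ideal.mul_mem_left _ _ (hJ42 hκ))
  -- the ideal generated by e1, e2
  set E : Ideal S := Ideal.span {e1, e2} with hE
  have hEe1 : e1 ∈ E := Ideal.subset_span (by simp)
  have hEe2 : e2 ∈ E := Ideal.subset_span (by simp)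
  have hGG : G ^ 2 ∈ E := by
    have : G ^ 2 = (-δ ^ 2) * e2 := by
      rw [he2]
      linear_combination (-(δ * δ' + 1) * G ^ 2) * hδ'
    rw [this]
    exact Ideal.mul_mem_left _ _ hEe2
  have hFG : F * G ∈ E := by
    have : F * G = (δ' * G) * e1 + (δ' * g ^ 3) * G ^ 2 := by
      rw [he1]
      linear_combination (-F * G) * hδ'
    rw [this]
    exact Ideal.add_mem _ (Ideal.mul_mem_left _ _ hEe1) (Ideal.mul_mem_left _ _ hGG)
  have hFF : F ^ 2 ∈ E := by
    have : F ^ 2 = (δ' * F) * e1 + (δ' * g ^ 3) * (F * G) := by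
      rw [he1]
      linear_combination (-F ^ 2) * hδ'
    rw [this]
    exact Ideal.add_mem _ (Ideal.mul_mem_left _ _ hEe1) (Ideal.mul_mem_left _ _ hFG)
  have hFGJ : J ≤ Ideal.span {F, G} := by
    obtain ⟨x, y, hxy⟩ := hgh
    have hF' : F ∈ (Ideal.span {F, G} : Ideal S) := Ideal.subset_span (by simp)
    have hG' : G ∈ (Ideal.span {F, G} : Ideal S) := Ideal.subset_span (by simp)
    have hgh' : g * h ∈ (Ideal.span {F, G} : Ideal S) := by
      have : g * h = a * F + b * G := by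
        rw [hF, hG]
        linear_combination g * hh
      rw [this]
      exact Ideal.add_mem _ (Ideal.mul_mem_left _ _ hF') (Ideal.mul_mem_left _ _ hG')
    have hhh : h ^ 2 ∈ (Ideal.span {F, G} : Ideal S) := by
      have : h ^ 2 = u * G - v * F := by
        rw [hF, hG]
        linear_combination h * hh
      rw [this]
      exact Ideal.sub_mem _ (Ideal.mul_mem_left _ _ hG') (Ideal.mul_mem_left _ _ hF')
    have hhm : h ∈ (Ideal.span {F, G} : Ideal S) := by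
      have : h = x * (g * h) + y * h ^ 2 := by linear_combination (-h) * hxy
      rw [this]
      exact Ideal.add_mem _ (Ideal.mul_mem_left _ _ hgh') (Ideal.mul_mem_left _ _ hhh)
    rw [hJ, Ideal.span_le]
    rintro w (rfl | rfl)
    · have : w = x * F + (x * b + y * w) * h := by
        rw [hF]
        linear_combination (-w) * hxy
      exact this ▸ Ideal.add_mem _ (Ideal.mul_mem_left _ _ hF') (Ideal.mul_mem_left _ _ hhm)
    · have : w = x * G + (-x * a + y * w) * h := by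
        rw [hG]
        linear_combination (-w) * hxy
      exact this ▸ Ideal.add_mem _ (Ideal.mul_mem_left _ _ hG') (Ideal.mul_mem_left _ _ hhm)
  have hJE : J ^ 2 ≤ E := (Ideal.pow_right_mono hFGJ 2).trans (pair_sq_le hFF hFG hGG)
  have hJ'J : J' ≤ J := by
    rw [hJ', Ideal.span_le]
    rintro w (rfl | rfl)
    · exact Ideal.sub_mem _ hvJ (Ideal.mul_mem_left _ _ huJ)
    · exact Ideal.pow_mem_of_mem _ huJ 2 (by norm_num)
  have hJ'E : J' ≤ E := by
    have key : ∀ w ∈ J', (p0 * t0 - y1 * r0) * w ∈ E → w ∈ E := by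
      intro w hw h3
      have h4 : (p0 * t0 - y1 * r0 - 1) * w ∈ E := by
        apply hJE
        rw [sq]
        exact Ideal.mul_mem_mul (hJ'J hω) (hJ'J hw)
      have : w = (p0 * t0 - y1 * r0) * w - (p0 * t0 - y1 * r0 - 1) * w := by ring
      rw [this]
      exact Ideal.sub_mem _ h3 h4
    rw [hJ', Ideal.span_le]
    rintro w (rfl | rfl)
    · refine key _ hm1 ?_
      have : (p0 * t0 - y1 * r0) * (v - ε * u) = t0 * e1 - y1 * e2 := by
        rw [hE1, hE2]
        ring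
      rw [this]
      exact Ideal.sub_mem _ (Ideal.mul_mem_left _ _ hEe1) (Ideal.mul_mem_left _ _ hEe2)
    · refine key _ hm2 ?_
      have : (p0 * t0 - y1 * r0) * u ^ 2 = p0 * e2 - r0 * e1 := by
        rw [hE1, hE2]
        ring
      rw [this]
      exact Ideal.sub_mem _ (Ideal.mul_mem_left _ _ hEe2) (Ideal.mul_mem_left _ _ hEe1)
  obtain ⟨α, β, hαβ⟩ := Ideal.mem_span_pair.1 (hJ'E hω)
  refine ⟨p0 - β * u ^ 2, y1 + β * (v - ε * u), r0 + α * u ^ 2, t0 - α * (v - ε * u), ?_, ?_, ?_⟩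
  · linear_combination (-1 : S) * hαβ + α * hE1 + β * hE2
  · rw [hE1]
    ring
  · rw [hE2]
    ring

end STCI.UN
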