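import Pool.Agent.H41.UN.Spl
import Pool.Agent.H41.UN.Tau

/-!
# The union of two set-theoretic complete intersections, given the separating function `d`
-/

set_option autoImplicit false

namespace STCI.UN

universe u

/-- transfer of membership in a prime `q` not containing `c` through coefficients in `R_c` -/
theorem mem_of_comb {R : Type u} [CommRing R] {K : Type u} [Field K]
    [Algebra R K] (hinj : Function.Injective (algebraMap R K)) (c : R) (q : Ideal R) [q.IsPrime]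
    (hc : c ∉ q) {x y z : R} {s t : K} (hx : x ∈ q) (hy : y ∈ q) (hs : InL c s)
    (ht : InL c t)
    (h : algebraMap R K z = s * algebraMap R K x + t * algebraMap R K y) :
    z ∈ q := by
  obtain ⟨N, r, hr⟩ := hs
  obtain ⟨M, r', hr'⟩ := ht
  have h1 : c ^ (N + M) * z = (c ^ M * r) * x + (c ^ N * r') * y := by
    apply hinj
    rw [map_add, map_mul, map_mul, map_mul, map_mul, map_mul, hr, hr', map_pow, map_pow, map_pow,
      h]
    ring
  have h2 : c ^ (N + M) * z ∈ q := by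
    rw [h1]
    exact Ideal.add_mem _ (Ideal.mul_mem_left _ _ hx) (Ideal.mul_mem_left _ _ hy)
  exact (Ideal.IsPrime.mem_or_mem ‹q.IsPrime› h2).resolve_left
    fun h3 => hc (Ideal.IsPrime.mem_of_pow_mem ‹q.IsPrime› _ h3)

/-- step (1) -/
theorem exists_pow_five {R : Type u} [CommRing R] {u v G' : R}
    (h : G' ∈ (Ideal.span {u, v} : Ideal R).radical) :
    ∃ (n : ℕ) (a b : R), 0 < n ∧ a ∈ (Ideal.span {u, v} : Ideal R) ^ 4 ∧
      b ∈ (Ideal.span {u, v} : Ideal R) ^ 4 ∧ G' ^ n = a * u + b * v := by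
  obtain ⟨m, hm⟩ := h
  have h1 : G' ^ ((m + 1) * 5) ∈ (Ideal.span {u, v} : Ideal R) ^ 4 * Ideal.span {u, v} := by
    rw [← pow_succ, pow_mul]
    refine Ideal.pow_mem_pow ?_ 5
    rw [pow_succ]
    exact Ideal.mul_mem_right _ _ hm
  obtain ⟨a, b, ha, hb, hab⟩ : ∃ p q : R, p ∈ (Ideal.span {u, v} : Ideal R) ^ 4 ∧
      q ∈ (Ideal.span {u, v} : Ideal R) ^ 4 ∧ G' ^ ((m + 1) * 5) = p * u + q * v := by
    refine Submodule.mul_induction_on h1 ?_ ?_
    · intro m hm n hn
      obtain ⟨a, b, rfl⟩ := Ideal.mem_span_pair.1 hn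
      exact ⟨m * a, m * b, Ideal.mul_mem_right _ _ hm, Ideal.mul_mem_right _ _ hm, by ring⟩
    · rintro m n ⟨p, q, hp, hq, rfl⟩ ⟨p', q', hp', hq', rfl⟩
      exact ⟨p + p', q + q', Ideal.add_mem _ hp hp', Ideal.add_mem _ hq hq', by ring⟩
  exact ⟨(m + 1) * 5, a, b, by positivity, ha, hb, hab⟩

theorem mem_radical_iff_prime {R : Type u} [CommRing R] (I : Ideal R) (x : R) :
    x ∈ I.radical ↔ ∀ q : Ideal R, q.IsPrime → I ≤ q → x ∈ q := by
  rw [Ideal.radical_eq_sInf, Submodule.mem_sInf]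
  constructor
  · intro h q hq hI
    exact h q ⟨hI, hq⟩
  · rintro h q ⟨hI, hq⟩
    exact h q hq hI

theorem radical_eq_of_prime {R : Type u} [CommRing R] {I J : Ideal R} (hJ : J.IsRadical)
    (h : ∀ q : Ideal R, q.IsPrime → (I ≤ q ↔ J ≤ q)) : I.radical = J := by
  rw [← hJ.radical]
  ext x
  rw [mem_radical_iff_prime, mem_radical_iff_prime]
  constructor
  · intro h1 q hq hq'
    exact h1 q hq ((h q hq).2 hq')
  · intro h1 q hq hq'
    exact h1 q hq ((h q hq).1 hq')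

theorem span_pair_le_iff {R : Type u} [CommRing R] {x y : R} {I : Ideal R} :
    Ideal.span {x, y} ≤ I ↔ x ∈ I ∧ y ∈ I := by
  rw [Ideal.span_le]
  constructor
  · intro h
    exact ⟨h (by simp), h (by simp)⟩
  · rintro ⟨h1, h2⟩ w (rfl | rfl)
    · exact h1
    · exact h2

/-- step (2) -/
theorem chart_iff {R : Type u} [CommRing R] (f g u v d ρ : R) (D n : ℕ) (hn : 0 < n) (a b h : R)
    (ha : a ∈ (Ideal.span {u, v} : Ideal R)) (hb : b ∈ (Ideal.span {u, v} : Ideal R))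
    (hh : h = a * u + b * v) (hh' : (d * f ^ (D + 1) + g * ρ) ^ n = h)
    (q : Ideal R) [hq : q.IsPrime] (hd : d ∉ q) :
    (g * u - b * h ∈ q ∧ g * v + a * h ∈ q) ↔
      ((f ∈ q ∧ g ∈ q) ∨ (u ∈ q ∧ v ∈ q)) := by
  constructor
  · rintro ⟨hF, hG⟩
    have h1 : h ^ 2 ∈ q := by
      have : h ^ 2 = u * (g * v + a * h) - v * (g * u - b * h) := by
        linear_combination h * hh
      rw [this]
      exact Ideal.sub_mem _ (Ideal.mul_mem_left _ _ hG) (Ideal.mul_mem_left _ _ hF)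
    have h2 : h ∈ q := hq.mem_of_pow_mem _ h1
    have h3 : g * u ∈ q := by
      have : g * u = (g * u - b * h) + b * h := by ring
      rw [this]
      exact Ideal.add_mem _ hF (Ideal.mul_mem_left _ _ h2)
    have h4 : g * v ∈ q := by
      have : g * v = (g * v + a * h) - a * h := by ring
      rw [this]
      exact Ideal.sub_mem _ hG (Ideal.mul_mem_left _ _ h2)
    by_cases hg : g ∈ q
    · left
      refine ⟨?_, hg⟩
      rw [← hh'] at h2
      have h5 := hq.mem_of_pow_mem _ h2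
      have h6 : d * f ^ (D + 1) ∈ q := by
        have : d * f ^ (D + 1) = (d * f ^ (D + 1) + g * ρ) - ρ * g := by ring
        rw [this]
        exact Ideal.sub_mem _ h5 (Ideal.mul_mem_left _ _ hg)
      exact hq.mem_of_pow_mem _ ((hq.mem_or_mem h6).resolve_left hd)
    · exact Or.inr ⟨(hq.mem_or_mem h3).resolve_left hg, (hq.mem_or_mem h4).resolve_left hg⟩
  · rintro (⟨hf, hg⟩ | ⟨hu, hv⟩)
    · have h5 : h ∈ q := by
        rw [← hh']
        refine Ideal.pow_mem_of_mem _ ?_ n hn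
        exact Ideal.add_mem _ (Ideal.mul_mem_left _ _ (Ideal.pow_mem_of_mem _ hf _ (by omega)))
          (Ideal.mul_mem_right _ _ hg)
      exact ⟨Ideal.sub_mem _ (Ideal.mul_mem_right _ _ hg) (Ideal.mul_mem_left _ _ h5),
        Ideal.add_mem _ (Ideal.mul_mem_right _ _ hg) (Ideal.mul_mem_left _ _ h5)⟩
    · have hle : Ideal.span {u, v} ≤ q := span_pair_le_iff.2 ⟨hu, hv⟩
      exact ⟨Ideal.sub_mem _ (Ideal.mul_mem_left _ _ hu) (Ideal.mul_mem_right _ _ (hle hb)),
        Ideal.add_mem _ (Ideal.mul_mem_left _ _ hv) (Ideal.mul_mem_right _ _ (hle ha))⟩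

theorem map_mem_pow {R S : Type u} [CommRing R] [CommRing S] (φ : R →+* S) {u v x : R} {n : ℕ}
    (hx : x ∈ (Ideal.span {u, v} : Ideal R) ^ n) :
    φ x ∈ (Ideal.span {φ u, φ v} : Ideal S) ^ n := by
  have h := Ideal.mem_map_of_mem φ hx
  rwa [Ideal.map_pow, Ideal.map_span, Set.image_pair] at h

theorem union_of_data {R : Type u} [CommRing R] [IsDomain R] (hR : QS.{u, u} R)
    (f g u v d ρ : R) (D : ℕ) (hd : d - 1 ∈ (Ideal.span {f, g} : Ideal R).radical)
    (h : d * f ^ (D + 1) + g * ρ ∈ (Ideal.span {u, v} : Ideal R).radical) :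
    TwoEq ((Ideal.span {f, g} : Ideal R).radical ⊓ (Ideal.span {u, v} : Ideal R).radical) := by
  have hJrad : ((Ideal.span {f, g} : Ideal R).radical ⊓
      (Ideal.span {u, v} : Ideal R).radical).IsRadical :=
    (Ideal.radical_isRadical _).inf (Ideal.radical_isRadical _)
  have hinfle : ∀ q : Ideal R, q.IsPrime → ((Ideal.span {f, g} : Ideal R).radical ⊓
      (Ideal.span {u, v} : Ideal R).radical ≤ q ↔ ((f ∈ q ∧ g ∈ q) ∨ (u ∈ q ∧ v ∈ q))) := by
    intro q hq
    rw [hq.inf_le, hq.radical_le_iff, hq.radical_le_iff, span_pair_le_iff, span_pair_le_iff]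
  have hXd : ∀ q : Ideal R, q.IsPrime → f ∈ q → g ∈ q → d - 1 ∈ q := by
    intro q hq h1 h2
    exact (mem_radical_iff_prime _ _).1 hd q hq (span_pair_le_iff.2 ⟨h1, h2⟩)
  obtain ⟨n, a, b, hn, ha, hb, hab⟩ := exists_pow_five h
  have hJ41 : (Ideal.span {u, v} : Ideal R) ^ 4 ≤ Ideal.span {u, v} :=
    Ideal.pow_le_self (by norm_num)
  obtain ⟨w, hw⟩ : ∃ w, w = a * u + b * v := ⟨_, rfl⟩
  have hwn : (d * f ^ (D + 1) + g * ρ) ^ n = w := hab.trans hw.symm
  have hchart : ∀ q : Ideal R, q.IsPrime → d ∉ q → (g * u - b * w ∈ q ∧ g * v + a * w ∈ q ↔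
      ((f ∈ q ∧ g ∈ q) ∨ (u ∈ q ∧ v ∈ q))) := fun q hq hdq =>
    chart_iff f g u v d ρ D n hn a b w (hJ41 ha) (hJ41 hb) hw hwn q hdq
  by_cases hd1 : d = 1
  · refine ⟨g * u - b * w, g * v + a * w, radical_eq_of_prime hJrad fun q hq => ?_⟩
    rw [span_pair_le_iff, hinfle q hq]
    exact hchart q hq (by rw [hd1]; exact (Ideal.ne_top_iff_one q).1 hq.ne_top)
  by_cases hd0 : d = 0
  · refine ⟨u, v, radical_eq_of_prime hJrad fun q hq => ?_⟩
    rw [span_pair_le_iff, hinfle q hq]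
    refine ⟨Or.inr, ?_⟩
    rintro (⟨h1, h2⟩ | h1)
    · exfalso
      have h3 := hXd q hq h1 h2
      rw [hd0, zero_sub] at h3
      exact (Ideal.ne_top_iff_one q).1 hq.ne_top (by simpa using neg_mem h3)
    · exact h1
  -- (4)
  have hc : d * (1 - d) ∈ (Ideal.span {g ^ 3, w} : Ideal R).radical := by
    refine (mem_radical_iff_prime _ _).2 fun q hq hle => ?_
    obtain ⟨h1, h2⟩ := span_pair_le_iff.1 hle
    have hg := hq.mem_of_pow_mem _ h1
    rw [← hwn] at h2
    have h3 := hq.mem_of_pow_mem _ h2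
    have h4 : d * f ^ (D + 1) ∈ q := by
      have : d * f ^ (D + 1) = (d * f ^ (D + 1) + g * ρ) - ρ * g := by ring
      rw [this]
      exact Ideal.sub_mem _ h3 (Ideal.mul_mem_left _ _ hg)
    rcases hq.mem_or_mem h4 with h5 | h5
    · exact Ideal.mul_mem_right _ _ h5
    · have h6 := hXd q hq (hq.mem_of_pow_mem _ h5) hg
      exact Ideal.mul_mem_left _ _ (by rw [← neg_sub]; exact neg_mem h6)
  obtain ⟨m, hm⟩ := hc
  obtain ⟨ε', κ', hεκ⟩ := Ideal.mem_span_pair.1 hm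
  obtain ⟨c, hcd⟩ : ∃ c, c = d * (1 - d) := ⟨_, rfl⟩
  rw [← hcd] at hεκ
  have hd1' : 1 - d ≠ 0 := sub_ne_zero.2 (Ne.symm hd1)
  have hc0 : c ≠ 0 := by rw [hcd]; exact mul_ne_zero hd0 hd1'
  let K := FractionRing R
  have hinj : Function.Injective (algebraMap R K) := IsFractionRing.injective R K
  have hcu : IsUnit (algebraMap R K c) := isUnit_iff_ne_zero.2 ((map_ne_zero_iff _ hinj).2 hc0)
  let S := Localization.Away c
  let ι : R →+* S := algebraMap R S
  let ψ : S →+* K := IsLocalization.Away.lift c hcu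
  have hψ : ∀ r, ψ (ι r) = algebraMap R K r := fun r => IsLocalization.Away.lift_eq c hcu r
  have hin : ∀ x : S, InL c (ψ x) := by
    intro x
    obtain ⟨N, r, hr⟩ := IsLocalization.Away.surj c x
    refine ⟨N, r, ?_⟩
    have h1 := congrArg ψ hr
    rw [map_mul, map_pow] at h1
    rw [← hψ r, ← hψ c]
    rw [← h1]
    ring
  obtain ⟨ci, hci⟩ : ∃ ci : S, ci * ι c = 1 :=
    (IsLocalization.Away.algebraMap_isUnit (S := S) c).exists_left_inv
  have hιc : ι c = ι d * ι (1 - d) := (congrArg ι hcd).trans (map_mul ι _ _)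
  have hεκ' : ι ε' * ι g ^ 3 + ι κ' * ι w = ι c ^ m := by
    rw [← map_pow, ← map_pow, ← map_mul, ← map_mul, ← map_add, hεκ]
  have hwS : ι w = ι a * ι u + ι b * ι v := by rw [hw, map_add, map_mul, map_mul]
  have hκmem : κ' * w ∈ (Ideal.span {u, v} : Ideal R) ^ 4 := by
    rw [hw]
    exact Ideal.mul_mem_left _ _ (Ideal.add_mem _ (Ideal.mul_mem_right _ _ ha)
      (Ideal.mul_mem_right _ _ hb))
  have hunit : (ci * ι d) ^ m * ι (1 - d) ^ m = 1 := by
    rw [← mul_pow, mul_assoc, ← hιc, hci, one_pow]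
  have hunit' : (ci * ι (1 - d)) ^ m * ι d ^ m = 1 := by
    rw [← mul_pow, mul_assoc, mul_comm (ι (1 - d)), ← hιc, hci, one_pow]
  have hcm : ι c ^ m = ι d ^ m * ι (1 - d) ^ m := by rw [hιc, mul_pow]
  obtain ⟨p, q, r, t, hdet, he1, he2⟩ := tau (ι u) (ι v) (ι g) (ι a) (ι b)
    (ι (κ' * w) * (ci * ι d) ^ m) (ι ε' * (ci * ι d) ^ m) (ι d ^ m) ((ci * ι (1 - d)) ^ m) (ι w)
    hwS (map_mem_pow ι ha) (map_mem_pow ι hb) (Ideal.mul_mem_right _ _ (map_mem_pow ι hκmem))
    (by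
      rw [map_mul]
      linear_combination (-(ι d ^ m)) * hunit - (ci * ι d) ^ m * (hεκ' + hcm)) (by
      rw [mul_comm]
      exact hunit') ⟨ci ^ m * ι ε' * ι g ^ 2, ci ^ m * ι κ', by
      have h1 : ci ^ m * ι c ^ m = 1 := by rw [← mul_pow, hci, one_pow]
      linear_combination ci ^ m * hεκ' + h1⟩
  -- (6)
  obtain ⟨aK, haK⟩ : ∃ aK : R →+* K, aK = algebraMap R K := ⟨_, rfl⟩
  rw [← haK] at hinj
  have hψ' : ∀ r, ψ (ι r) = aK r := fun r => by rw [hψ, haK]
  have InLof : ∀ d r : R, InL d (aK r) := fun d r => by rw [haK]; exact InL.of d r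
  set εK : K := ψ (ι ε' * (ci * ι d) ^ m) with hεK
  set δK : K := ψ ((ci * ι (1 - d)) ^ m) with hδK
  have hε1 : εK * aK (1 - d) ^ m = aK ε' := by
    rw [hεK, ← hψ', ← hψ', ← map_pow, ← map_mul, mul_assoc, hunit, mul_one]
  have hδ1 : δK * aK d ^ m = 1 := by
    rw [hδK, ← hψ', ← map_pow, ← map_mul, hunit', map_one]
  have hεin : InL (1 - d) εK := ⟨m, ε', by rw [← haK, ← hε1]; ring⟩
  have hδin : InL d δK := ⟨m, 1, by rw [← haK, map_one, ← hδ1]; ring⟩
  set E1 : R := d ^ m * (g * u - b * w) - g ^ 3 * (g * v + a * w) with hE1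
  set G : R := g * v + a * w with hG
  have e1 : aK E1 = ψ p * (aK v - εK * aK u) + ψ q * aK u ^ 2 := by
    have h1 := congrArg ψ he1
    simp only [map_sub, map_add, map_mul, map_pow, hψ'] at h1
    rw [hE1, hG]
    simp only [map_sub, map_add, map_mul, map_pow]
    rw [hεK]
    simp only [map_mul, map_pow, hψ']
    linear_combination h1
  have e2 : -(δK ^ 2) * aK G ^ 2 = ψ r * (aK v - εK * aK u) + ψ t * aK u ^ 2 := by
    have h1 := congrArg ψ he2
    simp only [map_sub, map_add, map_mul, map_pow, map_neg, hψ'] at h1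
    rw [hδK, hG, hεK]
    simp only [map_sub, map_add, map_mul, map_pow, hψ']
    linear_combination h1
  have hdetK : ψ p * ψ t - ψ q * ψ r = 1 := by
    rw [← map_mul, ← map_mul, ← map_sub, hdet, map_one]
  obtain ⟨β, γ, hβ, hγ, hβγ, hβin, hγin⟩ := split (K := K) hR d hd0 hd1' !![ψ p, ψ q; ψ r, ψ t]
    (by rw [Matrix.det_fin_two_of]; exact hdetK) (by
      rw [← hcd]
      intro i j
      fin_cases i <;> fin_cases j
      · exact hin p
      · exact hin q
      · exact hin r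
      · exact hin t)
  rw [Matrix.det_fin_two] at hβ hγ
  have k00 : ψ p = β 0 0 * γ 0 0 + β 0 1 * γ 1 0 := by
    have := congrFun (congrFun hβγ 0) 0
    simpa [Matrix.mul_apply, Fin.sum_univ_two] using this
  have k01 : ψ q = β 0 0 * γ 0 1 + β 0 1 * γ 1 1 := by
    have := congrFun (congrFun hβγ 0) 1
    simpa [Matrix.mul_apply, Fin.sum_univ_two] using this
  have k10 : ψ r = β 1 0 * γ 0 0 + β 1 1 * γ 1 0 := by
    have := congrFun (congrFun hβγ 1) 0
    simpa [Matrix.mul_apply, Fin.sum_univ_two] using this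
  have k11 : ψ t = β 1 0 * γ 0 1 + β 1 1 * γ 1 1 := by
    have := congrFun (congrFun hβγ 1) 1
    simpa [Matrix.mul_apply, Fin.sum_univ_two] using this
  set A0 : K := γ 0 0 * (aK v - εK * aK u) + γ 0 1 * aK u ^ 2 with hA0
  set B0 : K := γ 1 0 * (aK v - εK * aK u) + γ 1 1 * aK u ^ 2 with hB0
  have f1 : aK E1 = β 0 0 * A0 + β 0 1 * B0 := by
    rw [e1, hA0, hB0, k00, k01]; ring
  have f2 : -(δK ^ 2) * aK G ^ 2 = β 1 0 * A0 + β 1 1 * B0 := by
    rw [e2, hA0, hB0, k10, k11]; ring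
  have g1 : A0 = β 1 1 * aK E1 - β 0 1 * (-(δK ^ 2) * aK G ^ 2) := by
    rw [f1, f2]
    linear_combination (-A0) * hβ
  have g2 : B0 = -β 1 0 * aK E1 + β 0 0 * (-(δK ^ 2) * aK G ^ 2) := by
    rw [f1, f2]
    linear_combination (-B0) * hβ
  have hx' : InL (1 - d) (aK v - εK * aK u) := (InLof _ _).sub (hεin.mul (InLof _ _))
  have hy' : InL (1 - d) (aK u ^ 2) := by rw [← map_pow]; exact InLof _ _
  have hy'' : InL d (-(δK ^ 2) * aK G ^ 2) := by
    have : -(δK ^ 2) * aK G ^ 2 = -(δK * δK) * aK (G ^ 2) := by rw [map_pow]; ring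
    rw [this]
    exact (hδin.mul hδin).neg.mul (InLof _ _)
  obtain ⟨A, hA⟩ : ∃ A : R, algebraMap R K A = A0 := by
    apply InL.both (d := d)
    · rw [g1]
      exact ((hβin 1 1).mul (InLof _ _)).sub ((hβin 0 1).mul hy'')
    · rw [hA0]
      exact ((hγin 0 0).mul hx').add ((hγin 0 1).mul hy')
  obtain ⟨B, hB⟩ : ∃ B : R, algebraMap R K B = B0 := by
    apply InL.both (d := d)
    · rw [g2]
      exact ((hβin 1 0).neg.mul (InLof _ _)).add ((hβin 0 0).mul hy'')
    · rw [hB0]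
      exact ((hγin 1 0).mul hx').add ((hγin 1 1).mul hy')
  rw [← haK] at hA hB
  -- (7)
  refine ⟨A, B, radical_eq_of_prime hJrad fun 𝔮 hq => ?_⟩
  rw [span_pair_le_iff, hinfle 𝔮 hq]
  subst haK
  by_cases hdq : d ∈ 𝔮
  · have hdq' : 1 - d ∉ 𝔮 := by
      intro h1
      have : (1 : R) = (1 - d) + d := by ring
      exact (Ideal.ne_top_iff_one 𝔮).1 hq.ne_top (this ▸ Ideal.add_mem _ h1 hdq)
    have hmain : (A ∈ 𝔮 ∧ B ∈ 𝔮) ↔ (u ∈ 𝔮 ∧ v ∈ 𝔮) := by
      constructor
      · rintro ⟨h1, h2⟩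
        have hu : u ∈ 𝔮 := by
          refine hq.mem_of_pow_mem 2 (mem_of_comb hinj (1 - d) 𝔮 hdq' h1 h2 (hγin 1 0).neg
            (hγin 0 0) ?_)
          rw [hA, hB, hA0, hB0, map_pow]
          linear_combination (-(algebraMap R K u ^ 2)) * hγ
        refine ⟨hu, ?_⟩
        have h3 : (1 - d) ^ m * v - ε' * u ∈ 𝔮 := by
          refine mem_of_comb hinj (1 - d) 𝔮 hdq' h1 h2
            ((InL.of (1 - d) ((1 - d) ^ m)).mul (hγin 1 1))
            ((InL.of (1 - d) ((1 - d) ^ m)).mul (hγin 0 1).neg) ?_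
          rw [hA, hB, hA0, hB0, map_sub, map_mul, map_mul, ← hε1, map_pow]
          linear_combination (-(algebraMap R K (1 - d) ^ m *
            (algebraMap R K v - εK * algebraMap R K u))) * hγ
        have h4 : (1 - d) ^ m * v ∈ 𝔮 := by
          have : (1 - d) ^ m * v = ((1 - d) ^ m * v - ε' * u) + ε' * u := by ring
          rw [this]
          exact Ideal.add_mem _ h3 (Ideal.mul_mem_left _ _ hu)
        exact (hq.mem_or_mem h4).resolve_left fun h5 => hdq' (hq.mem_of_pow_mem _ h5)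
      · rintro ⟨hu, hv⟩
        constructor
        · refine mem_of_comb hinj (1 - d) 𝔮 hdq' hv hu (hγin 0 0)
            (((hγin 0 0).neg.mul hεin).add ((hγin 0 1).mul (InL.of _ u))) ?_
          rw [hA, hA0]
          ring
        · refine mem_of_comb hinj (1 - d) 𝔮 hdq' hv hu (hγin 1 0)
            (((hγin 1 0).neg.mul hεin).add ((hγin 1 1).mul (InL.of _ u))) ?_
          rw [hB, hB0]
          ring
    rw [hmain]
    refine ⟨Or.inr, ?_⟩
    rintro (⟨h1, h2⟩ | h1)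
    · exfalso
      have h3 := hXd 𝔮 hq h1 h2
      exact hdq' (by rw [← neg_sub]; exact neg_mem h3)
    · exact h1
  · rw [← hchart 𝔮 hq hdq]
    constructor
    · rintro ⟨h1, h2⟩
      have hGq : G ∈ 𝔮 := by
        refine hq.mem_of_pow_mem 2 (mem_of_comb hinj d 𝔮 hdq h1 h2
          ((InL.of d (-(d ^ (2 * m)))).mul (hβin 1 0))
          ((InL.of d (-(d ^ (2 * m)))).mul (hβin 1 1)) ?_)
        rw [hA, hB, map_pow, map_neg, map_pow]
        linear_combination (-(algebraMap R K d ^ (2 * m))) * f2 -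
          algebraMap R K G ^ 2 * (δK * algebraMap R K d ^ m + 1) * hδ1
      have hE1q : E1 ∈ 𝔮 := by
        refine mem_of_comb hinj d 𝔮 hdq h1 h2 (hβin 0 0) (hβin 0 1) ?_
        rw [hA, hB]
        exact f1
      refine ⟨?_, hGq⟩
      have h4 : d ^ m * (g * u - b * w) ∈ 𝔮 := by
        have : d ^ m * (g * u - b * w) = E1 + g ^ 3 * G := by rw [hE1]; ring
        rw [this]
        exact Ideal.add_mem _ hE1q (Ideal.mul_mem_left _ _ hGq)
      exact (hq.mem_or_mem h4).resolve_left fun h5 => hdq (hq.mem_of_pow_mem _ h5)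
    · rintro ⟨hF, hGq⟩
      have hE1q : E1 ∈ 𝔮 := Ideal.sub_mem _ (Ideal.mul_mem_left _ _ hF)
        (Ideal.mul_mem_left _ _ hGq)
      constructor
      · refine mem_of_comb hinj d 𝔮 hdq hE1q hGq (hβin 1 1)
          ((hβin 0 1).mul ((hδin.mul hδin).mul (InL.of d G))) ?_
        rw [hA, g1]
        ring
      · refine mem_of_comb hinj d 𝔮 hdq hE1q hGq (hβin 1 0).neg
          ((hβin 0 0).neg.mul ((hδin.mul hδin).mul (InL.of d G))) ?_
        rw [hB, g2]
        ring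

end STCI.UN
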